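import Pool.Agent.H85.SD.Ex

/-!
helper33 (proof by helper97): approximation with an idempotent, selection of the multiplier `f`.
-/

set_option autoImplicit false
open scoped Classical

namespace H33D3

open H85SD

variable {p : ℕ} {R : Type} [CommRing R] [Algebra (ZMod p) R] [Fact p.Prime] [Finite R]

theorem approx_idem (T : TB p R) {e D0 : ℕ} (L : Set R) (hL : ∀ g ∈ L, g ∈ T.P e ∧ g * g = g)
    {q : ℝ} (hq0 : 0 ≤ q) (hq1 : q ≤ 1) (w : ℕ) (hd : D0 + e + (e * (p - 1) * w + e) + e * (p + 1) ≤ T.d) :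
    ∃ a ∈ T.P (e * (p - 1) * w), a * a = a ∧
      (∃ (m : ℕ) (c g : Fin m → R), (∀ i, c i ∈ T.P (e * (p - 1) * w)) ∧ (∀ i, g i ∈ L) ∧ 1 - a = ∑ i, c i * g i) ∧
      UU T q (D0 + e) a L ≤ tau T q D0 e + (1 - (1 - 1 / (p : ℝ)) * q ^ e) ^ w * U0 T q (D0 + e) := by
  obtain ⟨m, g, hg⟩ := enum L
  have hgm : ∀ r, g r ∈ L := fun r => hg ▸ Set.mem_range_self r
  obtain ⟨a, ha, ⟨haa, c, hc, hca⟩, hU⟩ := approx T (D0 := D0) g (fun r => (hL _ (hgm r)).1)
    (fun r => (hL _ (hgm r)).2) hq0 hq1 w hd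
  refine ⟨a, ha, haa, ⟨m, c, g, hc, hgm, hca⟩, ?_⟩
  rw [← hg]
  exact hU

theorem sel (T : TB p R) {ι : Type} [Fintype ι] (a : ι → R) (L : ι → Set R) {q : ℝ} (hq : 0 < q) {Dm : ℕ}
    (h : ∑ i, UU T q Dm (a i) (L i) < U0 T q Dm) :
    ∃ D ≤ Dm, ∃ f ∈ T.P D, f ∉ T.K ∧ ∀ i, ∀ g ∈ L i, f * (a i * g) ∈ T.K := by
  have hdeg : ∃ D ∈ Finset.range (Dm + 1), ∑ i, rr T D (a i) (L i) < hD T D := by
    by_contra hcon
    push Not at hcon
    refine absurd h (not_lt.2 ?_)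
    simp only [U0, UU]
    rw [Finset.sum_comm]
    refine Finset.sum_le_sum fun D hDr => ?_
    rw [← Finset.mul_sum]
    exact mul_le_mul_of_nonneg_left (hcon D hDr) (pow_nonneg hq.le D)
  obtain ⟨D, hDr, hlt⟩ := hdeg
  rw [Finset.mem_range] at hDr
  have hdim := SizeDegree.inter_dim (T.P D) (fun i => An T D (a i) (L i)) (fun i => inf_le_left) Finset.univ
  have hne : ¬ (T.P D ⊓ Finset.univ.inf (fun i => An T D (a i) (L i)) ≤ T.K) := by
    intro hle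
    have h2 : Module.finrank (ZMod p) ↥(T.P D ⊓ Finset.univ.inf (fun i => An T D (a i) (L i))) ≤
        Module.finrank (ZMod p) ↥(T.P D ⊓ T.K) := Submodule.finrank_mono (le_inf inf_le_left hle)
    have h3 : (Module.finrank (ZMod p) ↥(T.P D ⊓ Finset.univ.inf (fun i => An T D (a i) (L i))) : ℝ) ≤
        Module.finrank (ZMod p) ↥(T.P D ⊓ T.K) := by exact_mod_cast h2
    rw [hD] at hlt
    simp only [rr] at hlt
    linarith
  rw [SetLike.not_le_iff_exists] at hne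
  obtain ⟨f, hf, hfK⟩ := hne
  obtain ⟨hf1, hf2⟩ := Submodule.mem_inf.1 hf
  refine ⟨D, by omega, f, hf1, hfK, fun i => ?_⟩
  have h3 : f ∈ An T D (a i) (L i) := by
    have h4 : Finset.univ.inf (fun i => An T D (a i) (L i)) ≤ An T D (a i) (L i) := Finset.inf_le (Finset.mem_univ i)
    exact h4 hf2
  exact (Submodule.mem_inf.1 h3).2

end H33D3
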