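import Pool.Agent.H33.D3.Snd
import Pool.Agent.H33.D3.Ap

/-!
ROW Abs (abstract lower bound; about 200 lines).  PROOF.  b1 := e (p-1) w1, bh := (p-1) b1, b2 := bh (p-1) w2.  Let Refutes with M, 𝒢, l.  Suppose the conclusion fails: N (τ1 + τ2 + (θ1^w1 + θ2^w2) U0) < U0 with N ≥ M + |𝒢| (all terms ≥ 0).
(1) For G ∈ 𝒢 let a G from approx_idem with L = G (elements are Cond e: degree ≤ e, idempotent because 0/1 valued), D0 := Dm - e, w = w1; a ∅ := 1 and a G := 1 for G ∉ 𝒢; if ∅ ∈ 𝒢 then approx_idem gives 1 - a ∅ = ∑ over an empty family (no g i ∈ ∅ exist, so m = 0) = 0: a ∅ = 1.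
(2) For i < M let al i from approx_idem with L = hat a '' l i (degree ≤ bh by hat_deg, idempotent because 0/1 valued), e := bh, D0 := Dm - bh, w = w2.
(3) sel for ι = {G // G ∈ 𝒢} ⊕ Fin M: ∑ UU ≤ |𝒢| (τ1 + θ1^w1 U0) + M (τ2 + θ2^w2 U0) ≤ N (...) < U0.  So there are D ≤ Dm, f ∈ P D, f ∉ K with the annihilation properties: Apx T f (a G) G b1 and Apx T f (al i) (hat a '' l i) b2.
(4) By strong induction `sound` gives f * al i ∈ K for all i < M.  l (M-1) = ∅, so al (M-1) = 1 as in (1), so f ∈ K: contradiction.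
-/

set_option autoImplicit false
open scoped Classical

namespace H33D3

open SizeDegree DepthTwo H85SD

theorem abs_bound {p n k m e s ff w1 w2 Dm N : ℕ} [Fact p.Prime] (T : TB p (Fn p n)) (hTP : T.P = PP p n)
    (Φ : Fin m → KClause n k) (hcl : ∀ j, (fc (Φ j) : Fn p n) ∈ T.K) {q : ℝ} (hq0 : 0 < q) (hq1 : q ≤ 1)
    (he : 1 ≤ e) (hw1 : 1 ≤ w1) (hD : (p - 1) * (e * (p - 1) * w1) ≤ Dm)
    (hbud : Dm + 2 * ((p - 1) * (e * (p - 1) * w1) * (p - 1) * w2) +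
      ((ff + 2 * s + 2) * (s + 1) + p + 2) * ((p - 1) * (e * (p - 1) * w1) + e * (p - 1) * w1) + (ff + 1) * k ≤ T.d)
    (hR : Refutes p e ff s Φ N) :
    U0 T q Dm ≤ N * (tau T q (Dm - e) e +
      tau T q (Dm - (p - 1) * (e * (p - 1) * w1)) ((p - 1) * (e * (p - 1) * w1)) +
      ((1 - (1 - 1 / (p : ℝ)) * q ^ e) ^ w1 +
        (1 - (1 - 1 / (p : ℝ)) * q ^ ((p - 1) * (e * (p - 1) * w1))) ^ w2) * U0 T q Dm) := by
  sorry

end H33D3
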