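import Pool.Agent.H33.D3.Red
import Pool.Agent.H33.RG.Op

/-!
ROW Op (the Alekhnovich-Razborov operator up to degree E; about 150 lines).  PROOF.  Copy of `H33RG.ar_disjoint` (Pool/Agent/H33/RG/Op.lean) with Spt S B replaced by Sup S s: spt_card → sup_card (≤ s ≤ 2 s), spt_sub → sup_sub, red_spt → red_sup (J.card ≤ 2 * s),
`{j} ⊆ Spt (S j)` → mem_sup_self, spt_good → hypothesis Sup S s T = ∅ (the set of good monomials is {T | T.card ≤ E ∧ Sup S s T = ∅}).
-/

set_option autoImplicit false
open scoped Classical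

namespace H33D3

open H95RE H33RG

variable {F : Type} [Field F] {n : ℕ}

theorem ar_hall {M : ℕ} (hn : 1 ≤ n) (S : Fin M → Finset (Fin n)) (σ : Fin M → X n) {E s : ℕ} (hs : 1 ≤ s) (hE1 : 1 ≤ E)
    (hS : ∀ j, (S j).card ≤ E) (hX : HX S E s) :
    Disjoint (Submodule.span F (mono F '' {T : Finset (Fin n) | T.card ≤ E ∧ Sup S s T = ∅}))
      (PI F n (Set.range fun j => ind F (S j) (σ j)) E) := by
  obtain ⟨o, ho⟩ := ord_exists n
  choose P hP0 hPirr hPsub hPmono using fun J : Finset (Fin M) => proj o ho.1 (VJ F S σ J)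
  have hcardS : ∀ T : Finset (Fin n), T.card ≤ E → (Sup S s T).card ≤ 2 * s := fun T hT =>
    (sup_card hX hT).trans (by omega)
  -- the reduced monomial
  have hPv : ∀ (J : Finset (Fin M)) (T : Finset (Fin n)), P J (mono F T) ∈
      Submodule.span F (mono F '' {T' | ¬ Red o (VJ F S σ J) T' ∧ o T' ≤ o T ∧ T' ⊆ T ∪ J.biUnion S}) :=
    fun J T => proj_vars o ho.1 S σ J T _ (hPmono J T) (hPsub J (mono F T))
  have hcard : ∀ T T' : Finset (Fin n), o T' ≤ o T → T'.card ≤ T.card := by
    intro T T' h
    by_contra hc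
    have := ho.2 T' T (by omega)
    omega
  -- independence of the set of clauses
  have h1 : ∀ (T : Finset (Fin n)) (J : Finset (Fin M)), T.card ≤ E → Sup S s T ⊆ J → J.card ≤ 2 * s →
      P J (mono F T) = P (Sup S s T) (mono F T) := by
    intro T J hT hTJ hJ
    set c := Sup S s T with hc
    have h2 : P J (mono F T - P c (mono F T)) = 0 := hP0 J _ (VJ_mono S σ hTJ (hPsub c (mono F T)))
    rw [map_sub, sub_eq_zero] at h2
    rw [h2]
    have h3 : Set.EqOn (P J) (LinearMap.id (R := F) (M := X n → F))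
        (mono F '' {T' | ¬ Red o (VJ F S σ c) T' ∧ o T' ≤ o T ∧ T' ⊆ T ∪ c.biUnion S}) := by
      rintro _ ⟨T', ⟨hirr, hoT, hsub⟩, rfl⟩
      have hT' : T'.card ≤ E := (hcard T T' hoT).trans hT
      have hs' : Sup S s T' ⊆ c := sup_sub hX hT hT' hsub
      show P J (mono F T') = mono F T'
      refine hPirr J T' fun hred => hirr ?_
      have h4 := red_sup hn o ho S σ hX T' hT' J hJ (hs'.trans hTJ) hred
      have h5 : VJ F S σ (Sup S s T') ⊔ Submodule.span F (mono F '' {T'' | o T'' < o T'}) ≤
          VJ F S σ c ⊔ Submodule.span F (mono F '' {T'' | o T'' < o T'}) := sup_le_sup_right (VJ_mono S σ hs') _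
      exact h5 h4
    exact LinearMap.eqOn_span h3 (hPv c T)
  -- the operator
  let b := Module.Basis.mk (mono_indep F n) (mono_top F n).ge
  let R : (X n → F) →ₗ[F] (X n → F) :=
    b.constr F (fun T => if T.card ≤ E then P (Sup S s T) (mono F T) else 0)
  have hR : ∀ T : Finset (Fin n), T.card ≤ E → R (mono F T) = P (Sup S s T) (mono F T) := by
    intro T hT
    have hb : b T = mono F T := Module.Basis.mk_apply (mono_indep F n) (mono_top F n).ge T
    have h2 : R (b T) = if T.card ≤ E then P (Sup S s T) (mono F T) else 0 := b.constr_basis F _ T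
    rw [← hb, h2, if_pos hT, hb]
  -- multiplication
  have hmul : ∀ (i : Fin n) (e : ℕ), e + 1 ≤ E → ∀ g ∈ RM F n e,
      R (LinearMap.mulLeft F (mono F {i}) g) = R (LinearMap.mulLeft F (mono F {i}) (R g)) := by
    intro i e he g hg
    have h2 : Set.EqOn (R ∘ₗ LinearMap.mulLeft F (mono F {i}))
        (R ∘ₗ LinearMap.mulLeft F (mono F {i}) ∘ₗ R) (mono F '' {T : Finset (Fin n) | T.card ≤ e}) := by
      rintro _ ⟨T, hT, rfl⟩
      have hT1 : T.card ≤ e := hT
      have hTi : (insert i T).card ≤ E := (Finset.card_insert_le i T).trans (by omega)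
      have hTE' : T.card ≤ E := by omega
      set J := Sup S s (insert i T) with hJ
      have hJB : J.card ≤ 2 * s := hcardS _ hTi
      have hcT : Sup S s T ⊆ J :=
        sup_sub hX hTi hTE' ((Finset.subset_insert i T).trans Finset.subset_union_left)
      show R (LinearMap.mulLeft F (mono F {i}) (mono F T)) =
        R (LinearMap.mulLeft F (mono F {i}) (R (mono F T)))
      have h3 : R (LinearMap.mulLeft F (mono F {i}) (mono F T)) =
          P J (LinearMap.mulLeft F (mono F {i}) (mono F T)) := by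
        rw [mulL_mono, hR _ hTi]
      have h4 : P J (LinearMap.mulLeft F (mono F {i}) (mono F T)) =
          P J (LinearMap.mulLeft F (mono F {i}) (R (mono F T))) := by
        rw [← sub_eq_zero, ← map_sub, ← map_sub, hR T hTE']
        exact hP0 J _ (VJ_mul S σ J i _ (VJ_mono S σ hcT (hPsub _ (mono F T))))
      have h5 : Set.EqOn (P J ∘ₗ LinearMap.mulLeft F (mono F {i})) (R ∘ₗ LinearMap.mulLeft F (mono F {i}))
          (mono F '' {T' | ¬ Red o (VJ F S σ (Sup S s T)) T' ∧ o T' ≤ o T ∧ T' ⊆ T ∪ (Sup S s T).biUnion S}) := by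
        rintro _ ⟨T', ⟨hirr, hoT, hsub⟩, rfl⟩
        have hT' : T'.card ≤ e := (hcard T T' hoT).trans hT1
        have hT'i : (insert i T').card ≤ E := (Finset.card_insert_le i T').trans (by omega)
        have hs' : Sup S s (insert i T') ⊆ J := by
          refine sup_sub hX hTi hT'i ?_
          intro v hv
          rcases Finset.mem_insert.mp hv with rfl | hv
          · exact Finset.mem_union_left _ (Finset.mem_insert_self _ _)
          · rcases Finset.mem_union.mp (hsub hv) with h6 | h6
            · exact Finset.mem_union_left _ (Finset.mem_insert_of_mem h6)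
            · exact Finset.mem_union_right _ (Finset.biUnion_subset_biUnion_of_subset_left S hcT h6)
        show P J (LinearMap.mulLeft F (mono F {i}) (mono F T')) =
          R (LinearMap.mulLeft F (mono F {i}) (mono F T'))
        rw [mulL_mono, hR _ hT'i, h1 _ J hT'i hs' hJB]
      have h6 := LinearMap.eqOn_span h5 (hPv (Sup S s T) T)
      rw [← hR T hTE'] at h6
      rw [h3, h4]
      exact h6
    rw [RM_eq] at hg
    exact LinearMap.eqOn_span h2 hg
  -- the clauses
  have hax : ∀ j, R (ind F (S j) (σ j)) = 0 := by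
    intro j
    set J := Sup S s (S j) with hJ
    have hJB : J.card ≤ 2 * s := hcardS _ (hS j)
    have hjJ : j ∈ J := mem_sup_self hX hs j (hS j)
    have h5 : Set.EqOn R (P J) (mono F '' {T' : Finset (Fin n) | T' ⊆ S j}) := by
      rintro _ ⟨T', hT', rfl⟩
      have hsub : T' ⊆ S j := hT'
      have hT'E : T'.card ≤ E := (Finset.card_le_card hsub).trans (hS j)
      rw [hR _ hT'E, h1 _ J hT'E (sup_sub hX (hS j) hT'E
        (hsub.trans Finset.subset_union_left)) hJB]
    rw [LinearMap.eqOn_span h5 (ind_span (S j) (σ j))]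
    refine hP0 J _ fun x hx => ?_
    show (if ∀ t ∈ S j, x t = σ j t then (1 : F) else 0) = 0
    exact if_neg (hx j hjJ)
  -- `PI` is contained in the kernel
  have hPC : PI F n (Set.range fun j => ind F (S j) (σ j)) E ≤ RM F n E ⊓ LinearMap.ker R := by
    refine sInf_le ⟨?_, ?_⟩
    · rintro _ ⟨j, rfl⟩
      exact Submodule.mem_inf.mpr ⟨span_RM (hS j) (ind_span (S j) (σ j)), LinearMap.mem_ker.mpr (hax j)⟩
    · intro g hg hge i
      have hgR : R g = 0 := LinearMap.mem_ker.mp (Submodule.mem_inf.mp hg).2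
      have h9 : mono F {i} * g ∈ RM F n (1 + (E - 1)) :=
        mul_mem_RM (mono_mem (by rw [Finset.card_singleton])) hge
      have h10 : 1 + (E - 1) = E := by omega
      rw [h10] at h9
      refine Submodule.mem_inf.mpr ⟨h9, LinearMap.mem_ker.mpr ?_⟩
      have h11 := hmul i (E - 1) (by omega) g hge
      rw [hgR, map_zero, map_zero, LinearMap.mulLeft_apply] at h11
      exact h11
  -- the good monomials are fixed
  rw [Submodule.disjoint_def]
  intro f hf hfPC
  have h6 : Set.EqOn R (LinearMap.id (R := F) (M := X n → F))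
      (mono F '' {T : Finset (Fin n) | T.card ≤ E ∧ Sup S s T = ∅}) := by
    rintro _ ⟨T, ⟨hT, hG⟩, rfl⟩
    show R (mono F T) = mono F T
    rw [hR T hT, hG]
    have := VJ_empty S σ _ (hPsub ∅ (mono F T))
    rw [sub_eq_zero] at this
    exact this.symm
  have h7 := LinearMap.eqOn_span h6 hf
  have h8 : R f = 0 := LinearMap.mem_ker.mp (hPC hfPC).2
  rw [h8] at h7
  exact h7.symm

end H33D3
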