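import Pool.Agent.H33.D3.Prp
import Pool.Agent.H33.D3.Op
import Pool.Agent.H33.RP.Prp

/-!
ROW Bri (bridge: the truncated ideal of a formula; about 180 lines).  PROOF.  PP_eq_RM: PP p n D = H95RE.RM (ZMod p) n D: DegLE says g = ∑_{|T| ≤ D} a T * ∏_{i ∈ T} (if x i then 1 else 0) and H95RE.mono T x = if all x i true then 1 else 0 = that product (`Finset.prod_ite_zero`, `Finset.prod_boole`).
tb_exists: P := PP p n, K := PI (ZMod p) n (range (ind (SS Φ j) (σ j))) E with σ j i := the value which makes the literal of the variable i in the clause Φ j false (σ j i = !(Φ j).2 r if i = (Φ j).1 r, any value otherwise; the embedding is injective), d := E.  abs: `H95RE.PI_mul`.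
fro: x ^ p = x for functions into ZMod p (`ZMod.pow_card`).  mul, mono, one: PP_mul, PP_mono, PP_one.  fc (Φ j) = ind (SS Φ j) (σ j): KHolds is false iff x ((Φ j).1 r) ≠ (Φ j).2 r for all r iff x i = σ j i for all i ∈ SS Φ j.
U0 ≥ q^D * #{T : |T| ≤ D, Sup = ∅} for D ≤ min Dm E: hD T D = finrank (PP D) - finrank (PP D ⊓ K) ≥ finrank (span of the good monomials of degree ≤ D) = their number (`H33RG.mono_indep`), because that span X ≤ PP D and X ⊓ K = ⊥ by ar_hall:
finrank X + finrank (PP D ⊓ K) ≤ finrank (PP D) (`Submodule.finrank_add_le_finrank_add_finrank..`, from `Submodule.finrank_sup_add_finrank_inf_eq`).  All terms of U0 are ≥ 0.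
tau_le: tau T q D0 e = ∑_{D ∈ Ico (D0+1) (D0+e+1)} q^D * finrank (PP D) and finrank (PP D) ≤ ∑_{i ≤ D} C(n,i) (`SizeDegree.PP_fr`).
-/

set_option autoImplicit false
open scoped Classical

namespace H33D3

open SizeDegree DepthTwo H85SD

/-- The variable sets of the clauses. -/
noncomputable def SSk {n k m : ℕ} (Φ : Fin m → KClause n k) (j : Fin m) : Finset (Fin n) := Finset.univ.image (Φ j).1

private theorem bri_prod {p n : ℕ} (T : Finset (Fin n)) (x : Pt n) [Fact p.Prime] :
    (∏ i ∈ T, (if x i then (1 : ZMod p) else 0)) = H95RE.mono (ZMod p) T x := by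
  rw [Finset.prod_boole, H33RG.mono_apply]
  by_cases h : ∀ i ∈ T, x i = true
  · rw [if_pos h, if_pos h]
  · rw [if_neg h, if_neg h]

theorem PP_eq_RM {p n D : ℕ} [Fact p.Prime] : PP p n D = H95RE.RM (ZMod p) n D := by
  apply le_antisymm
  · rintro g ⟨a, ha⟩
    have e : g = ∑ T ∈ Finset.univ.filter (fun T : Finset (Fin n) => T.card ≤ D), a T • H95RE.mono (ZMod p) T := by
      funext x
      rw [ha, Finset.sum_apply]
      refine Finset.sum_congr rfl fun T _ => ?_
      rw [Pi.smul_apply, smul_eq_mul, bri_prod]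
    rw [e]
    refine Submodule.sum_mem _ fun T hT => Submodule.smul_mem _ _ (H95RE.mono_mem ?_)
    exact (Finset.mem_filter.mp hT).2
  · unfold H95RE.RM
    rw [Submodule.span_le]
    rintro _ ⟨T, hT, rfl⟩
    refine ⟨fun S => if S = T then 1 else 0, fun x => ?_⟩
    rw [Finset.sum_eq_single T]
    · show H95RE.mono (ZMod p) T x = (if T = T then (1 : ZMod p) else 0) * _
      rw [if_pos rfl, one_mul, bri_prod]
    · intro S _ hS
      show (if S = T then (1 : ZMod p) else 0) * _ = 0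
      rw [if_neg hS, zero_mul]
    · intro h
      exact (h (Finset.mem_filter.mpr ⟨Finset.mem_univ _, hT⟩)).elim

/-- The assignment which falsifies a clause. -/
private noncomputable def fals {n k : ℕ} (C : KClause n k) : Pt n :=
  fun i => if h : ∃ r, C.1 r = i then !(C.2 h.choose) else false

private theorem fals_apply {n k : ℕ} (C : KClause n k) (r : Fin k) : fals C (C.1 r) = !(C.2 r) := by
  have h : ∃ r', C.1 r' = C.1 r := ⟨r, rfl⟩
  have h1 : h.choose = r := C.1.injective h.choose_spec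
  unfold fals
  rw [dif_pos h, h1]

private theorem fc_eq {p n k m : ℕ} [Fact p.Prime] (Φ : Fin m → KClause n k) (j : Fin m) :
    (fc (Φ j) : Fn p n) = H33RG.ind (ZMod p) (SSk Φ j) (fals (Φ j)) := by
  funext x
  unfold fc H33RG.ind
  by_cases h : KHolds (Φ j) x
  · rw [if_pos h, if_neg]
    intro h'
    obtain ⟨r, hr⟩ := h
    have h1 := h' ((Φ j).1 r) (Finset.mem_image_of_mem _ (Finset.mem_univ r))
    rw [fals_apply, hr] at h1
    cases h2 : (Φ j).2 r <;> rw [h2] at h1 <;> exact absurd h1 (by decide)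
  · rw [if_neg h, if_pos]
    intro t ht
    obtain ⟨r, _, rfl⟩ := Finset.mem_image.mp ht
    rw [fals_apply]
    have h1 : x ((Φ j).1 r) ≠ (Φ j).2 r := fun h2 => h ⟨r, h2⟩
    cases h2 : (Φ j).2 r <;> cases h3 : x ((Φ j).1 r) <;> simp_all

theorem tb_exists {n k m E s : ℕ} (p : ℕ) [Fact p.Prime] (Φ : Fin m → KClause n k) (hn : 1 ≤ n) (hs : 1 ≤ s) (hk1 : 1 ≤ k)
    (hkE : k ≤ E) (hX : HX (SSk Φ) E s) :
    ∃ T : TB p (Fn p n), T.P = PP p n ∧ T.d = E ∧ (∀ j, (fc (Φ j) : Fn p n) ∈ T.K) ∧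
      (∀ (q : ℝ) (D Dm : ℕ), 0 ≤ q → D ≤ Dm → Dm ≤ E →
        q ^ D * ((Finset.univ.filter (fun T : Finset (Fin n) => T.card ≤ D ∧ Sup (SSk Φ) s T = ∅)).card : ℝ) ≤
          U0 T q Dm) ∧
      (∀ (q : ℝ) (D0 e : ℕ), 0 ≤ q → tau T q D0 e ≤ ∑ D ∈ Finset.Ico (D0 + 1) (D0 + e + 1), q ^ D * (H33RP.Bin n D : ℝ)) := by
  set K : Submodule (ZMod p) (Fn p n) :=
    H95RE.PI (ZMod p) n (Set.range fun j => H33RG.ind (ZMod p) (SSk Φ j) (fals (Φ j))) E with hK
  have habs : ∀ {a b : ℕ} {x y : Fn p n}, x ∈ K → x ∈ PP p n a → y ∈ PP p n b → a + b ≤ E → x * y ∈ K := by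
    intro a b x y hx hxa hyb hab
    rw [PP_eq_RM] at hxa hyb
    have h := H95RE.PI_mul hx hxa hyb hab
    rwa [mul_comm] at h
  have hfr : ∀ {D : ℕ}, FiniteDimensional (ZMod p) (PP p n D) := inferInstance
  have hdis := ar_hall (F := ZMod p) hn (SSk Φ) (fun j => fals (Φ j)) hs (by omega : 1 ≤ E) (by
    intro j
    unfold SSk
    refine Finset.card_image_le.trans ?_
    rw [Finset.card_univ, Fintype.card_fin]
    exact hkE) hX
  have hcnt : ∀ D : ℕ, D ≤ E →
      (Finset.univ.filter (fun T : Finset (Fin n) => T.card ≤ D ∧ Sup (SSk Φ) s T = ∅)).card +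
        Module.finrank (ZMod p) ↥(PP p n D ⊓ K) ≤ Module.finrank (ZMod p) (PP p n D) := by
    intro D hDE
    set Y : Submodule (ZMod p) (Fn p n) := Submodule.span (ZMod p)
      (Set.range fun T : {T : Finset (Fin n) // T.card ≤ D ∧ Sup (SSk Φ) s T = ∅} => H95RE.mono (ZMod p) T.1) with hY
    have h1 : Module.finrank (ZMod p) Y =
        (Finset.univ.filter (fun T : Finset (Fin n) => T.card ≤ D ∧ Sup (SSk Φ) s T = ∅)).card := by
      have hli := (H33RG.mono_indep (ZMod p) n).comp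
        (fun T : {T : Finset (Fin n) // T.card ≤ D ∧ Sup (SSk Φ) s T = ∅} => T.1) Subtype.val_injective
      have h2 := finrank_span_eq_card hli
      rw [← Fintype.card_subtype]
      exact h2
    have h2 : Y ≤ PP p n D := by
      rw [PP_eq_RM, hY, Submodule.span_le]
      rintro _ ⟨T, rfl⟩
      exact H95RE.mono_mem T.2.1
    have h3 : Y ⊓ (PP p n D ⊓ K) = ⊥ := by
      rw [eq_bot_iff]
      intro g hg
      obtain ⟨hg1, hg2⟩ := Submodule.mem_inf.mp hg
      obtain ⟨_, hg3⟩ := Submodule.mem_inf.mp hg2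
      have hg4 : g ∈ Submodule.span (ZMod p)
          (H95RE.mono (ZMod p) '' {T : Finset (Fin n) | T.card ≤ E ∧ Sup (SSk Φ) s T = ∅}) := by
        refine (Submodule.span_mono ?_) hg1
        rintro _ ⟨T, rfl⟩
        exact ⟨T.1, ⟨T.2.1.trans hDE, T.2.2⟩, rfl⟩
      exact (Submodule.mem_bot _).mpr (Submodule.disjoint_def.mp hdis g hg4 hg3)
    have h4 := Submodule.finrank_sup_add_finrank_inf_eq Y (PP p n D ⊓ K)
    rw [h3, finrank_bot, add_zero, h1] at h4
    rw [← h4]
    exact Submodule.finrank_mono (sup_le h2 inf_le_left)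
  let T : TB p (Fn p n) :=
    { P := PP p n
      K := K
      d := E
      mono := fun h => PP_mono h
      mul := fun hx hy => PP_mul hx hy
      one := PP_one
      abs := fun hx hxa hyb hab => habs hx hxa hyb hab
      fro := fun x => funext fun y => ZMod.pow_card (x y) }
  refine ⟨T, rfl, rfl, ?_, ?_, ?_⟩
  · intro j
    show (fc (Φ j) : Fn p n) ∈ K
    rw [fc_eq]
    exact H95RE.PI_mem ⟨j, rfl⟩
  · intro q D Dm hq hD hDm
    have h1 : ∀ D' ∈ Finset.range (Dm + 1), 0 ≤ q ^ D' * H85SD.hD T D' := by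
      intro D' _
      refine mul_nonneg (pow_nonneg hq _) ?_
      have h2 : Module.finrank (ZMod p) ↥(PP p n D' ⊓ K) ≤ Module.finrank (ZMod p) (PP p n D') :=
        Submodule.finrank_mono inf_le_left
      have h3 : (Module.finrank (ZMod p) ↥(PP p n D' ⊓ K) : ℝ) ≤ Module.finrank (ZMod p) (PP p n D') := by
        exact_mod_cast h2
      have h4 : H85SD.hD T D' = (Module.finrank (ZMod p) (PP p n D') : ℝ) - Module.finrank (ZMod p) ↥(PP p n D' ⊓ K) :=
        rfl
      rw [h4]
      linarith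
    have h2 : q ^ D * H85SD.hD T D ≤ U0 T q Dm :=
      Finset.single_le_sum h1 (Finset.mem_range.mpr (by omega))
    refine le_trans (mul_le_mul_of_nonneg_left ?_ (pow_nonneg hq D)) h2
    have h3 := hcnt D (hD.trans hDm)
    have h4 : H85SD.hD T D = (Module.finrank (ZMod p) (PP p n D) : ℝ) - Module.finrank (ZMod p) ↥(PP p n D ⊓ K) :=
      rfl
    have h5 : ((Finset.univ.filter (fun T : Finset (Fin n) => T.card ≤ D ∧ Sup (SSk Φ) s T = ∅)).card : ℝ) +
        (Module.finrank (ZMod p) ↥(PP p n D ⊓ K) : ℝ) ≤ (Module.finrank (ZMod p) (PP p n D) : ℝ) := by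
      exact_mod_cast h3
    rw [h4]
    linarith
  · intro q D0 e hq
    refine Finset.sum_le_sum fun D _ => mul_le_mul_of_nonneg_left ?_ (pow_nonneg hq D)
    have h1 : Module.finrank (ZMod p) (PP p n D) ≤ H33RP.Bin n D := PP_fr
    exact_mod_cast h1

end H33D3
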