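import Pool.Agent.H33.D3.Bri
import Pool.Agent.H85.SD.Thm
import Pool.Agent.H69.SD.RDefs

/-!
The derived functions are contained in the truncated ideal of the operator (helper33).
-/

set_option autoImplicit false
open scoped Classical

namespace H33D3

open SizeDegree H85SD

variable {n k m : ℕ}

theorem kk_le {p E : ℕ} [Fact p.Prime] (Φ : Fin m → DepthTwo.KClause n k) (T : TB p (Fn p n)) (hP : T.P = PP p n)
    (hd : T.d = E) (hfc : ∀ j, (fc (Φ j) : Fn p n) ∈ T.K) :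
    KK p (fun j => KClause.toClause (Φ j)) E ≤ T.K := by
  intro g hg
  have h : Derives (fun j => KClause.toClause (Φ j)) E g := hg
  induction h with
  | zero => exact T.K.zero_mem
  | clause j =>
    have h1 : (fun x : Pt n => if (KClause.toClause (Φ j)).Holds x then (0 : ZMod p) else 1) = fc (Φ j) := by
      funext x
      unfold fc
      have h2 : (KClause.toClause (Φ j)).Holds x ↔ DepthTwo.KHolds (Φ j) x := by
        unfold KClause.toClause Clause.Holds DepthTwo.KHolds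
        constructor
        · rintro ⟨l, hl, hx⟩
          obtain ⟨i, _, rfl⟩ := Finset.mem_image.mp hl
          exact ⟨i, hx⟩
        · rintro ⟨i, hi⟩
          exact ⟨((Φ j).1 i, (Φ j).2 i), Finset.mem_image_of_mem _ (Finset.mem_univ i), hi⟩
      exact if_congr h2 rfl rfl
    rw [h1]
    exact hfc j
  | add _ _ h1 h2 => exact T.K.add_mem (h1 ‹_›) (h2 ‹_›)
  | smul a _ h1 => exact T.K.smul_mem a (h1 ‹_›)
  | mul i hg' hc hlt h1 =>
    have h2 := h1 hg'
    have hx : (fun x : Pt n => if x i then (1 : ZMod p) else 0) ∈ PP p n 1 := PP_lit (i, true)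
    have h3 := T.abs h2 (by rw [hP]; exact hc) (by rw [hP]; exact hx) (by rw [hd]; exact hlt)
    rw [mul_comm] at h3
    exact h3

theorem u0_le {p E : ℕ} [Fact p.Prime] (Φ : Fin m → DepthTwo.KClause n k) (T : TB p (Fn p n)) (hP : T.P = PP p n)
    (hd : T.d = E) (hfc : ∀ j, (fc (Φ j) : Fn p n) ∈ T.K) {q : ℝ} (hq : 0 ≤ q) (Dm : ℕ) :
    U0 T q Dm ≤ U0 (TT p (fun j => KClause.toClause (Φ j)) E) q Dm := by
  have hK := kk_le Φ T hP hd hfc
  refine Finset.sum_le_sum fun D _ => mul_le_mul_of_nonneg_left ?_ (pow_nonneg hq D)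
  unfold hD
  rw [hP]
  have h1 : PP p n D ⊓ KK p (fun j => KClause.toClause (Φ j)) E ≤ PP p n D ⊓ T.K := inf_le_inf_left _ hK
  have h2 : (Module.finrank (ZMod p) ↥(PP p n D ⊓ KK p (fun j => KClause.toClause (Φ j)) E) : ℝ) ≤
      Module.finrank (ZMod p) ↥(PP p n D ⊓ T.K) := by
    exact_mod_cast Submodule.finrank_mono h1
  show (Module.finrank (ZMod p) (PP p n D) : ℝ) - Module.finrank (ZMod p) ↥(PP p n D ⊓ T.K) ≤
    (Module.finrank (ZMod p) (PP p n D) : ℝ) -
      Module.finrank (ZMod p) ↥(PP p n D ⊓ KK p (fun j => KClause.toClause (Φ j)) E)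
  linarith

theorem bri2 {p E s : ℕ} [Fact p.Prime] (Φ : Fin m → DepthTwo.KClause n k) (hn : 1 ≤ n) (hs : 1 ≤ s) (hk1 : 1 ≤ k)
    (hkE : k ≤ E) (hX : HX (SSk Φ) E s) {q : ℝ} (hq : 0 ≤ q) {D Dm : ℕ} (hD : D ≤ Dm) (hDm : Dm ≤ E) :
    q ^ D * ((Finset.univ.filter (fun T : Finset (Fin n) => T.card ≤ D ∧ Sup (SSk Φ) s T = ∅)).card : ℝ) ≤
      U0 (TT p (fun j => KClause.toClause (Φ j)) E) q Dm := by
  obtain ⟨T, h1, h2, h3, h4, _⟩ := tb_exists p Φ hn hs hk1 hkE hX
  exact (h4 q D Dm hq hD hDm).trans (u0_le Φ T h1 h2 h3 hq Dm)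

theorem tau_le' {p E : ℕ} [Fact p.Prime] (Φ : Fin m → DepthTwo.KClause n k) {q : ℝ} (hq : 0 ≤ q) (D0 e : ℕ) :
    tau (TT p (fun j => KClause.toClause (Φ j)) E) q D0 e ≤
      ∑ D ∈ Finset.Ico (D0 + 1) (D0 + e + 1), q ^ D * (H33RP.Bin n D : ℝ) := by
  refine Finset.sum_le_sum fun D _ => mul_le_mul_of_nonneg_left ?_ (pow_nonneg hq D)
  have h := PP_fr (p := p) (n := n) (D := D)
  unfold H33RP.Bin
  exact_mod_cast h

end H33D3
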