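import Pool.Agent.H95.RE.Idl

/-!
ROW Clo (closure of a set of variables, Hall version; about 200 lines).  `vs S J = ⋃_{j ∈ J} S j`, `ph S T J = |vs S J - T| - |J|` (integer), submodular in J.  `Mnz S s T J`: |J| ≤ 2 s and ph S T J ≤ ph S T J' for all |J'| ≤ 2 s.  Sup S s T = union of all minimisers.
HX S E s : |vs S J| > E + |J| for s < |J| ≤ 2 s.   PROOF.  (a) |T| ≤ E, J a minimiser: ph J ≤ ph ∅ = 0 but for s < |J| ≤ 2 s: |vs S J - T| ≥ |vs S J| - |T| > |J|; so |J| ≤ s.  (b) for minimisers J, J': |J ∪ J'|, |J ∩ J'| ≤ 2 s,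
ph (J ∪ J') + ph (J ∩ J') ≤ ph J + ph J' (vs (J ∪ J') = vs J ∪ vs J', vs (J ∩ J') ⊆ vs J ∩ vs J', `Finset.card_union_add_card_inter`), so J ∪ J' is a minimiser.  By induction over the finite family of minimisers (nonempty: a minimum exists) the union is a minimiser: sup_min.
sup_card: sup_min and (a).  sup_max: J a minimiser → J ⊆ Sup.  strict: A = Sup, J' disjoint from A... : if A ⊂ J, |J| ≤ 2 s then ph J > ph A (otherwise J is a minimiser, so J ⊆ A).
sup_sub: A = Sup T, B = Sup T'.  ph_{T'} B ≤ ph_{T'} (A ∩ B) gives |vs B - T'| - |vs (A ∩ B) - T'| ≤ |B| - |A ∩ B|.  vs (A ∪ B) - T = (vs A - T) ∪ (vs B - (T ∪ vs A)) and vs B - (T ∪ vs A) ⊆ (vs B - T') - (vs (A ∩ B) - T') as T' ⊆ T ∪ vs A and vs (A ∩ B) ⊆ vs A: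
so ph_T (A ∪ B) ≤ ph_T A, |A ∪ B| ≤ 2 s, A ∪ B is a minimiser for T, B ⊆ A.
hall: A = Sup T ⊆ J, |J| ≤ 2 s.  For J' ⊆ J - A nonempty: ph (A ∪ J') > ph A (strict) means |vs J' - (T ∪ vs A)| > |J'|... (vs (A ∪ J') - T = (vs A - T) ∪ (vs J' - (T ∪ vs A))), so Hall's condition holds for the family j ↦ S j - (T ∪ vs A), j ∈ J - A
(`Finset.all_card_le_biUnion_card_iff_exists_injective` on the subtype {j // j ∈ J \ A}): an injective choice v (any value in Fin n outside J - A, n ≥ 1).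
mem_sup_self: T = S j; if j ∉ A = Sup T then vs (A ∪ {j}) - T = vs A - T (S j - T = ∅), so ph (A ∪ {j}) < ph A, |A ∪ {j}| ≤ s + 1 ≤ 2 s: contradiction.
clean: T'' = T - vs A, A = Sup T: T'' ⊆ T, so B = Sup T'' ⊆ A by sup_sub; if B ≠ ∅ then |vs B - T''| = |vs B| > |B| (B ⊆ A so vs B ∩ T'' = ∅; hypothesis hX2), so ph_{T''} B > 0 = ph ∅: contradiction.
-/

set_option autoImplicit false
open scoped Classical

namespace H33D3

/-- The variables of the clauses in `J`. -/
noncomputable def vs {n M : ℕ} (S : Fin M → Finset (Fin n)) (J : Finset (Fin M)) : Finset (Fin n) := J.biUnion S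

/-- The deficiency. -/
noncomputable def ph {n M : ℕ} (S : Fin M → Finset (Fin n)) (T : Finset (Fin n)) (J : Finset (Fin M)) : ℤ :=
  ((vs S J \ T).card : ℤ) - J.card

/-- `J` minimises the deficiency among the sets of at most `2 s` clauses. -/
def Mnz {n M : ℕ} (S : Fin M → Finset (Fin n)) (s : ℕ) (T : Finset (Fin n)) (J : Finset (Fin M)) : Prop :=
  J.card ≤ 2 * s ∧ ∀ J' : Finset (Fin M), J'.card ≤ 2 * s → ph S T J ≤ ph S T J'

/-- The closure. -/
noncomputable def Sup {n M : ℕ} (S : Fin M → Finset (Fin n)) (s : ℕ) (T : Finset (Fin n)) : Finset (Fin M) :=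
  Finset.univ.filter (fun j => ∃ J, Mnz S s T J ∧ j ∈ J)

/-- Large sets of clauses have more than `E + |J|` variables. -/
def HX {n M : ℕ} (S : Fin M → Finset (Fin n)) (E s : ℕ) : Prop :=
  ∀ J : Finset (Fin M), s < J.card → J.card ≤ 2 * s → E + J.card < (vs S J).card

/-- The variables of a smaller set. -/
theorem vs_mono {n M : ℕ} {S : Fin M → Finset (Fin n)} {J J' : Finset (Fin M)} (h : J ⊆ J') : vs S J ⊆ vs S J' :=
  Finset.biUnion_subset_biUnion_of_subset_left _ h

theorem vs_union {n M : ℕ} {S : Fin M → Finset (Fin n)} (J J' : Finset (Fin M)) : vs S (J ∪ J') = vs S J ∪ vs S J' := by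
  unfold vs
  exact Finset.union_biUnion

theorem ph_empty {n M : ℕ} {S : Fin M → Finset (Fin n)} {T : Finset (Fin n)} : ph S T ∅ = 0 := by
  simp [ph, vs]

theorem mnz_card {n M E s : ℕ} {S : Fin M → Finset (Fin n)} (hS : HX S E s) {T : Finset (Fin n)} (hT : T.card ≤ E)
    {J : Finset (Fin M)} (hJ : Mnz S s T J) : J.card ≤ s := by
  by_contra hlt
  push Not at hlt
  have h1 := hS J hlt hJ.1
  have h2 := hJ.2 ∅ (by simp)
  rw [ph_empty] at h2
  unfold ph at h2
  have h3 : (vs S J).card ≤ (vs S J \ T).card + T.card := by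
    have := Finset.le_card_sdiff T (vs S J)
    omega
  omega

theorem ph_split {n M : ℕ} {S : Fin M → Finset (Fin n)} {T : Finset (Fin n)} (A J : Finset (Fin M)) :
    (vs S (A ∪ J) \ T).card = (vs S A \ T).card + (vs S J \ (T ∪ vs S A)).card := by
  rw [vs_union, ← Finset.card_union_of_disjoint]
  · congr 1
    ext x
    simp only [Finset.mem_sdiff, Finset.mem_union]
    tauto
  · rw [Finset.disjoint_left]
    intro x hx hx'
    rw [Finset.mem_sdiff] at hx hx'
    exact hx'.2 (Finset.mem_union_right _ hx.1)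

theorem mnz_union {n M E s : ℕ} {S : Fin M → Finset (Fin n)} (hS : HX S E s) {T : Finset (Fin n)} (hT : T.card ≤ E)
    {J J' : Finset (Fin M)} (hJ : Mnz S s T J) (hJ' : Mnz S s T J') : Mnz S s T (J ∪ J') := by
  have c1 := mnz_card hS hT hJ
  have c2 := mnz_card hS hT hJ'
  have hcu : (J ∪ J').card ≤ 2 * s := (Finset.card_union_le _ _).trans (by omega)
  have hci : (J ∩ J').card ≤ 2 * s := (Finset.card_le_card Finset.inter_subset_left).trans hJ.1
  have h1 := hJ'.2 _ hci
  have h2 : (vs S (J ∪ J') \ T).card = (vs S J \ T).card + (vs S J' \ (T ∪ vs S J)).card := ph_split J J'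
  have h3 : (vs S J' \ (T ∪ vs S J)).card + (vs S (J ∩ J') \ T).card ≤ (vs S J' \ T).card := by
    rw [← Finset.card_union_of_disjoint]
    · apply Finset.card_le_card
      intro x hx
      rw [Finset.mem_union, Finset.mem_sdiff, Finset.mem_sdiff] at hx
      rw [Finset.mem_sdiff]
      rcases hx with ⟨hx1, hx2⟩ | ⟨hx1, hx2⟩
      · exact ⟨hx1, fun h => hx2 (Finset.mem_union_left _ h)⟩
      · exact ⟨vs_mono Finset.inter_subset_right hx1, hx2⟩
    · rw [Finset.disjoint_left]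
      intro x hx hx'
      rw [Finset.mem_sdiff] at hx hx'
      exact hx.2 (Finset.mem_union_right _ (vs_mono Finset.inter_subset_left hx'.1))
  have h4 := Finset.card_union_add_card_inter J J'
  refine ⟨hcu, fun K hK => ?_⟩
  have h5 := hJ.2 K hK
  unfold ph at h1 h5 ⊢
  omega

theorem sup_eq {n M E s : ℕ} {S : Fin M → Finset (Fin n)} (hS : HX S E s) {T : Finset (Fin n)} (hT : T.card ≤ E) :
    ∃ A, Mnz S s T A ∧ ∀ J, Mnz S s T J → J ⊆ A := by
  obtain ⟨A0, hA0, hmin⟩ := Finset.exists_min_image (Finset.univ.filter (fun J : Finset (Fin M) => J.card ≤ 2 * s))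
    (fun J => ph S T J) ⟨∅, by simp⟩
  have hA0' : Mnz S s T A0 := by
    refine ⟨(Finset.mem_filter.1 hA0).2, fun J hJ => hmin J ?_⟩
    exact Finset.mem_filter.2 ⟨Finset.mem_univ _, hJ⟩
  obtain ⟨A, hA, hmax⟩ := Finset.exists_max_image (Finset.univ.filter (fun J : Finset (Fin M) => Mnz S s T J))
    (fun J => J.card) ⟨A0, by simpa using hA0'⟩
  have hA' : Mnz S s T A := (Finset.mem_filter.1 hA).2
  refine ⟨A, hA', fun J hJ => ?_⟩
  have hu := mnz_union hS hT hA' hJ
  have hc := hmax (A ∪ J) (Finset.mem_filter.2 ⟨Finset.mem_univ _, hu⟩)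
  have he : A = A ∪ J := Finset.eq_of_subset_of_card_le Finset.subset_union_left hc
  rw [he]
  exact Finset.subset_union_right

theorem sup_min {n M E s : ℕ} {S : Fin M → Finset (Fin n)} (hS : HX S E s) {T : Finset (Fin n)} (hT : T.card ≤ E) :
    Mnz S s T (Sup S s T) := by
  obtain ⟨A, hA, hmax⟩ := sup_eq hS hT
  have : Sup S s T = A := by
    ext j
    unfold Sup
    rw [Finset.mem_filter]
    constructor
    · rintro ⟨_, J, hJ, hj⟩
      exact hmax J hJ hj
    · intro hj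
      exact ⟨Finset.mem_univ _, A, hA, hj⟩
  rw [this]
  exact hA

theorem sup_max {n M s : ℕ} {S : Fin M → Finset (Fin n)} {T : Finset (Fin n)} {J : Finset (Fin M)} (hJ : Mnz S s T J) :
    J ⊆ Sup S s T := by
  intro j hj
  unfold Sup
  rw [Finset.mem_filter]
  exact ⟨Finset.mem_univ _, J, hJ, hj⟩

theorem sup_card {n M E s : ℕ} {S : Fin M → Finset (Fin n)} (hS : HX S E s) {T : Finset (Fin n)} (hT : T.card ≤ E) :
    (Sup S s T).card ≤ s := mnz_card hS hT (sup_min hS hT)

theorem sup_strict {n M E s : ℕ} {S : Fin M → Finset (Fin n)} (hS : HX S E s) {T : Finset (Fin n)} (hT : T.card ≤ E)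
    {J : Finset (Fin M)} (hJ : J.card ≤ 2 * s) (h : ¬ J ⊆ Sup S s T) : ph S T (Sup S s T) < ph S T J := by
  by_contra hlt
  push Not at hlt
  apply h
  apply sup_max
  exact ⟨hJ, fun K hK => hlt.trans ((sup_min hS hT).2 K hK)⟩

theorem sup_sub {n M E s : ℕ} {S : Fin M → Finset (Fin n)} (hS : HX S E s) {T T' : Finset (Fin n)} (hT : T.card ≤ E)
    (hT' : T'.card ≤ E) (h : T' ⊆ T ∪ vs S (Sup S s T)) : Sup S s T' ⊆ Sup S s T := by
  obtain ⟨A, hA⟩ : ∃ A, A = Sup S s T := ⟨_, rfl⟩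
  obtain ⟨B, hB⟩ : ∃ B, B = Sup S s T' := ⟨_, rfl⟩
  have mA : Mnz S s T A := by rw [hA]; exact sup_min hS hT
  have mB : Mnz S s T' B := by rw [hB]; exact sup_min hS hT'
  have cA := mnz_card hS hT mA
  have cB := mnz_card hS hT' mB
  rw [← hA] at h
  rw [← hA, ← hB]
  have hci : (A ∩ B).card ≤ 2 * s := (Finset.card_le_card Finset.inter_subset_left).trans mA.1
  have h1 := mB.2 _ hci
  have h2 : (vs S (A ∪ B) \ T).card = (vs S A \ T).card + (vs S B \ (T ∪ vs S A)).card := ph_split A B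
  have h3 : (vs S B \ (T ∪ vs S A)).card + (vs S (A ∩ B) \ T').card ≤ (vs S B \ T').card := by
    rw [← Finset.card_union_of_disjoint]
    · apply Finset.card_le_card
      intro x hx
      rw [Finset.mem_union, Finset.mem_sdiff, Finset.mem_sdiff] at hx
      rw [Finset.mem_sdiff]
      rcases hx with ⟨hx1, hx2⟩ | ⟨hx1, hx2⟩
      · exact ⟨hx1, fun h' => hx2 (h h')⟩
      · exact ⟨vs_mono Finset.inter_subset_right hx1, hx2⟩
    · rw [Finset.disjoint_left]
      intro x hx hx'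
      rw [Finset.mem_sdiff] at hx hx'
      exact hx.2 (Finset.mem_union_right _ (vs_mono Finset.inter_subset_left hx'.1))
  have h4 := Finset.card_union_add_card_inter A B
  have hcu : (A ∪ B).card ≤ 2 * s := (Finset.card_union_le _ _).trans (by omega)
  have hu : Mnz S s T (A ∪ B) := by
    refine ⟨hcu, fun K hK => ?_⟩
    have h5 := mA.2 K hK
    unfold ph at h1 h5 ⊢
    omega
  have h6 : A ∪ B ⊆ A := by
    have := sup_max hu
    rwa [← hA] at this
  exact Finset.subset_union_right.trans h6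

theorem hall {n M E s : ℕ} (hn : 1 ≤ n) {S : Fin M → Finset (Fin n)} (hS : HX S E s) {T : Finset (Fin n)} (hT : T.card ≤ E)
    {J : Finset (Fin M)} (hJ : J.card ≤ 2 * s) (h1 : Sup S s T ⊆ J) :
    ∃ v : Fin M → Fin n, Set.InjOn v (J \ Sup S s T : Finset (Fin M)) ∧
      ∀ j ∈ J \ Sup S s T, v j ∈ S j ∧ v j ∉ T ∧ v j ∉ vs S (Sup S s T) := by
  obtain ⟨A, hA⟩ : ∃ A, A = Sup S s T := ⟨_, rfl⟩
  rw [← hA] at h1
  rw [← hA]
  have hH : ∀ s' : Finset {j // j ∈ J \ A}, s'.card ≤ (s'.biUnion (fun j => S j.1 \ (T ∪ vs S A))).card := by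
    intro s'
    obtain ⟨J', hJ'⟩ : ∃ J' : Finset (Fin M), J' = s'.image Subtype.val := ⟨_, rfl⟩
    have hc : J'.card = s'.card := by rw [hJ']; exact Finset.card_image_of_injective _ Subtype.val_injective
    have hbu : s'.biUnion (fun j => S j.1 \ (T ∪ vs S A)) = vs S J' \ (T ∪ vs S A) := by
      ext x
      rw [hJ']
      simp only [Finset.mem_biUnion, Finset.mem_sdiff, vs, Finset.mem_image]
      constructor
      · rintro ⟨j, hj, hx, hx'⟩
        exact ⟨⟨j.1, ⟨j, hj, rfl⟩, hx⟩, hx'⟩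
      · rintro ⟨⟨j, ⟨i, hi, rfl⟩, hx⟩, hx'⟩
        exact ⟨i, hi, hx, hx'⟩
    rw [hbu, ← hc]
    have hsub : J' ⊆ J \ A := by
      rw [hJ']
      intro j hj
      obtain ⟨i, _, rfl⟩ := Finset.mem_image.1 hj
      exact i.2
    have hle : A ∪ J' ⊆ J := Finset.union_subset h1 (hsub.trans Finset.sdiff_subset)
    have hcu : (A ∪ J').card ≤ 2 * s := (Finset.card_le_card hle).trans hJ
    have h2 : (vs S (A ∪ J') \ T).card = (vs S A \ T).card + (vs S J' \ (T ∪ vs S A)).card := ph_split A J'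
    have hmin : ph S T A ≤ ph S T (A ∪ J') := by
      have := (sup_min hS hT).2 (A ∪ J') hcu
      rwa [← hA] at this
    have hd : Disjoint A J' := by
      rw [Finset.disjoint_left]
      intro x hx hx'
      exact (Finset.mem_sdiff.1 (hsub hx')).2 hx
    have hcd : (A ∪ J').card = A.card + J'.card := Finset.card_union_of_disjoint hd
    unfold ph at hmin
    omega
  obtain ⟨f, hf1, hf2⟩ := (Finset.all_card_le_biUnion_card_iff_exists_injective _).1 hH
  refine ⟨fun j => if h : j ∈ J \ A then f ⟨j, h⟩ else ⟨0, hn⟩, ?_, ?_⟩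
  · intro a ha b hb hab
    rw [Finset.mem_coe] at ha hb
    simp only [dif_pos ha, dif_pos hb] at hab
    have := hf1 hab
    exact congrArg Subtype.val this
  · intro j hj
    simp only [dif_pos hj]
    have := hf2 ⟨j, hj⟩
    rw [Finset.mem_sdiff, Finset.mem_union] at this
    exact ⟨this.1, fun h => this.2 (Or.inl h), fun h => this.2 (Or.inr h)⟩

theorem mem_sup_self {n M E s : ℕ} {S : Fin M → Finset (Fin n)} (hS : HX S E s) (hs : 1 ≤ s) (j : Fin M)
    (hj : (S j).card ≤ E) : j ∈ Sup S s (S j) := by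
  by_contra hn
  obtain ⟨A, hA⟩ : ∃ A, A = Sup S s (S j) := ⟨_, rfl⟩
  rw [← hA] at hn
  have cA : A.card ≤ s := by rw [hA]; exact sup_card hS hj
  have hd : Disjoint A {j} := by
    rw [Finset.disjoint_singleton_right]; exact hn
  have hcd : (A ∪ {j}).card = A.card + 1 := by
    rw [Finset.card_union_of_disjoint hd, Finset.card_singleton]
  have h2 : (vs S (A ∪ {j}) \ S j).card = (vs S A \ S j).card + (vs S {j} \ (S j ∪ vs S A)).card := ph_split A {j}
  have h3 : (vs S {j} \ (S j ∪ vs S A)).card = 0 := by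
    rw [Finset.card_eq_zero, Finset.sdiff_eq_empty_iff_subset]
    unfold vs
    rw [Finset.singleton_biUnion]
    exact Finset.subset_union_left
  have hmin : ph S (S j) A ≤ ph S (S j) (A ∪ {j}) := by
    have := (sup_min hS hj).2 (A ∪ {j}) (by omega)
    rwa [← hA] at this
  unfold ph at hmin
  omega

theorem clean {n M E s : ℕ} {S : Fin M → Finset (Fin n)} (hS : HX S E s)
    (hX2 : ∀ J : Finset (Fin M), J.Nonempty → J.card ≤ s → J.card < (vs S J).card) {T : Finset (Fin n)}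
    (hT : T.card ≤ E) : Sup S s (T \ vs S (Sup S s T)) = ∅ := by
  obtain ⟨T2, hT2⟩ : ∃ T2, T2 = T \ vs S (Sup S s T) := ⟨_, rfl⟩
  rw [← hT2]
  have hsub : T2 ⊆ T := by rw [hT2]; exact Finset.sdiff_subset
  have hT2c : T2.card ≤ E := (Finset.card_le_card hsub).trans hT
  have h1 : Sup S s T2 ⊆ Sup S s T := sup_sub hS hT hT2c (hsub.trans Finset.subset_union_left)
  by_contra hne
  have hne' : (Sup S s T2).Nonempty := Finset.nonempty_iff_ne_empty.2 hne
  have h2 := hX2 _ hne' (sup_card hS hT2c)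
  have h3 : vs S (Sup S s T2) \ T2 = vs S (Sup S s T2) := by
    rw [Finset.sdiff_eq_self_iff_disjoint, Finset.disjoint_left]
    intro x hx hx'
    rw [hT2] at hx'
    exact (Finset.mem_sdiff.1 hx').2 (vs_mono h1 hx)
  have h4 := (sup_min hS hT2c).2 ∅ (by simp)
  rw [ph_empty] at h4
  unfold ph at h4
  rw [h3] at h4
  omega

end H33D3
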