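import Pool.Agent.H33.D3.Sys

/-!
Completeness of the system of `OrGates` (helper33): every unsatisfiable CNF has a refutation of size less than `2 ^ (n + 1)`
without gates, if `1 ≤ e`, `2 ≤ f` and `1 ≤ s`.
-/

set_option autoImplicit false
open scoped Classical

namespace H33D3

open SizeDegree

/-- the condition `x_i = b`, as a function of the gates and the variables -/
noncomputable def litc (p : ℕ) {M n : ℕ} (l : Fin n × Bool) : Pt (M + n) → ZMod p := OrGates.lit M l

theorem litc_cond (p : ℕ) [Fact p.Prime] {M n e : ℕ} (he : 1 ≤ e) (l : Fin n × Bool) :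
    Cond e (litc p (M := M) l) := by
  refine ⟨?_, fun z => ?_⟩
  · -- value `1` of the variable, or one minus it
    refine ⟨fun T => if T = {Fin.natAdd M l.1} then (if l.2 then 1 else -1)
      else if T = ∅ then (if l.2 then 0 else 1) else 0, fun z => ?_⟩
    have hne : (∅ : Finset (Fin (M + n))) ≠ {Fin.natAdd M l.1} := by
      intro h
      have : Fin.natAdd M l.1 ∈ (∅ : Finset (Fin (M + n))) := by
        rw [h]
        exact Finset.mem_singleton_self _
      simp at this
    have hsub : ({∅, {Fin.natAdd M l.1}} : Finset (Finset (Fin (M + n)))) ⊆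
        Finset.univ.filter (fun T : Finset (Fin (M + n)) => T.card ≤ e) := by
      intro T hT
      rw [Finset.mem_insert, Finset.mem_singleton] at hT
      refine Finset.mem_filter.mpr ⟨Finset.mem_univ _, ?_⟩
      rcases hT with rfl | rfl
      · simp
      · simpa using he
    rw [← Finset.sum_subset hsub]
    · rw [Finset.sum_pair hne]
      simp only [hne, if_true, if_false, Finset.prod_empty, mul_one, Finset.prod_singleton]
      unfold litc OrGates.lit OrGates.vars
      obtain ⟨i, b⟩ := l
      dsimp only
      cases b <;> cases h : z (Fin.natAdd M i) <;> simp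
    · intro T _ hT
      rw [Finset.mem_insert, Finset.mem_singleton, not_or] at hT
      simp [hT.1, hT.2]
  · unfold litc OrGates.lit
    split <;> simp

/-- the literals which are false at the first `t` values of `v` -/
def lin (p n v t : ℕ) : Set (Pt (0 + n) → ZMod p) :=
  {g | ∃ i : Fin n, i.1 < t ∧ g = litc p (i, !(v.testBit i))}

theorem complete {p n m e f s : ℕ} [Fact p.Prime] (he : 1 ≤ e) (hf : 2 ≤ f) (hs : 1 ≤ s)
    (Φ : Fin m → Clause n) (hun : ∀ x : Pt n, ∃ j, ¬ (Φ j).Holds x) :
    OrGates.Refutes p e f s Φ (2 ^ (n + 1) - 1) := by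
  obtain ⟨N, hN⟩ : ∃ N, N = 2 ^ (n + 1) - 1 := ⟨_, rfl⟩
  have hp1 : 1 ≤ 2 ^ (n + 1) := Nat.one_le_two_pow
  have hp2 : 2 ≤ 2 ^ (n + 1) := by
    calc 2 = 2 ^ 1 := rfl
      _ ≤ 2 ^ (n + 1) := Nat.pow_le_pow_right (by norm_num) (by omega)
  rw [← hN]
  refine ⟨0, Fin.elim0, fun i => lin p n (N - i) (Nat.log 2 (N - i)), Nat.zero_le _, by omega, fun j => j.elim0, ?_, ?_, ?_⟩
  · rintro i _ g ⟨j, _, rfl⟩
    exact litc_cond p he _
  · have h1 : N - (N - 1) = 1 := by omega
    dsimp only
    rw [h1, Nat.log_one_right]
    ext g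
    constructor
    · rintro ⟨j, hj, _⟩
      omega
    · intro h
      exact absurd h (Set.notMem_empty g)
  · intro i hi
    obtain ⟨v, hv⟩ : ∃ v, v = N - i := ⟨_, rfl⟩
    have hv1 : 1 ≤ v := by omega
    have hv2 : v < 2 ^ (n + 1) := by omega
    obtain ⟨t, ht⟩ : ∃ t, t = Nat.log 2 v := ⟨_, rfl⟩
    have ht1 : 2 ^ t ≤ v := by rw [ht]; exact Nat.pow_log_le_self 2 (by omega)
    have ht2 : v < 2 ^ (t + 1) := by rw [ht]; exact Nat.lt_pow_succ_log_self (by norm_num) v
    have htn : t ≤ n := by
      by_contra hcon
      have : 2 ^ (n + 1) ≤ 2 ^ t := Nat.pow_le_pow_right (by norm_num) (by omega)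
      omega
    dsimp only
    rw [← hv, ← ht]
    rcases Nat.lt_or_ge t n with h | h
    · -- two premises
      right
      right
      have hps : 2 ^ (t + 1) = 2 * 2 ^ t := by ring
      have hps2 : 2 ^ (t + 2) = 4 * 2 ^ t := by ring
      have hle : 2 ^ (t + 2) ≤ 2 ^ (n + 1) := Nat.pow_le_pow_right (by norm_num) (by omega)
      have hvt : v.testBit t = true := by
        obtain ⟨r, hr⟩ : ∃ r, v = 2 ^ t + r := ⟨v - 2 ^ t, by omega⟩
        have hr2 : r < 2 ^ t := by omega
        rw [hr, Nat.testBit_two_pow_add_eq, Nat.testBit_lt_two_pow hr2]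
        rfl
      have hlog : ∀ v', 2 ^ (t + 1) ≤ v' → v' < 2 ^ (t + 2) → Nat.log 2 v' = t + 1 := by
        intro v' h1 h2
        exact Nat.log_eq_of_pow_le_of_lt_pow h1 h2
      refine ⟨{N - (2 ^ t + v), N - (2 ^ (t + 1) + v)}, Finset.card_le_two.trans hf, ?_, ?_⟩
      · intro j hj
        rw [Finset.mem_insert, Finset.mem_singleton] at hj
        rcases hj with rfl | rfl <;> omega
      · refine ⟨fun j => {litc p (⟨t, h⟩, !((N - j).testBit t))}, ∅, ?_, Nat.zero_le _, ?_, ?_⟩
        · intro j hj
          have hj' : ∃ v', N - j = v' ∧ Nat.log 2 v' = t + 1 ∧ ∀ i < t, v'.testBit i = v.testBit i := by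
            rw [Finset.mem_insert, Finset.mem_singleton] at hj
            rcases hj with rfl | rfl
            · refine ⟨2 ^ t + v, by omega, hlog _ (by omega) (by omega), fun i hi => ?_⟩
              exact Nat.testBit_two_pow_add_gt hi v
            · refine ⟨2 ^ (t + 1) + v, by omega, hlog _ (by omega) (by omega), fun i hi => ?_⟩
              exact Nat.testBit_two_pow_add_gt (by omega) v
          obtain ⟨v', hv', hl', hb'⟩ := hj'
          refine ⟨by rw [Finset.card_singleton]; exact hs, ?_, ?_⟩
          · intro g hg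
            rw [Finset.mem_singleton] at hg
            rw [hg]
            exact litc_cond p he _
          · rintro g ⟨i0, hi0, rfl⟩
            apply Submodule.subset_span
            dsimp only at hi0 ⊢
            rw [hv'] at hi0 ⊢
            rw [hl'] at hi0
            rcases Nat.lt_or_ge i0.1 t with h1 | h1
            · left
              refine ⟨i0, h1, ?_⟩
              rw [hb' _ h1]
            · right
              have h2 : i0 = ⟨t, h⟩ := Fin.ext (by dsimp only; omega)
              rw [Finset.coe_singleton, Set.mem_singleton_iff, h2]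
        · intro g hg
          exact absurd hg (Finset.notMem_empty g)
        · intro z hz
          exfalso
          obtain ⟨g1, hg1, h1⟩ := hz (N - (2 ^ t + v)) (Finset.mem_insert_self _ _)
          obtain ⟨g2, hg2, h2⟩ := hz (N - (2 ^ (t + 1) + v)) (Finset.mem_insert_of_mem (Finset.mem_singleton_self _))
          rw [Finset.mem_singleton] at hg1 hg2
          have e1 : N - (N - (2 ^ t + v)) = 2 ^ t + v := by omega
          have e2 : N - (N - (2 ^ (t + 1) + v)) = 2 ^ (t + 1) + v := by omega
          have b1 : (2 ^ t + v).testBit t = false := by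
            rw [Nat.testBit_two_pow_add_eq, hvt]
            rfl
          have b2 : (2 ^ (t + 1) + v).testBit t = true := by
            rw [Nat.testBit_two_pow_add_gt (by omega) v, hvt]
          rw [hg1, e1, b1] at h1
          rw [hg2, e2, b2] at h2
          unfold litc OrGates.lit at h1 h2
          dsimp only at h1 h2
          have h3 : OrGates.vars z (⟨t, h⟩ : Fin n) = !false := by
            by_contra hcon
            rw [if_neg hcon] at h1
            exact zero_ne_one h1
          have h4 : OrGates.vars z (⟨t, h⟩ : Fin n) = !true := by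
            by_contra hcon
            rw [if_neg hcon] at h2
            exact zero_ne_one h2
          rw [h3] at h4
          exact absurd h4 (by decide)
    · -- a clause
      left
      have htn' : t = n := le_antisymm htn h
      obtain ⟨j, hj⟩ := hun (fun i => v.testBit i)
      refine ⟨j, fun q hq => ⟨q.1, by rw [htn']; exact q.1.2, ?_⟩⟩
      have h1 : ¬ (v.testBit q.1 = q.2) := fun h1 => hj ⟨q, hq, h1⟩
      have h2 : q.2 = !(v.testBit q.1) := by
        revert h1
        cases v.testBit q.1 <;> cases q.2 <;> simp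
      rw [← h2]
      rfl

end H33D3
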