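import Pool.Agent.H85.SD.Defs
import Pool.Agent.H62.RC.Defs

/-!
Definitions used in the statement: depth two Frege systems over polynomials (helper33).
-/

set_option autoImplicit false
open scoped Classical

namespace DepthTwo

open SizeDegree

/-- A gate is a finite set of 0/1-valued functions; it denotes their disjunction. -/
abbrev Gate (p n : ℕ) := Finset (Pt n → ZMod p)

/-- A form denotes the condition `h(x) + ∑ c(G) y_G ∈ A`, where `y_G` is 1 if the gate `G` is true and 0 if it is false;
the sum is over the gates in the finite set `T`. -/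
structure Form (p n : ℕ) where
  h : Pt n → ZMod p
  T : Finset (Gate p n)
  c : Gate p n → ZMod p
  A : Set (ZMod p)

/-- The condition `F` at the assignment `x` when the gates `G` with `ν G` count as true. -/
def Form.Val {p n : ℕ} (F : Form p n) (x : Pt n) (ν : Gate p n → Prop) : Prop :=
  F.h x + ∑ G ∈ F.T, F.c G * (if ν G then 1 else 0) ∈ F.A

/-- A line is a set of forms; it denotes their disjunction. -/
abbrev Line (p n : ℕ) := Set (Form p n)

/-- The gates of the form are in `𝒢` and its function has degree at most `e`. -/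
def Form.Ok {p n : ℕ} (e : ℕ) (𝒢 : Finset (Gate p n)) (F : Form p n) : Prop := DegLE e F.h ∧ F.T ⊆ 𝒢

/-- A gate axiom: the disjunction of the gate `G₁` and of the functions in `P₁` implies the disjunction of the gates in
`R` and of the functions in `P₂`. -/
structure GateAxiom (p n : ℕ) where
  G₁ : Gate p n
  P₁ : Finset (Pt n → ZMod p)
  R : Finset (Gate p n)
  P₂ : Finset (Pt n → ZMod p)

/-- The axiom is a true inclusion of disjunctions (every function on the left side is on the right side) between gates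
in `𝒢` (or empty gates), with at most `s` gates on the right side and at most `s` further conditions of degree at most
`e` on each side. -/
def GateAxiom.Ok {p n : ℕ} (e s : ℕ) (𝒢 : Finset (Gate p n)) (w : GateAxiom p n) : Prop :=
  (∀ g ∈ w.G₁ ∪ w.P₁, (∃ G ∈ w.R, g ∈ G) ∨ g ∈ w.P₂) ∧ w.G₁ ∈ insert ∅ 𝒢 ∧ w.R ⊆ 𝒢 ∧ w.R.card ≤ s ∧
    w.P₁.card ≤ s ∧ w.P₂.card ≤ s ∧ (∀ g ∈ w.P₁, Cond e g) ∧ ∀ g ∈ w.P₂, Cond e g

/-- The axiom at `x` when the gates `G` with `ν G` count as true. -/
def GateAxiom.Val {p n : ℕ} (w : GateAxiom p n) (x : Pt n) (ν : Gate p n → Prop) : Prop :=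
  (ν w.G₁ ∨ ∃ g ∈ w.P₁, g x = 1) → (∃ G ∈ w.R, ν G) ∨ ∃ g ∈ w.P₂, g x = 1

/-- A clause with `k` literals on distinct variables: the variables and the values which make the literals true. -/
abbrev KClause (n k : ℕ) := LovaszSchrijver.KClause n k

/-- The clause is true at the assignment `x`. -/
def KHolds {n k : ℕ} (C : KClause n k) (x : Pt n) : Prop := ∃ i, x (C.1 i) = C.2 i

/-- Local inference of the line `C` from the lines `l j`, `j ∈ J`, and the clauses `Φ j`, `j ∈ Jc`: there are at most `s`
main forms `A j` for every premise, the other forms of the premise are in `C`, at most `s` main forms `B` of the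
conclusion and at most `s` gate axioms, such that the inference from the main forms holds for every assignment `x` and
every assignment `ν` of truth values to the gates for which the axioms hold and the empty gate is false. -/
def Infers {p n k m : ℕ} (e s : ℕ) (𝒢 : Finset (Gate p n)) (Φ : Fin m → KClause n k) (Jc : Finset (Fin m))
    (l : ℕ → Line p n) (J : Finset ℕ) (C : Line p n) : Prop :=
  ∃ (A : ℕ → Finset (Form p n)) (B : Finset (Form p n)) (W : Finset (GateAxiom p n)),
    (∀ j ∈ J, (A j).card ≤ s ∧ (∀ F ∈ A j, F.Ok e 𝒢) ∧ l j ⊆ C ∪ (A j : Set (Form p n))) ∧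
    B.card ≤ s ∧ (B : Set (Form p n)) ⊆ C ∧ W.card ≤ s ∧ (∀ w ∈ W, w.Ok e s 𝒢) ∧
    ∀ (x : Pt n) (ν : Gate p n → Prop), ¬ ν ∅ → (∀ w ∈ W, w.Val x ν) → (∀ j ∈ Jc, KHolds (Φ j) x) →
      (∀ j ∈ J, ∃ F ∈ A j, F.Val x ν) → ∃ F ∈ B, F.Val x ν

/-- The `k`-CNF `Φ` has a refutation such that the number of lines plus the number of different gates is at most `N`:
every line is inferred from at most `f` earlier lines and at most `f` clauses; the last line is empty. -/
def Refutes {n k m : ℕ} (p e f s : ℕ) (Φ : Fin m → KClause n k) (N : ℕ) : Prop :=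
  ∃ (M : ℕ) (𝒢 : Finset (Gate p n)) (l : ℕ → Line p n), M + 𝒢.card ≤ N ∧ 1 ≤ M ∧
    (∀ G ∈ 𝒢, ∀ g ∈ G, Cond e g) ∧ (∀ i < M, ∀ F ∈ l i, F.Ok e 𝒢) ∧ l (M - 1) = ∅ ∧
    ∀ i < M, ∃ (J : Finset ℕ) (Jc : Finset (Fin m)), J.card ≤ f ∧ Jc.card ≤ f ∧ (∀ j ∈ J, j < i) ∧
      Infers e s 𝒢 Φ Jc l J (l i)

end DepthTwo
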