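import Pool.Agent.H33.D3.Sc

/-!
ROW Ra (large sets of clauses have many variables; about 200 lines).  PROOF.  s0 = n / r, E = n/2 - 4 s0 (natural divisions), n/r ≥ s0 ≥ 0.9 n/r (n ≥ 2^k ≥ 2^(r^2) ≥ 10 r).  If HX fails there is J, s = |J| ∈ (s0, 2 s0], |vs J| ≤ E + s, so vs J ⊆ W for a W with |W| = E + s (≤ n).
By sub_count # ≤ ∑_s C(m,s) C(n,E+s) K^m ((E+s)/n)^(k s).  C(n,E+s) ≤ 2^n; (E+s)/n ≤ 1/2 - 2 s0/n; 2^k ((E+s)/n)^k ≤ (1 - 4 s0/n)^k ≤ exp(-4 k s0/n) ≤ exp(-3.6 r) (k ≥ r^2).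
C(m,s) ≤ (exp 1 * m/s)^s ≤ (exp 1 * n 2^k/s)^s (s^s ≤ exp(s) s!), n/s < r as s ≥ s0 + 1 > n/r.  So the s-term is ≤ K^m 2^n (exp 1 * r * exp(-3.6 r))^s ≤ K^m 2^n exp(-3 r s) ≤ K^m 2^n exp(-3 n) ≤ K^m 10^(-n) (exp 1 * r ≤ exp(0.6 r) for r ≥ 100).
There are at most n values of s and 4 n * n * 10^(-n) ≤ 1.
-/

set_option autoImplicit false
open scoped Classical

namespace H33D3

open DepthTwo

private lemma Ra_choose {m s : ℕ} (hs : 1 ≤ s) (B : ℝ) (hB : (m : ℝ) ≤ B * s) :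
    (m.choose s : ℝ) ≤ (B * Real.exp 1) ^ s := by
  have hs0 : (0 : ℝ) < s := by exact_mod_cast hs
  have h1 : (m.choose s : ℝ) ≤ (m : ℝ) ^ s / (s.factorial : ℝ) := Nat.choose_le_pow_div s m
  have h2 : (s : ℝ) ^ s / (s.factorial : ℝ) ≤ Real.exp s :=
    Real.pow_div_factorial_le_exp (s : ℝ) hs0.le s
  have hfac : (0 : ℝ) < (s.factorial : ℝ) := by exact_mod_cast Nat.factorial_pos s
  have hB0 : 0 ≤ B := by
    by_contra h
    push Not at h
    have : (m : ℝ) < 0 := lt_of_le_of_lt hB (mul_neg_of_neg_of_pos h hs0)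
    have hm0 : (0 : ℝ) ≤ m := Nat.cast_nonneg m
    linarith
  have hexp : Real.exp (s : ℝ) = Real.exp 1 ^ s := by
    rw [← Real.exp_nat_mul, mul_one]
  calc (m.choose s : ℝ) ≤ (m : ℝ) ^ s / (s.factorial : ℝ) := h1
    _ ≤ (B * s) ^ s / (s.factorial : ℝ) := by
        apply div_le_div_of_nonneg_right _ hfac.le
        exact pow_le_pow_left₀ (Nat.cast_nonneg m) hB s
    _ = B ^ s * ((s : ℝ) ^ s / (s.factorial : ℝ)) := by rw [mul_pow]; ring
    _ ≤ B ^ s * Real.exp 1 ^ s := by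
        rw [← hexp]
        exact mul_le_mul_of_nonneg_left h2 (pow_nonneg hB0 s)
    _ = (B * Real.exp 1) ^ s := by rw [mul_pow]

private lemma Ra_term {n k m s : ℕ} (hr : 100 ≤ Nat.sqrt k) (hn : 2 ^ k ≤ n) (hm : m ≤ n * 2 ^ k)
    (h1 : n / Nat.sqrt k < s) (h2 : s ≤ 2 * (n / Nat.sqrt k)) :
    (m.choose s : ℝ) * (2 ^ n * (((n / 2 - 4 * (n / Nat.sqrt k) + s : ℕ) : ℝ) / n) ^ (k * s)) ≤
      Real.exp (-(2 * (n : ℝ))) := by
  set r := Nat.sqrt k with hrdef
  set s0 := n / r with hs0def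
  have hrk : r * r ≤ k := Nat.sqrt_le k
  have hkn : k < n := lt_of_lt_of_le Nat.lt_two_pow_self hn
  have h100 : 100 * r ≤ r * r := Nat.mul_le_mul_right r hr
  have hrpos : 0 < r := by omega
  have hnr : 100 * r < n := by omega
  have ha : s0 * r ≤ n := Nat.div_mul_le_self n r
  have hb : n < r * (s0 + 1) := Nat.lt_mul_div_succ n hrpos
  have hc : 100 * s0 ≤ n := by
    calc 100 * s0 ≤ r * s0 := Nat.mul_le_mul_right s0 hr
      _ = s0 * r := Nat.mul_comm _ _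
      _ ≤ n := ha
  have hE : 2 * (n / 2 - 4 * s0 + s) + 4 * s0 ≤ n := by omega
  have hs1 : 1 ≤ s := by omega
  have hnpos : (0 : ℝ) < n := by
    have : 0 < n := by omega
    exact_mod_cast this
  have hrR : (0 : ℝ) < r := by exact_mod_cast hrpos
  have hr100 : (100 : ℝ) ≤ r := by exact_mod_cast hr
  have hrkR : (r : ℝ) * r ≤ k := by exact_mod_cast hrk
  have hnrR : 100 * (r : ℝ) < n := by exact_mod_cast hnr
  have hbR : (n : ℝ) < r * (s0 + 1) := by exact_mod_cast hb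
  have hER : 2 * ((n / 2 - 4 * s0 + s : ℕ) : ℝ) + 4 * (s0 : ℝ) ≤ n := by exact_mod_cast hE
  have hmR : (m : ℝ) ≤ n * 2 ^ k := by exact_mod_cast hm
  have hsR : (s0 : ℝ) + 1 ≤ s := by exact_mod_cast h1
  have hnrs : (n : ℝ) ≤ r * s := by
    have : (r : ℝ) * (s0 + 1) ≤ r * s := mul_le_mul_of_nonneg_left hsR hrR.le
    linarith
  set b : ℝ := ((n / 2 - 4 * s0 + s : ℕ) : ℝ) / n with hbdef
  have hb0 : 0 ≤ b := div_nonneg (Nat.cast_nonneg _) hnpos.le
  have hb1 : 2 * b ≤ 1 - 4 * (s0 : ℝ) / n := by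
    rw [hbdef]
    have : 2 * (((n / 2 - 4 * s0 + s : ℕ) : ℝ) / n) + 4 * (s0 : ℝ) / n ≤ 1 := by
      have h3 : 2 * (((n / 2 - 4 * s0 + s : ℕ) : ℝ) / n) + 4 * (s0 : ℝ) / n =
          (2 * ((n / 2 - 4 * s0 + s : ℕ) : ℝ) + 4 * (s0 : ℝ)) / n := by ring
      rw [h3, div_le_one hnpos]
      exact hER
    linarith
  have hb2 : 3.6 / (r : ℝ) ≤ 4 * (s0 : ℝ) / n := by
    rw [div_le_div_iff₀ hrR hnpos]
    nlinarith
  have hb3 : 2 * b ≤ Real.exp (-(3.6 / (r : ℝ))) := by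
    have := Real.add_one_le_exp (-(3.6 / (r : ℝ)))
    linarith
  have hb4 : (2 * b) ^ k ≤ Real.exp (-(3.6 * (r : ℝ))) := by
    calc (2 * b) ^ k ≤ (Real.exp (-(3.6 / (r : ℝ)))) ^ k := pow_le_pow_left₀ (by linarith) hb3 k
      _ = Real.exp ((k : ℝ) * (-(3.6 / (r : ℝ)))) := by rw [← Real.exp_nat_mul]
      _ ≤ Real.exp (-(3.6 * (r : ℝ))) := by
          apply Real.exp_le_exp.mpr
          have h4 : (r : ℝ) ≤ k / r := by
            rw [le_div_iff₀ hrR]
            exact hrkR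
          have h5 : (k : ℝ) * (-(3.6 / (r : ℝ))) = -(3.6 * (k / r)) := by ring
          rw [h5]
          linarith
  have hmB : (m : ℝ) ≤ (2 ^ k * r) * s := by
    have h2k : (0 : ℝ) ≤ 2 ^ k := by positivity
    calc (m : ℝ) ≤ n * 2 ^ k := hmR
      _ ≤ (r * s) * 2 ^ k := mul_le_mul_of_nonneg_right hnrs h2k
      _ = (2 ^ k * r) * s := by ring
  have hch := Ra_choose hs1 (2 ^ k * (r : ℝ)) hmB
  have hre : (r : ℝ) * Real.exp 1 ≤ Real.exp (0.6 * r) := by
    have h6 : Real.exp (0.6 * (r : ℝ)) = Real.exp 1 * Real.exp (0.6 * r - 1) := by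
      rw [← Real.exp_add]
      congr 1
      ring
    have h7 : (r : ℝ) ≤ Real.exp (0.6 * r - 1) := by
      have h8 := Real.quadratic_le_exp_of_nonneg (x := 0.6 * (r : ℝ) - 1) (by linarith)
      nlinarith
    rw [h6, mul_comm]
    exact mul_le_mul_of_nonneg_left h7 (Real.exp_pos 1).le
  have hbase : 2 ^ k * (r : ℝ) * Real.exp 1 * b ^ k ≤ Real.exp (-(3 * (r : ℝ))) := by
    have h9 : 2 ^ k * (r : ℝ) * Real.exp 1 * b ^ k = (r * Real.exp 1) * (2 * b) ^ k := by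
      rw [mul_pow]; ring
    rw [h9]
    calc (r * Real.exp 1) * (2 * b) ^ k ≤ Real.exp (0.6 * r) * Real.exp (-(3.6 * (r : ℝ))) :=
          mul_le_mul hre hb4 (pow_nonneg (by linarith) k) (Real.exp_pos _).le
      _ = Real.exp (-(3 * (r : ℝ))) := by
          rw [← Real.exp_add]
          congr 1
          ring
  have hbase0 : 0 ≤ 2 ^ k * (r : ℝ) * Real.exp 1 * b ^ k := by positivity
  have h2n : (2 : ℝ) ^ n ≤ Real.exp n := by
    have h10 : (2 : ℝ) ≤ Real.exp 1 := by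
      have := Real.add_one_le_exp (1 : ℝ)
      linarith
    calc (2 : ℝ) ^ n ≤ Real.exp 1 ^ n := pow_le_pow_left₀ (by norm_num) h10 n
      _ = Real.exp n := by rw [← Real.exp_nat_mul, mul_one]
  calc (m.choose s : ℝ) * (2 ^ n * b ^ (k * s))
      ≤ (2 ^ k * (r : ℝ) * Real.exp 1) ^ s * (2 ^ n * b ^ (k * s)) :=
        mul_le_mul_of_nonneg_right hch (by positivity)
    _ = 2 ^ n * (2 ^ k * (r : ℝ) * Real.exp 1 * b ^ k) ^ s := by
        rw [pow_mul, mul_pow (2 ^ k * (r : ℝ) * Real.exp 1) (b ^ k) s]; ring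
    _ ≤ Real.exp n * (Real.exp (-(3 * (r : ℝ)))) ^ s :=
        mul_le_mul h2n (pow_le_pow_left₀ hbase0 hbase s) (pow_nonneg hbase0 s) (Real.exp_pos _).le
    _ = Real.exp (n + s * (-(3 * (r : ℝ)))) := by
        rw [← Real.exp_nat_mul, ← Real.exp_add]
    _ ≤ Real.exp (-(2 * (n : ℝ))) := by
        apply Real.exp_le_exp.mpr
        nlinarith

theorem hx_count {n k m : ℕ} (hr : 100 ≤ Nat.sqrt k) (hn : 2 ^ k ≤ n) (hm : m ≤ n * 2 ^ k) :
    4 * n * (Finset.univ.filter (fun Φ : Fin m → KClause n k =>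
      ¬ HX (SSk Φ) (n / 2 - 4 * (n / Nat.sqrt k)) (n / Nat.sqrt k))).card ≤ Fintype.card (KClause n k) ^ m := by
  have hrk : Nat.sqrt k * Nat.sqrt k ≤ k := Nat.sqrt_le k
  have hkn : k < n := lt_of_lt_of_le Nat.lt_two_pow_self hn
  have h100 : 100 * Nat.sqrt k ≤ Nat.sqrt k * Nat.sqrt k := Nat.mul_le_mul_right _ hr
  have hn1 : 1 ≤ n := by omega
  have hn2 : 2 ≤ n := by omega
  have hnpos : (0 : ℝ) < n := by exact_mod_cast hn1
  have ha : n / Nat.sqrt k * Nat.sqrt k ≤ n := Nat.div_mul_le_self n _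
  have hc : 100 * (n / Nat.sqrt k) ≤ n := by
    calc 100 * (n / Nat.sqrt k) ≤ Nat.sqrt k * (n / Nat.sqrt k) := Nat.mul_le_mul_right _ hr
      _ = n / Nat.sqrt k * Nat.sqrt k := Nat.mul_comm _ _
      _ ≤ n := ha
  set s0 := n / Nat.sqrt k with hs0
  set E := n / 2 - 4 * s0 with hE
  set K : ℝ := (Fintype.card (KClause n k) : ℝ) with hK
  have hK0 : 0 ≤ K := Nat.cast_nonneg _
  set bad := Finset.univ.filter (fun Φ : Fin m → KClause n k => ¬ HX (SSk Φ) E s0) with hbad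
  -- the union bound
  have hsub : bad ⊆ (Finset.univ.filter (fun J : Finset (Fin m) => s0 < J.card ∧ J.card ≤ 2 * s0)).biUnion
      (fun J => (Finset.univ.filter (fun W : Finset (Fin n) => W.card ≤ E + J.card)).biUnion
        (fun W => Finset.univ.filter (fun Φ : Fin m → KClause n k => vs (SSk Φ) J ⊆ W))) := by
    intro Φ hΦ
    rw [hbad, Finset.mem_filter] at hΦ
    have h := hΦ.2
    unfold HX at h
    push Not at h
    obtain ⟨J, h1, h2, h3⟩ := h
    rw [Finset.mem_biUnion]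
    refine ⟨J, ?_, ?_⟩
    · rw [Finset.mem_filter]
      exact ⟨Finset.mem_univ _, h1, h2⟩
    · rw [Finset.mem_biUnion]
      refine ⟨vs (SSk Φ) J, ?_, ?_⟩
      · rw [Finset.mem_filter]
        exact ⟨Finset.mem_univ _, h3⟩
      · rw [Finset.mem_filter]
        exact ⟨Finset.mem_univ _, Finset.Subset.refl _⟩
  have hcard : (bad.card : ℝ) ≤ ∑ J ∈ Finset.univ.filter (fun J : Finset (Fin m) => s0 < J.card ∧ J.card ≤ 2 * s0),
      (2 ^ n * (K ^ m * (((E + J.card : ℕ) : ℝ) / n) ^ (k * J.card))) := by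
    have h1 : bad.card ≤ ∑ J ∈ Finset.univ.filter (fun J : Finset (Fin m) => s0 < J.card ∧ J.card ≤ 2 * s0),
        ∑ W ∈ Finset.univ.filter (fun W : Finset (Fin n) => W.card ≤ E + J.card),
          (Finset.univ.filter (fun Φ : Fin m → KClause n k => vs (SSk Φ) J ⊆ W)).card := by
      refine (Finset.card_le_card hsub).trans ?_
      refine Finset.card_biUnion_le.trans ?_
      exact Finset.sum_le_sum (fun J _ => Finset.card_biUnion_le)
    have h2 : (bad.card : ℝ) ≤ ∑ J ∈ Finset.univ.filter (fun J : Finset (Fin m) => s0 < J.card ∧ J.card ≤ 2 * s0),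
        ∑ W ∈ Finset.univ.filter (fun W : Finset (Fin n) => W.card ≤ E + J.card),
          ((Finset.univ.filter (fun Φ : Fin m → KClause n k => vs (SSk Φ) J ⊆ W)).card : ℝ) := by
      exact_mod_cast h1
    refine h2.trans (Finset.sum_le_sum (fun J _ => ?_))
    have hX0 : (0 : ℝ) ≤ K ^ m * (((E + J.card : ℕ) : ℝ) / n) ^ (k * J.card) := by positivity
    calc ∑ W ∈ Finset.univ.filter (fun W : Finset (Fin n) => W.card ≤ E + J.card),
          ((Finset.univ.filter (fun Φ : Fin m → KClause n k => vs (SSk Φ) J ⊆ W)).card : ℝ)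
        ≤ ∑ W ∈ Finset.univ.filter (fun W : Finset (Fin n) => W.card ≤ E + J.card),
          (K ^ m * (((E + J.card : ℕ) : ℝ) / n) ^ (k * J.card)) := by
          refine Finset.sum_le_sum (fun W hW => ?_)
          rw [Finset.mem_filter] at hW
          refine (sub_count hn1 J W).trans ?_
          apply mul_le_mul_of_nonneg_left _ (pow_nonneg hK0 m)
          apply pow_le_pow_left₀ (by positivity)
          apply div_le_div_of_nonneg_right _ hnpos.le
          exact_mod_cast hW.2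
      _ = ((Finset.univ.filter (fun W : Finset (Fin n) => W.card ≤ E + J.card)).card : ℝ) *
          (K ^ m * (((E + J.card : ℕ) : ℝ) / n) ^ (k * J.card)) := by
          rw [Finset.sum_const, nsmul_eq_mul]
      _ ≤ 2 ^ n * (K ^ m * (((E + J.card : ℕ) : ℝ) / n) ^ (k * J.card)) := by
          apply mul_le_mul_of_nonneg_right _ hX0
          have h3 : (Finset.univ.filter (fun W : Finset (Fin n) => W.card ≤ E + J.card)).card ≤ 2 ^ n := by
            refine (Finset.card_filter_le _ _).trans ?_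
            rw [Finset.card_univ, Fintype.card_finset, Fintype.card_fin]
          exact_mod_cast h3
  -- grouping by cardinality
  have hgrp : ∑ J ∈ Finset.univ.filter (fun J : Finset (Fin m) => s0 < J.card ∧ J.card ≤ 2 * s0),
      (2 ^ n * (K ^ m * (((E + J.card : ℕ) : ℝ) / n) ^ (k * J.card))) =
      ∑ s ∈ Finset.range (m + 1), (m.choose s : ℝ) *
        (if s0 < s ∧ s ≤ 2 * s0 then 2 ^ n * (K ^ m * (((E + s : ℕ) : ℝ) / n) ^ (k * s)) else 0) := by
    rw [Finset.sum_filter]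
    have h := Finset.sum_powerset_apply_card (x := (Finset.univ : Finset (Fin m)))
      (fun s : ℕ => if s0 < s ∧ s ≤ 2 * s0 then
        (2 : ℝ) ^ n * (K ^ m * (((E + s : ℕ) : ℝ) / n) ^ (k * s)) else 0)
    rw [Finset.powerset_univ, Finset.card_univ, Fintype.card_fin] at h
    rw [h]
    exact Finset.sum_congr rfl (fun s _ => by rw [nsmul_eq_mul])
  have hterm : ∀ s ∈ Finset.range (m + 1), (m.choose s : ℝ) *
        (if s0 < s ∧ s ≤ 2 * s0 then 2 ^ n * (K ^ m * (((E + s : ℕ) : ℝ) / n) ^ (k * s)) else 0) ≤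
        (if s ∈ Finset.Ioc s0 (2 * s0) then K ^ m * Real.exp (-(2 * (n : ℝ))) else 0) := by
    intro s _
    by_cases hs : s0 < s ∧ s ≤ 2 * s0
    · rw [if_pos hs, if_pos (Finset.mem_Ioc.mpr hs)]
      have ht := Ra_term (n := n) (k := k) (m := m) (s := s) hr hn hm hs.1 hs.2
      calc (m.choose s : ℝ) * (2 ^ n * (K ^ m * (((E + s : ℕ) : ℝ) / n) ^ (k * s)))
          = K ^ m * ((m.choose s : ℝ) * (2 ^ n * (((E + s : ℕ) : ℝ) / n) ^ (k * s))) := by ring
        _ ≤ K ^ m * Real.exp (-(2 * (n : ℝ))) := mul_le_mul_of_nonneg_left ht (pow_nonneg hK0 m)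
    · rw [if_neg hs, if_neg (fun h => hs (Finset.mem_Ioc.mp h)), mul_zero]
  have hsum : ∑ s ∈ Finset.range (m + 1), (if s ∈ Finset.Ioc s0 (2 * s0) then K ^ m * Real.exp (-(2 * (n : ℝ))) else 0) ≤
      (n : ℝ) * (K ^ m * Real.exp (-(2 * (n : ℝ)))) := by
    rw [← Finset.sum_filter, Finset.sum_const, nsmul_eq_mul]
    apply mul_le_mul_of_nonneg_right _ (mul_nonneg (pow_nonneg hK0 m) (Real.exp_pos _).le)
    have h1 : ((Finset.range (m + 1)).filter (fun s => s ∈ Finset.Ioc s0 (2 * s0))).card ≤ n := by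
      calc ((Finset.range (m + 1)).filter (fun s => s ∈ Finset.Ioc s0 (2 * s0))).card
          ≤ (Finset.Ioc s0 (2 * s0)).card :=
            Finset.card_le_card (fun x hx => (Finset.mem_filter.mp hx).2)
        _ = 2 * s0 - s0 := Nat.card_Ioc _ _
        _ ≤ n := by omega
    exact_mod_cast h1
  have hfin : (bad.card : ℝ) ≤ (n : ℝ) * (K ^ m * Real.exp (-(2 * (n : ℝ)))) := by
    calc (bad.card : ℝ) ≤ _ := hcard
      _ = _ := hgrp
      _ ≤ _ := Finset.sum_le_sum hterm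
      _ ≤ _ := hsum
  have hexp : 4 * (n : ℝ) * n * Real.exp (-(2 * (n : ℝ))) ≤ 1 := by
    have h1 : 2 * (n : ℝ) ≤ Real.exp n := by
      have h2 := Real.quadratic_le_exp_of_nonneg (x := (n : ℝ)) hnpos.le
      have h3 : (2 : ℝ) ≤ n := by exact_mod_cast hn2
      nlinarith
    have h4 : Real.exp (2 * (n : ℝ)) = Real.exp n * Real.exp n := by
      rw [← Real.exp_add]
      congr 1
      ring
    have h5 : 4 * (n : ℝ) * n ≤ Real.exp (2 * (n : ℝ)) := by
      rw [h4]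
      nlinarith
    rw [Real.exp_neg, ← div_eq_mul_inv, div_le_one (Real.exp_pos _)]
    exact h5
  have hgoal : 4 * (n : ℝ) * (bad.card : ℝ) ≤ K ^ m := by
    calc 4 * (n : ℝ) * (bad.card : ℝ) ≤ 4 * (n : ℝ) * ((n : ℝ) * (K ^ m * Real.exp (-(2 * (n : ℝ))))) :=
          mul_le_mul_of_nonneg_left hfin (by positivity)
      _ = K ^ m * (4 * (n : ℝ) * n * Real.exp (-(2 * (n : ℝ)))) := by ring
      _ ≤ K ^ m * 1 := mul_le_mul_of_nonneg_left hexp (pow_nonneg hK0 m)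
      _ = K ^ m := mul_one _
  have : ((4 * n * bad.card : ℕ) : ℝ) ≤ ((Fintype.card (KClause n k) ^ m : ℕ) : ℝ) := by
    push_cast
    exact hgoal
  exact_mod_cast this

end H33D3
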