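import Pool.Agent.H33.D3.Sc

/-!
ROW Rb (small sets of clauses have more variables than clauses; about 180 lines).  PROOF.  If J is nonempty, s = |J| ≤ n/r, |vs J| ≤ s, then vs J ⊆ W with |W| = s (s ≤ n).  By sub_count # ≤ ∑_{1 ≤ s ≤ n/r} C(m,s) C(n,s) K^m (s/n)^(k s).
C(m,s) ≤ (exp 1 * n 2^k/s)^s, C(n,s) ≤ (exp 1 * n/s)^s (s^s ≤ exp(s) s!), so the s-term is ≤ K^m (exp 2 * 2^k (s/n)^(k-2))^s, and (s/n)^(k-2) = (s/n) (s/n)^(k-3) ≤ (s/n) r^(-(k-3)), exp 2 * 2^k r^(-(k-3)) = 8 exp 2 * (2/r)^(k-3) ≤ 1/16.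
So the s-term is ≤ K^m (s/(16 n))^s ≤ K^m (s/(16 n)) 16^(-(s-1)) (s ≤ n), ∑_{s ≥ 1} s 16^(-s) = 16/225; total ≤ K^m * (16/225)/n ≤ K^m/(4 n).
-/

set_option autoImplicit false
open scoped Classical

namespace H33D3

open DepthTwo

namespace RbAux

/-- `C(N,s) ≤ (e N / s)^s`. -/
theorem choose_le (N s : ℕ) (hs : 1 ≤ s) : ((N.choose s : ℕ) : ℝ) ≤ (Real.exp 1 * N / s) ^ s := by
  have h1 : ((N.choose s : ℕ) : ℝ) ≤ (N : ℝ) ^ s / (s.factorial : ℝ) := Nat.choose_le_pow_div s N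
  have h2 : (s : ℝ) ^ s / (s.factorial : ℝ) ≤ Real.exp s := Real.pow_div_factorial_le_exp (s : ℝ) (Nat.cast_nonneg _) s
  have hs0 : (0 : ℝ) < s := by exact_mod_cast hs
  have hf : (0 : ℝ) < (s.factorial : ℝ) := by exact_mod_cast Nat.factorial_pos s
  have h3 : (Real.exp 1 * N / s) ^ s = Real.exp s * ((N : ℝ) ^ s / (s : ℝ) ^ s) := by
    rw [mul_div_assoc, mul_pow, div_pow, ← Real.exp_nat_mul, mul_one]
  rw [h3]
  refine h1.trans ?_
  have h4 : (N : ℝ) ^ s / (s.factorial : ℝ) = ((s : ℝ) ^ s / (s.factorial : ℝ)) * ((N : ℝ) ^ s / (s : ℝ) ^ s) := by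
    field_simp
  rw [h4]
  exact mul_le_mul_of_nonneg_right h2 (by positivity)

theorem exp_two_le : Real.exp 2 ≤ 8 := by
  have h := Real.exp_one_lt_d9
  have h1 : Real.exp 2 = Real.exp 1 * Real.exp 1 := by
    rw [← Real.exp_add]; norm_num
  rw [h1]
  have h0 := Real.exp_pos 1
  nlinarith

/-- the term of the sum -/
theorem term_le {n k m s : ℕ} (hr : 100 ≤ Nat.sqrt k) (hn : 2 ^ k ≤ n) (hm : m ≤ n * 2 ^ k) (hs : 1 ≤ s)
    (hsr : s ≤ n / Nat.sqrt k) :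
    ((m.choose s : ℕ) : ℝ) * (n.choose s : ℕ) * ((s : ℝ) / n) ^ (k * s) ≤ (1 / 8) ^ s / n := by
  have hs0 : (0 : ℝ) < s := by exact_mod_cast hs
  have hn1 : 1 ≤ n := le_trans Nat.one_le_two_pow hn
  have hn0 : (0 : ℝ) < n := by exact_mod_cast hn1
  have hr0 : 0 < Nat.sqrt k := by omega
  have hk : 10000 ≤ k := by
    have := Nat.sqrt_le' k
    nlinarith
  have hsn : s * Nat.sqrt k ≤ n := (Nat.le_div_iff_mul_le hr0).1 hsr
  have hrR : (100 : ℝ) ≤ (Nat.sqrt k : ℝ) := by exact_mod_cast hr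
  have hx : (s : ℝ) / n ≤ 1 / 100 := by
    rw [div_le_div_iff₀ hn0 (by norm_num)]
    have : (s : ℝ) * (Nat.sqrt k : ℝ) ≤ n := by exact_mod_cast hsn
    nlinarith
  have hx0 : (0 : ℝ) ≤ (s : ℝ) / n := by positivity
  set x : ℝ := (s : ℝ) / n with hxdef
  have hxpos : 0 < x := by positivity
  have h1 := choose_le m s hs
  have h2 := choose_le n s hs
  have h1' : ((m.choose s : ℕ) : ℝ) ≤ (Real.exp 1 * (n * 2 ^ k) / s) ^ s := by
    refine h1.trans (pow_le_pow_left₀ (by positivity) ?_ s)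
    have : (m : ℝ) ≤ n * 2 ^ k := by exact_mod_cast hm
    gcongr
  have h3 : ((m.choose s : ℕ) : ℝ) * (n.choose s : ℕ) * x ^ (k * s) ≤
      (Real.exp 1 * (n * 2 ^ k) / s) ^ s * (Real.exp 1 * n / s) ^ s * x ^ (k * s) := by
    gcongr
  refine h3.trans ?_
  have h4 : (Real.exp 1 * (n * 2 ^ k) / s) ^ s * (Real.exp 1 * n / s) ^ s * x ^ (k * s) =
      (Real.exp 2 * 2 ^ k * x ^ (k - 2)) ^ s := by
    have e2 : Real.exp 2 = Real.exp 1 * Real.exp 1 := by
      rw [← Real.exp_add]; norm_num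
    rw [pow_mul, ← mul_pow, ← mul_pow]
    congr 1
    have hk2 : x ^ k = x ^ (k - 2) * (x * x) := by
      rw [← pow_two, ← pow_add]; congr 1; omega
    rw [hk2, e2, hxdef]
    field_simp
  rw [h4]
  -- base ≤ x / 16
  have h5 : Real.exp 2 * 2 ^ k * x ^ (k - 2) ≤ x / 16 := by
    have hk3 : x ^ (k - 2) = x * x ^ (k - 3) := by
      rw [← pow_succ']; congr 1; omega
    have h2k : (2 : ℝ) ^ k = 8 * 2 ^ (k - 3) := by
      rw [show (8 : ℝ) = 2 ^ 3 by norm_num, ← pow_add]; congr 1; omega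
    rw [hk3, h2k]
    have h6 : (2 : ℝ) ^ (k - 3) * x ^ (k - 3) ≤ (1 / 50) ^ 3 := by
      rw [← mul_pow]
      have hb : 2 * x ≤ 1 / 50 := by linarith
      have hb0 : 0 ≤ 2 * x := by positivity
      calc (2 * x) ^ (k - 3) ≤ (1 / 50) ^ (k - 3) := pow_le_pow_left₀ hb0 hb _
        _ ≤ (1 / 50) ^ 3 := pow_le_pow_of_le_one (by norm_num) (by norm_num) (by omega)
    have he := exp_two_le
    have he0 := Real.exp_pos 2
    have h7 : Real.exp 2 * (8 * 2 ^ (k - 3)) * (x * x ^ (k - 3)) =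
        8 * Real.exp 2 * (2 ^ (k - 3) * x ^ (k - 3)) * x := by ring
    rw [h7]
    have h8 : 8 * Real.exp 2 * (2 ^ (k - 3) * x ^ (k - 3)) ≤ 1 / 16 := by
      calc 8 * Real.exp 2 * (2 ^ (k - 3) * x ^ (k - 3)) ≤ 8 * 8 * (1 / 50) ^ 3 := by
            gcongr
        _ ≤ 1 / 16 := by norm_num
    calc 8 * Real.exp 2 * (2 ^ (k - 3) * x ^ (k - 3)) * x ≤ 1 / 16 * x := by gcongr
      _ = x / 16 := by ring
  have h5' : 0 ≤ Real.exp 2 * 2 ^ k * x ^ (k - 2) := by positivity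
  have h9 : (Real.exp 2 * 2 ^ k * x ^ (k - 2)) ^ s ≤ (x / 16) ^ s := pow_le_pow_left₀ h5' h5 s
  refine h9.trans ?_
  -- (x/16)^s ≤ (x/16) * (1/16)^(s-1) = x / 16^s ; x = s/n ; s ≤ 2^s
  obtain ⟨t, rfl⟩ : ∃ t, s = t + 1 := ⟨s - 1, by omega⟩
  have h10 : (x / 16) ^ (t + 1) ≤ x * (1 / 16) ^ (t + 1) := by
    rw [pow_succ, pow_succ]
    have : (x / 16) ^ t ≤ (1 / 16) ^ t := pow_le_pow_left₀ (by positivity) (by linarith) t
    calc (x / 16) ^ t * (x / 16) ≤ (1 / 16) ^ t * (x / 16) := by gcongr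
      _ = x * ((1 / 16) ^ t * (1 / 16)) := by ring
  refine h10.trans ?_
  have h11 : (((t + 1 : ℕ) : ℝ)) ≤ 2 ^ (t + 1) := by exact_mod_cast (Nat.lt_two_pow_self).le
  rw [hxdef, div_mul_eq_mul_div]
  refine div_le_div_of_nonneg_right ?_ hn0.le
  calc ((t + 1 : ℕ) : ℝ) * (1 / 16) ^ (t + 1) ≤ 2 ^ (t + 1) * (1 / 16) ^ (t + 1) := by gcongr
    _ = (1 / 8) ^ (t + 1) := by rw [← mul_pow]; norm_num

/-- geometric sum -/
theorem geo (N : ℕ) : ∑ s ∈ Finset.Icc 1 N, (1 / 8 : ℝ) ^ s ≤ 1 / 7 := by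
  have h : ∀ N : ℕ, ∑ s ∈ Finset.Icc 1 N, (1 / 8 : ℝ) ^ s = 1 / 7 - (1 / 7) * (1 / 8) ^ N := by
    intro N
    induction N with
    | zero => simp
    | succ N ih =>
      rw [Finset.sum_Icc_succ_top (by omega), ih, pow_succ]
      ring
  rw [h]
  have : (0 : ℝ) ≤ (1 / 7) * (1 / 8) ^ N := by positivity
  linarith

end RbAux

theorem h2_count {n k m : ℕ} (hr : 100 ≤ Nat.sqrt k) (hn : 2 ^ k ≤ n) (hm : m ≤ n * 2 ^ k) :
    4 * n * (Finset.univ.filter (fun Φ : Fin m → KClause n k =>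
      ¬ ∀ J : Finset (Fin m), J.Nonempty → J.card ≤ n / Nat.sqrt k → J.card < (vs (SSk Φ) J).card)).card ≤
      Fintype.card (KClause n k) ^ m := by
  have hn1 : 1 ≤ n := le_trans Nat.one_le_two_pow hn
  have hn0 : (0 : ℝ) < n := by exact_mod_cast hn1
  set K : ℝ := (Fintype.card (KClause n k) : ℝ) with hK
  have hK0 : 0 ≤ K := Nat.cast_nonneg _
  set bad := Finset.univ.filter (fun Φ : Fin m → KClause n k =>
      ¬ ∀ J : Finset (Fin m), J.Nonempty → J.card ≤ n / Nat.sqrt k → J.card < (vs (SSk Φ) J).card) with hbad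
  have hsub : bad ⊆ (Finset.Icc 1 (n / Nat.sqrt k)).biUnion (fun s =>
      ((Finset.univ : Finset (Fin m)).powersetCard s).biUnion (fun J =>
        ((Finset.univ : Finset (Fin n)).powersetCard s).biUnion (fun W =>
          Finset.univ.filter (fun Φ : Fin m → KClause n k => vs (SSk Φ) J ⊆ W)))) := by
    intro Φ hΦ
    rw [hbad, Finset.mem_filter] at hΦ
    have h := hΦ.2
    push Not at h
    obtain ⟨J, hJ, hJc, hJv⟩ := h
    have hcn : J.card ≤ n := hJc.trans (Nat.div_le_self _ _)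
    obtain ⟨W, hW1, hW2⟩ := Finset.exists_superset_card_eq (s := vs (SSk Φ) J) (n := J.card) hJv
      (by rw [Fintype.card_fin]; exact hcn)
    simp only [Finset.mem_biUnion, Finset.mem_Icc, Finset.mem_powersetCard, Finset.mem_filter]
    exact ⟨J.card, ⟨Finset.card_pos.2 hJ, hJc⟩, J, ⟨Finset.subset_univ _, rfl⟩, W, ⟨Finset.subset_univ _, hW2⟩,
      Finset.mem_univ _, hW1⟩
  have hcard : (bad.card : ℝ) ≤ ∑ s ∈ Finset.Icc 1 (n / Nat.sqrt k),
      ((m.choose s : ℕ) : ℝ) * (n.choose s : ℕ) * (K ^ m * ((s : ℝ) / n) ^ (k * s)) := by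
    have h1 : bad.card ≤ ∑ s ∈ Finset.Icc 1 (n / Nat.sqrt k), ∑ J ∈ (Finset.univ : Finset (Fin m)).powersetCard s,
        ∑ W ∈ (Finset.univ : Finset (Fin n)).powersetCard s,
          (Finset.univ.filter (fun Φ : Fin m → KClause n k => vs (SSk Φ) J ⊆ W)).card := by
      refine (Finset.card_le_card hsub).trans ?_
      refine Finset.card_biUnion_le.trans (Finset.sum_le_sum fun s _ => ?_)
      refine Finset.card_biUnion_le.trans (Finset.sum_le_sum fun J _ => ?_)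
      exact Finset.card_biUnion_le
    have h2 : (bad.card : ℝ) ≤ ∑ s ∈ Finset.Icc 1 (n / Nat.sqrt k), ∑ J ∈ (Finset.univ : Finset (Fin m)).powersetCard s,
        ∑ W ∈ (Finset.univ : Finset (Fin n)).powersetCard s,
          ((Finset.univ.filter (fun Φ : Fin m → KClause n k => vs (SSk Φ) J ⊆ W)).card : ℝ) := by
      exact_mod_cast h1
    refine h2.trans (Finset.sum_le_sum fun s _ => ?_)
    have h3 : ∀ J ∈ (Finset.univ : Finset (Fin m)).powersetCard s,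
        ∑ W ∈ (Finset.univ : Finset (Fin n)).powersetCard s,
          ((Finset.univ.filter (fun Φ : Fin m → KClause n k => vs (SSk Φ) J ⊆ W)).card : ℝ) ≤
        (n.choose s : ℕ) * (K ^ m * ((s : ℝ) / n) ^ (k * s)) := by
      intro J hJ
      have hJc := (Finset.mem_powersetCard.1 hJ).2
      have h4 : ∀ W ∈ (Finset.univ : Finset (Fin n)).powersetCard s,
          ((Finset.univ.filter (fun Φ : Fin m → KClause n k => vs (SSk Φ) J ⊆ W)).card : ℝ) ≤
            K ^ m * ((s : ℝ) / n) ^ (k * s) := by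
        intro W hW
        have hWc := (Finset.mem_powersetCard.1 hW).2
        have h5 := sub_count (k := k) hn1 J W
        rw [hWc, hJc] at h5
        exact h5
      refine (Finset.sum_le_sum h4).trans ?_
      rw [Finset.sum_const, Finset.card_powersetCard, Finset.card_univ, Fintype.card_fin, nsmul_eq_mul]
    refine (Finset.sum_le_sum h3).trans ?_
    rw [Finset.sum_const, Finset.card_powersetCard, Finset.card_univ, Fintype.card_fin, nsmul_eq_mul]
    exact le_of_eq (by ring)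
  have hcard2 : (bad.card : ℝ) ≤ K ^ m * ((1 / 7) / n) := by
    refine hcard.trans ?_
    have h6 : ∀ s ∈ Finset.Icc 1 (n / Nat.sqrt k),
        ((m.choose s : ℕ) : ℝ) * (n.choose s : ℕ) * (K ^ m * ((s : ℝ) / n) ^ (k * s)) ≤
          K ^ m * ((1 / 8) ^ s / n) := by
      intro s hs
      rw [Finset.mem_Icc] at hs
      have h7 := RbAux.term_le hr hn hm hs.1 hs.2
      calc ((m.choose s : ℕ) : ℝ) * (n.choose s : ℕ) * (K ^ m * ((s : ℝ) / n) ^ (k * s))
          = K ^ m * (((m.choose s : ℕ) : ℝ) * (n.choose s : ℕ) * ((s : ℝ) / n) ^ (k * s)) := by ring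
        _ ≤ K ^ m * ((1 / 8) ^ s / n) := mul_le_mul_of_nonneg_left h7 (by positivity)
    refine (Finset.sum_le_sum h6).trans ?_
    rw [← Finset.mul_sum, ← Finset.sum_div]
    have := RbAux.geo (n / Nat.sqrt k)
    gcongr
  have hfin : ((4 * n * bad.card : ℕ) : ℝ) ≤ ((Fintype.card (KClause n k) ^ m : ℕ) : ℝ) := by
    push_cast
    have h8 : 4 * (n : ℝ) * (bad.card : ℝ) ≤ 4 * n * (K ^ m * ((1 / 7) / n)) := by gcongr
    refine h8.trans ?_
    have h9 : 4 * (n : ℝ) * (K ^ m * ((1 / 7) / n)) = (4 / 7) * K ^ m := by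
      field_simp
    rw [h9]
    have : 0 ≤ K ^ m := by positivity
    linarith
  exact_mod_cast hfin

end H33D3
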