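import Pool.Agent.H91.D2.Defs

/-!
The proof system of the statement (helper33, definitions of helper91): lines are disjunctions of conditions of degree at most
`e` in gates and variables; the gates are disjunctions of conditions of degree at most `e` in the variables; the clauses of
the CNF may be written down as lines.
-/

set_option autoImplicit false
open scoped Classical

namespace OrGates

open SizeDegree

/-- The assignment of the `n` variables in an assignment `z` of `M` gates and `n` variables. -/
def vars {M n : ℕ} (z : Pt (M + n)) : Pt n := fun i => z (Fin.natAdd M i)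

/-- The gate `j` as a function of the gates and the variables. -/
def gate {p M : ℕ} (n : ℕ) (j : Fin M) : Pt (M + n) → ZMod p := fun z => if z (Fin.castAdd n j) then 1 else 0

/-- The literal `q` as a function of the gates and the variables. -/
def lit {p n : ℕ} (M : ℕ) (q : Fin n × Bool) : Pt (M + n) → ZMod p := fun z => if vars z q.1 = q.2 then 1 else 0

/-- An initial line for the clause `C`: the line contains all literals of the clause. -/
def Initial {p M n : ℕ} (C : Clause n) (L : Set (Pt (M + n) → ZMod p)) : Prop := ∀ q ∈ C, lit M q ∈ L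

/-- The axioms which say that the gate `j` is the disjunction of the conditions in `G j`: the line contains the negation of `g` and
the gate `j` for some `g` in `G j`, or it contains the negation of the gate `j` and all conditions in `G j`. -/
def GateAxiom {p M n : ℕ} (G : Fin M → Set (Pt n → ZMod p)) (L : Set (Pt (M + n) → ZMod p)) : Prop :=
  ∃ j, (∃ g ∈ G j, (fun z => 1 - g (vars z)) ∈ L ∧ gate n j ∈ L) ∨
    ((fun z => 1 - gate n j z) ∈ L ∧ ∀ g ∈ G j, (fun z => g (vars z)) ∈ L)

/-- Local inference of the line `L` from the lines `l j`, `j ∈ J`: there are at most `s` main conditions `A j` for every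
premise and `B` for the conclusion such that the conditions of the premise `l j` are linear combinations of conditions of
`L` (side conditions) and of `A j`, the conditions in `B` are linear combinations of conditions of `L`, and the inference
from the main conditions is sound for all values of the gates and the variables. -/
def Infers {p M n : ℕ} (e s : ℕ) (l : ℕ → Set (Pt (M + n) → ZMod p)) (J : Finset ℕ) (L : Set (Pt (M + n) → ZMod p)) :
    Prop :=
  ∃ (A : ℕ → Finset (Pt (M + n) → ZMod p)) (B : Finset (Pt (M + n) → ZMod p)),
    (∀ j ∈ J, (A j).card ≤ s ∧ (∀ g ∈ A j, Cond e g) ∧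
      l j ⊆ Submodule.span (ZMod p) (L ∪ (A j : Set (Pt (M + n) → ZMod p)))) ∧
    B.card ≤ s ∧ (∀ g ∈ B, Cond e g ∧ g ∈ Submodule.span (ZMod p) L) ∧
    ∀ z, (∀ j ∈ J, ∃ g ∈ A j, g z = 1) → ∃ g ∈ B, g z = 1

/-- The CNF `Φ` has a refutation of size `N`: there are at most `N` gates, each of them the disjunction of a set `G j` of
conditions of degree at most `e` in the variables, and `N` lines, each of them the disjunction of a set of conditions of
degree at most `e` in the gates and the variables; every line is an initial line, a gate axiom or inferred from at most `f`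
earlier lines with at most `s` main conditions per line; the last line is the empty disjunction. -/
def Refutes {n m : ℕ} (p e f s : ℕ) (Φ : Fin m → Clause n) (N : ℕ) : Prop :=
  ∃ (M : ℕ) (G : Fin M → Set (Pt n → ZMod p)) (l : ℕ → Set (Pt (M + n) → ZMod p)), M ≤ N ∧ 1 ≤ N ∧
    (∀ j, ∀ g ∈ G j, Cond e g) ∧ (∀ i < N, ∀ g ∈ l i, Cond e g) ∧ l (N - 1) = ∅ ∧
    ∀ i < N, (∃ j, Initial (Φ j) (l i)) ∨ GateAxiom G (l i) ∨
      ∃ J : Finset ℕ, J.card ≤ f ∧ (∀ j ∈ J, j < i) ∧ Infers e s l J (l i)

end OrGates

namespace H33D3

open SizeDegree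

/-- With more main conditions the initial lines are inferences. -/
theorem old_of_new {n m p e f s k N : ℕ} {Φ : Fin m → Clause n} (hk : ∀ j, (Φ j).card ≤ k)
    (h : OrGates.Refutes p e f s Φ N) : GateLines.Refutes p e (max f 1) (max s k) Φ N := by
  obtain ⟨M, G, l, hM, hN, hG, hl, hlast, hstep⟩ := h
  refine ⟨M, G, l, hM, hN, hG, hl, hlast, fun i hi => ?_⟩
  rcases hstep i hi with ⟨j, hj⟩ | hg | ⟨J, hJ, hJi, A, B, hA, hB, hBC, hs⟩
  · right
    refine ⟨∅, {j}, Nat.zero_le _, by rw [Finset.card_singleton]; exact le_max_right _ _, ?_, ?_⟩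
    · intro j' hj'
      exact absurd hj' (Finset.notMem_empty j')
    · refine ⟨fun _ => ∅, (Φ j).image (fun q => OrGates.lit M q), ?_, ?_, ?_, ?_⟩
      · intro j' hj'
        exact absurd hj' (Finset.notMem_empty j')
      · exact Finset.card_image_le.trans ((hk j).trans (le_max_right _ _))
      · intro g hg
        obtain ⟨q, hq, rfl⟩ := Finset.mem_image.mp hg
        exact ⟨hl i hi _ (hj q hq), Submodule.subset_span (hj q hq)⟩
      · intro z hz _
        obtain ⟨q, hq, hqz⟩ := hz j (Finset.mem_singleton_self j)
        refine ⟨OrGates.lit M q, Finset.mem_image_of_mem _ hq, ?_⟩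
        unfold OrGates.lit
        exact if_pos hqz
  · left
    obtain ⟨j, hj⟩ := hg
    refine ⟨j, ?_⟩
    rcases hj with ⟨g, hg1, hg2, hg3⟩ | ⟨hj1, hj2⟩
    · left
      exact ⟨g, hg1, hg2, hg3⟩
    · right
      exact ⟨hj1, hj2⟩
  · right
    refine ⟨J, ∅, hJ.trans (le_max_left _ _), Nat.zero_le _, hJi, A, B, ?_, hB.trans (le_max_left _ _), hBC, ?_⟩
    · intro j hj
      exact ⟨(hA j hj).1.trans (le_max_left _ _), (hA j hj).2⟩
    · intro z _ hz
      exact hs z hz

end H33D3
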