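import Pool.Agent.H33.D3.Bri2
import Pool.Agent.H33.D3.Ra
import Pool.Agent.H33.D3.Rb
import Pool.Agent.H33.D3.Sys
import Pool.Agent.H34.D3.Gen
import Pool.Agent.H62.RC.Unsat

/-!
Random `k`-CNFs: no derivation of 1 in degree `n / 2 - 4 (n / sqrt k)`; from the general theorem (A) to random `k`-CNFs
(helper33).
-/

set_option autoImplicit false
open scoped Classical

namespace H33D3

open SizeDegree H85SD

theorem sup_empty {n M E s : ℕ} {S : Fin M → Finset (Fin n)} (hX : HX S E s)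
    (hX2 : ∀ J : Finset (Fin M), J.Nonempty → J.card ≤ s → J.card < (vs S J).card) : Sup S s ∅ = ∅ := by
  rw [Finset.eq_empty_iff_forall_notMem]
  intro j hj
  obtain ⟨J, hJ, hjJ⟩ := (Finset.mem_filter.mp hj).2
  have h1 := mnz_card hX (T := ∅) (by simp) hJ
  have h2 := hX2 J ⟨j, hjJ⟩ h1
  have h3 := hJ.2 ∅ (by simp)
  rw [ph_empty] at h3
  unfold ph at h3
  rw [Finset.sdiff_empty] at h3
  omega

theorem one_not {k n m E s : ℕ} (p : ℕ) [Fact p.Prime] (Φ : Fin m → DepthTwo.KClause n k) (hn : 1 ≤ n) (hs : 1 ≤ s)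
    (hk1 : 1 ≤ k) (hkE : k ≤ E) (hX : HX (SSk Φ) E s)
    (hX2 : ∀ J : Finset (Fin m), J.Nonempty → J.card ≤ s → J.card < (vs (SSk Φ) J).card) :
    ¬ Derives (p := p) (fun j => KClause.toClause (Φ j)) E 1 := by
  intro hd
  have h := bri2 (p := p) (q := 1) Φ hn hs hk1 hkE hX zero_le_one (le_refl 0) (Nat.zero_le E)
  have h1 : (1 : ℝ) ≤ ((Finset.univ.filter (fun T : Finset (Fin n) => T.card ≤ 0 ∧ Sup (SSk Φ) s T = ∅)).card : ℝ) := by
    have : 0 < (Finset.univ.filter (fun T : Finset (Fin n) => T.card ≤ 0 ∧ Sup (SSk Φ) s T = ∅)).card := by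
      rw [Finset.card_pos]
      exact ⟨∅, Finset.mem_filter.mpr ⟨Finset.mem_univ _, by simp, sup_empty hX hX2⟩⟩
    exact_mod_cast this
  unfold U0 at h
  rw [pow_zero, one_mul, zero_add, Finset.sum_range_one, pow_zero, one_mul] at h
  have h2 : (TT p (fun j => KClause.toClause (Φ j)) E).P 0 ≤ (TT p (fun j => KClause.toClause (Φ j)) E).K := by
    intro g hg
    obtain ⟨a, ha⟩ := (hg : DegLE 0 g)
    have h3 : g = a ∅ • (1 : Pt n → ZMod p) := by
      funext x
      rw [ha x]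
      have h4 : (Finset.univ.filter (fun T : Finset (Fin n) => T.card ≤ 0)) = {∅} := by
        ext T
        rw [Finset.mem_filter, Finset.mem_singleton]
        constructor
        · intro h5
          exact Finset.card_eq_zero.mp (Nat.le_zero.mp h5.2)
        · intro h5
          exact ⟨Finset.mem_univ _, by rw [h5, Finset.card_empty]⟩
      rw [h4, Finset.sum_singleton, Finset.prod_empty, Pi.smul_apply, Pi.one_apply, smul_eq_mul]
    rw [h3]
    exact Submodule.smul_mem _ _ hd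
  have h3 : hD (TT p (fun j => KClause.toClause (Φ j)) E) 0 = 0 := by
    unfold hD
    rw [inf_eq_left.mpr h2]
    ring
  rw [h3] at h
  linarith

theorem derives_mono {p n m d d' : ℕ} {Φ : Fin m → Clause n} (h : d ≤ d') {g : Pt n → ZMod p} (hg : Derives Φ d g) :
    Derives Φ d' g := by
  induction hg with
  | zero => exact Derives.zero
  | clause j => exact Derives.clause j
  | add _ _ h1 h2 => exact Derives.add h1 h2
  | smul a _ h1 => exact Derives.smul a h1
  | mul i _ h2 h3 h4 => exact Derives.mul i h4 h2 (by omega)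

theorem pow_le {k : ℕ} (hk : 23 ≤ k) : k ^ 5 ≤ 2 ^ k := by
  induction k, hk using Nat.le_induction with
  | base => norm_num
  | succ k hk ih =>
    have h1 : 23 * k ^ 4 ≤ k ^ 5 := by
      calc 23 * k ^ 4 ≤ k * k ^ 4 := Nat.mul_le_mul_right _ hk
        _ = k ^ 5 := by ring
    have h2 : k ^ 3 ≤ k ^ 4 := Nat.pow_le_pow_right (by omega) (by norm_num)
    have h3 : k ^ 2 ≤ k ^ 4 := Nat.pow_le_pow_right (by omega) (by norm_num)
    have h4 : k ≤ k ^ 4 := Nat.le_self_pow (by norm_num) k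
    have h5 : 1 ≤ k ^ 4 := Nat.one_le_pow _ _ (by omega)
    have h6 : 10 * k ^ 3 ≤ k ^ 4 := by
      calc 10 * k ^ 3 ≤ k * k ^ 3 := Nat.mul_le_mul_right _ (by omega)
        _ = k ^ 4 := by ring
    have h7 : 10 * k ^ 2 ≤ k ^ 4 := by
      calc 10 * k ^ 2 ≤ k ^ 2 * k ^ 2 := Nat.mul_le_mul_right _ (by nlinarith)
        _ = k ^ 4 := by ring
    have h8 : 5 * k ≤ k ^ 4 := by
      calc 5 * k ≤ k ^ 3 * k := Nat.mul_le_mul_right _ (by
            calc 5 ≤ k := by omega
              _ ≤ k ^ 3 := Nat.le_self_pow (by norm_num) k)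
        _ = k ^ 4 := by ring
    calc (k + 1) ^ 5 = k ^ 5 + 5 * k ^ 4 + 10 * k ^ 3 + 10 * k ^ 2 + 5 * k + 1 := by ring
      _ ≤ 2 * k ^ 5 := by omega
      _ ≤ 2 * 2 ^ k := Nat.mul_le_mul_left 2 ih
      _ = 2 ^ (k + 1) := by ring

/-- Lower bound for every CNF for which 1 has no derivation of degree close to `n / 2`. -/
theorem general (p e : ℕ) [Fact p.Prime] (he : 1 ≤ e) : ∃ C : ℕ, 1 ≤ C ∧
    ∀ (n m k r f s N : ℕ) (Φ : Fin m → Clause n), (∀ j, (Φ j).card ≤ k) → C ≤ r → r ^ 10 ≤ n → k ^ 4 ≤ n →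
      f ^ 4 ≤ n → s ^ 4 ≤ n → ¬ Derives (p := p) Φ (n / 2 - n / r) 1 → OrGates.Refutes p e f s Φ N → n ^ r ≤ N ^ C := by
  obtain ⟨C, hC, hA⟩ := H34D3.general p e he
  refine ⟨C, hC, ?_⟩
  intro n m k r f s N Φ hk hCr hr hkn hf hs hd hR
  have hn1 : 1 ≤ n := le_trans (Nat.one_le_pow _ _ (by omega)) hr
  refine hA n m k r (max f 1) (max s k) N Φ hk hCr hr hkn ?_ ?_ hd (old_of_new hk hR)
  · rcases le_total f 1 with h | h
    · rw [max_eq_right h]
      simpa using hn1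
    · rwa [max_eq_left h]
  · rcases le_total s k with h | h
    · rwa [max_eq_right h]
    · rwa [max_eq_left h]

/-- Random `k`-CNFs. -/
theorem random (p e : ℕ) [Fact p.Prime] (he : 1 ≤ e) : ∃ C : ℕ, 1 ≤ C ∧ ∀ k n m f s : ℕ, C ≤ k → 2 ^ k ≤ n →
    m ≤ n * 2 ^ k → f ^ 4 ≤ n → s ^ 4 ≤ n →
      n * (Finset.univ.filter (fun Φ : Fin m → KClause n k => ∃ N,
        OrGates.Refutes p e f s (fun j => (Φ j).toClause) N ∧ N ^ C < n ^ Nat.sqrt k)).card ≤
        Fintype.card (KClause n k) ^ m := by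
  obtain ⟨C, hC, hA⟩ := general p e he
  refine ⟨16 * (C + 25) ^ 2, by nlinarith, ?_⟩
  intro k n m f s hk hn hm hf hs
  have hn1 : 1 ≤ n := le_trans Nat.one_le_two_pow hn
  obtain ⟨R, hR⟩ : ∃ R, R = Nat.sqrt k := ⟨_, rfl⟩
  have hR1 : 4 * (C + 25) ≤ R := by
    rw [hR]
    refine Nat.le_sqrt.mpr ?_
    calc 4 * (C + 25) * (4 * (C + 25)) = 16 * (C + 25) ^ 2 := by ring
      _ ≤ k := hk
  have hRk : R * R ≤ k := by
    rw [hR]
    exact Nat.sqrt_le k
  have hk23 : 10000 ≤ k := by nlinarith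
  have hk5 : k ^ 5 ≤ n := (pow_le (by omega)).trans hn
  have hk4 : k ^ 4 ≤ n := le_trans (Nat.pow_le_pow_right (by omega) (by norm_num)) hk5
  have hkn : 8 * k ≤ n := by
    calc 8 * k ≤ k ^ 4 * k := Nat.mul_le_mul_right _ (by
          calc 8 ≤ k := by omega
            _ ≤ k ^ 4 := Nat.le_self_pow (by norm_num) k)
      _ = k ^ 5 := by ring
      _ ≤ n := hk5
  obtain ⟨r, hr⟩ : ∃ r, r = R / 4 := ⟨_, rfl⟩
  have hr1 : C ≤ r := by omega
  have hr0 : 0 < r := by omega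
  have hr10 : r ^ 10 ≤ n := by
    calc r ^ 10 ≤ R ^ 10 := Nat.pow_le_pow_left (by omega) 10
      _ = (R * R) ^ 5 := by ring
      _ ≤ k ^ 5 := Nat.pow_le_pow_left hRk 5
      _ ≤ n := hk5
  have hq : 4 * (n / R) ≤ n / r := by
    rw [Nat.le_div_iff_mul_le hr0]
    calc 4 * (n / R) * r = (n / R) * (4 * r) := by ring
      _ ≤ (n / R) * R := Nat.mul_le_mul_left _ (by omega)
      _ ≤ n := Nat.div_mul_le_self n R
  have hs1 : 1 ≤ n / R := by
    rw [Nat.le_div_iff_mul_le (by omega)]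
    nlinarith
  have hR100 : n / R ≤ n / 100 := Nat.div_le_div_left (by omega) (by norm_num)
  have h1 := hx_count (n := n) (k := k) (m := m) (by rw [← hR]; omega) hn hm
  have h2 := h2_count (n := n) (k := k) (m := m) (by rw [← hR]; omega) hn hm
  rw [← hR] at h1 h2
  set A1 := Finset.univ.filter (fun Φ : Fin m → DepthTwo.KClause n k =>
      ¬ HX (SSk Φ) (n / 2 - 4 * (n / R)) (n / R)) with hA1
  set A2 := Finset.univ.filter (fun Φ : Fin m → DepthTwo.KClause n k =>
      ¬ ∀ J : Finset (Fin m), J.Nonempty → J.card ≤ n / R → J.card < (vs (SSk Φ) J).card) with hA2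
  have hsub : (Finset.univ.filter (fun Φ : Fin m → KClause n k => ∃ N,
      OrGates.Refutes p e f s (fun j => (Φ j).toClause) N ∧ N ^ (16 * (C + 25) ^ 2) < n ^ Nat.sqrt k)) ⊆ A1 ∪ A2 := by
    intro Φ hΦ
    obtain ⟨N, hRe, hNn⟩ := (Finset.mem_filter.mp hΦ).2
    by_contra hcon
    rw [Finset.mem_union, not_or] at hcon
    obtain ⟨c1, c2⟩ := hcon
    have hX : HX (SSk Φ) (n / 2 - 4 * (n / R)) (n / R) := by
      by_contra h
      exact c1 (Finset.mem_filter.mpr ⟨Finset.mem_univ _, h⟩)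
    have hX2 : ∀ J : Finset (Fin m), J.Nonempty → J.card ≤ n / R → J.card < (vs (SSk Φ) J).card := by
      by_contra h
      exact c2 (Finset.mem_filter.mpr ⟨Finset.mem_univ _, h⟩)
    have hnot := one_not p Φ hn1 hs1 (by omega) (by omega) hX hX2
    have hnot2 : ¬ Derives (p := p) (fun j => KClause.toClause (Φ j)) (n / 2 - n / r) 1 :=
      fun h => hnot (derives_mono (by omega) h)
    have hN1 : 1 ≤ N := by
      obtain ⟨M, G, l, _, h, _⟩ := hRe
      exact h
    have hkc : ∀ j, (KClause.toClause (Φ j)).card ≤ k := by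
      intro j
      unfold KClause.toClause
      exact Finset.card_image_le.trans (by rw [Finset.card_univ, Fintype.card_fin])
    have hfin := hA n m k r f s N (fun j => KClause.toClause (Φ j)) hkc hr1 hr10 hk4 hf hs hnot2 hRe
    have h3 : n ^ R ≤ N ^ (16 * (C + 25) ^ 2) := by
      calc n ^ R ≤ n ^ (r * 8) := Nat.pow_le_pow_right hn1 (by omega)
        _ = (n ^ r) ^ 8 := pow_mul _ _ _
        _ ≤ (N ^ C) ^ 8 := Nat.pow_le_pow_left hfin 8
        _ = N ^ (C * 8) := (pow_mul _ _ _).symm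
        _ ≤ N ^ (16 * (C + 25) ^ 2) := Nat.pow_le_pow_right hN1 (by nlinarith)
    rw [← hR] at hNn
    omega
  have hcard := (Finset.card_le_card hsub).trans (Finset.card_union_le _ _)
  obtain ⟨K, hK⟩ : ∃ K, K = Fintype.card (KClause n k) := ⟨_, rfl⟩
  have hK' : Fintype.card (DepthTwo.KClause n k) = K := hK.symm
  rw [hK'] at h1 h2
  rw [← hK]
  have h6 := Nat.mul_le_mul_left n hcard
  have h7 : n * (A1.card + A2.card) = n * A1.card + n * A2.card := by ring
  have h8 : 4 * n * A1.card = 4 * (n * A1.card) := by ring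
  have h9 : 4 * n * A2.card = 4 * (n * A2.card) := by ring
  rw [h8] at h1
  rw [h9] at h2
  omega

/-- Nearly all formulas with at least `n 2^k` clauses are unsatisfiable. -/
theorem unsat {k n m : ℕ} (hn : 16 ≤ n) (hm : n * 2 ^ k ≤ m) :
    n * (Finset.univ.filter (fun Φ : Fin m → KClause n k => ∃ x, ∀ j, (Φ j).toClause.Holds x)).card ≤
      Fintype.card (KClause n k) ^ m := by
  have h := H62RC.unsat_count (n := n) (k := k) (m := m) hn hm
  refine le_trans (Nat.mul_le_mul_left n (Finset.card_le_card ?_)) h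
  intro Φ hΦ
  obtain ⟨x, hx⟩ := (Finset.mem_filter.mp hΦ).2
  refine Finset.mem_filter.mpr ⟨Finset.mem_univ _, x, fun j => ?_⟩
  obtain ⟨l, hl, hlx⟩ := hx j
  unfold KClause.toClause at hl
  obtain ⟨i, _, rfl⟩ := Finset.mem_image.mp hl
  exact ⟨((Φ j).1 i, (Φ j).2 i), ⟨i, rfl⟩, hlx⟩

end H33D3
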