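import Pool.Agent.H33.D3.Clo
import Pool.Agent.H33.RP.Prp

/-!
ROW Gct (counting the sets with empty closure; about 100 lines).  PROOF.  Same as Pool/Agent/H33/RP/Cn.lean (good_count, proved): T ↦ (T - vs (Sup T), T ∩ vs (Sup T)) is injective on X = {T : |T| = D, |Sup T| ≤ s1}; the first component has empty closure by `clean` and
at most D elements; the second has at most k s1 elements (|vs J| ≤ ∑ |S j| ≤ k |J|).  2 |X| ≥ C(n,D) by hbad.
-/

set_option autoImplicit false
open scoped Classical

namespace H33D3

private theorem Gct_bin (n W : ℕ) : (Finset.univ.filter fun U : Finset (Fin n) => U.card ≤ W).card = H33RP.Bin n W := by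
  unfold H33RP.Bin
  have h1 : (Finset.univ.filter fun U : Finset (Fin n) => U.card ≤ W) =
      (Finset.range (W + 1)).biUnion fun i => Finset.powersetCard i (Finset.univ : Finset (Fin n)) := by
    ext U
    rw [Finset.mem_filter, Finset.mem_biUnion]
    constructor
    · rintro ⟨-, h⟩
      exact ⟨U.card, Finset.mem_range.2 (by omega), Finset.mem_powersetCard.2 ⟨Finset.subset_univ _, rfl⟩⟩
    · rintro ⟨i, hi, hU⟩
      have h2 := Finset.mem_range.1 hi
      have h3 := (Finset.mem_powersetCard.1 hU).2
      exact ⟨Finset.mem_univ _, by omega⟩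
  rw [h1, Finset.card_biUnion]
  · refine Finset.sum_congr rfl fun i _ => ?_
    rw [Finset.card_powersetCard, Finset.card_univ, Fintype.card_fin]
  · intro i _ j _ hij
    refine Finset.disjoint_left.2 fun U hU hU' => hij ?_
    rw [← (Finset.mem_powersetCard.1 hU).2, ← (Finset.mem_powersetCard.1 hU').2]

theorem good_count {n M k D E s s1 : ℕ} (S : Fin M → Finset (Fin n)) (hk : ∀ j, (S j).card ≤ k) (hX : HX S E s)
    (hX2 : ∀ J : Finset (Fin M), J.Nonempty → J.card ≤ s → J.card < (vs S J).card) (hD : D ≤ E)
    (hbad : 2 * ((Finset.powersetCard D (Finset.univ : Finset (Fin n))).filter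
      (fun T => s1 < (Sup S s T).card)).card ≤ n.choose D) :
    n.choose D ≤ 2 * (Finset.univ.filter (fun T : Finset (Fin n) => T.card ≤ D ∧ Sup S s T = ∅)).card *
      H33RP.Bin n (k * s1) := by
  have hsplit := Finset.card_filter_add_card_filter_not (s := Finset.powersetCard D (Finset.univ : Finset (Fin n)))
    (fun T => s1 < (Sup S s T).card)
  rw [Finset.card_powersetCard, Finset.card_univ, Fintype.card_fin] at hsplit
  have hXc : ((Finset.powersetCard D (Finset.univ : Finset (Fin n))).filter
      (fun T => ¬ s1 < (Sup S s T).card)).card ≤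
      ((Finset.univ.filter (fun T : Finset (Fin n) => T.card ≤ D ∧ Sup S s T = ∅)) ×ˢ
        (Finset.univ.filter fun U : Finset (Fin n) => U.card ≤ k * s1)).card := by
    refine Finset.card_le_card_of_injOn (fun T => (T \ vs S (Sup S s T), T ∩ vs S (Sup S s T))) ?_ ?_
    · intro T hT
      rw [Finset.mem_coe, Finset.mem_filter, Finset.mem_powersetCard] at hT
      obtain ⟨⟨-, hTD⟩, hTs⟩ := hT
      rw [Finset.mem_coe, Finset.mem_product, Finset.mem_filter, Finset.mem_filter]
      refine ⟨⟨Finset.mem_univ _, ?_, ?_⟩, Finset.mem_univ _, ?_⟩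
      · exact (Finset.card_le_card Finset.sdiff_subset).trans hTD.le
      · exact clean hX hX2 (by omega)
      · calc (T ∩ vs S (Sup S s T)).card ≤ (vs S (Sup S s T)).card :=
              Finset.card_le_card Finset.inter_subset_right
          _ ≤ ∑ j ∈ Sup S s T, (S j).card := (by unfold vs; exact Finset.card_biUnion_le)
          _ ≤ (Sup S s T).card * k := by
              refine Finset.sum_le_card_nsmul _ _ _ fun j _ => hk j
          _ ≤ s1 * k := Nat.mul_le_mul_right _ (not_lt.1 hTs)
          _ = k * s1 := mul_comm _ _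
    · intro T _ T' _ h
      have h1 := congrArg Prod.fst h
      have h2 := congrArg Prod.snd h
      rw [← Finset.sdiff_union_inter T (vs S (Sup S s T)), ← Finset.sdiff_union_inter T' (vs S (Sup S s T'))]
      exact congrArg₂ (· ∪ ·) h1 h2
  rw [Finset.card_product, Gct_bin] at hXc
  have h3 : n.choose D ≤ 2 * ((Finset.univ.filter (fun T : Finset (Fin n) => T.card ≤ D ∧ Sup S s T = ∅)).card *
      H33RP.Bin n (k * s1)) := by omega
  calc n.choose D ≤ _ := h3
    _ = _ := by ring

end H33D3
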