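import Pool.Agent.H33.D3.Prp

/-!
ROW Hat (degree of the functions of forms; about 100 lines).  PROOF.  y := h + ∑_{G ∈ F.T} c G • (1 - a G) has degree ≤ b (e ≤ b, all a G of degree ≤ b for G ∈ F.T).  `a G` takes only the values 0 and 1 (a * a = a in a field), so
1 - a G x = 1 if `nu a x G` and 0 otherwise, i.e. F.Val x (nu a x) ↔ y x ∈ F.A.  For r : ZMod p: 1 - (y x - r)^(p-1) = 1 if y x = r, else 0 (`ZMod.pow_card_sub_one_eq_one`), so hat a F = ∑_{r ∈ F.A} (1 - (y - r)^(p-1)) (sum over the finite type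
filtered), degree ≤ (p-1) * b (`PP_mul`, induction for powers, constants have degree 0; p - 1 ≥ 1).
lit_ok: the form ⟨literal function, ∅, _, {1}⟩ etc. is not needed.
fc_deg: fc C = ∏_i (1 - literal indicator) (`SizeDegree.PP_lit` : (fun x => if x l.1 = l.2 then 1 else 0) ∈ PP p n 1), pointwise: the product is 1 iff all literals are false; degree ≤ k.
-/

set_option autoImplicit false
open scoped Classical

namespace H33D3

open SizeDegree DepthTwo H85SD

private theorem PP_pow {p n b : ℕ} {y : Fn p n} (hy : y ∈ PP p n b) (j : ℕ) : y ^ j ∈ PP p n (j * b) := by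
  induction j with
  | zero =>
    rw [pow_zero, Nat.zero_mul]
    exact PP_one
  | succ j ih =>
    rw [pow_succ, Nat.succ_mul]
    exact PP_mul ih hy

private theorem PP_prod {p n : ℕ} {ι : Type} (s : Finset ι) (f : ι → Fn p n) (hf : ∀ i ∈ s, f i ∈ PP p n 1) :
    ∏ i ∈ s, f i ∈ PP p n s.card := by
  induction s using Finset.induction_on with
  | empty =>
    rw [Finset.prod_empty, Finset.card_empty]
    exact PP_one
  | insert i s hi ih =>
    rw [Finset.prod_insert hi, Finset.card_insert_of_notMem hi, Nat.add_comm]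
    exact PP_mul (hf i (Finset.mem_insert_self _ _)) (ih fun j hj => hf j (Finset.mem_insert_of_mem hj))

theorem hat_deg {p n : ℕ} [Fact p.Prime] {e b : ℕ} {𝒢 : Finset (Gate p n)} (a : Gate p n → Fn p n) (heb : e ≤ b)
    (ha : ∀ G ∈ 𝒢, a G ∈ PP p n b ∧ a G * a G = a G) {F : Form p n} (hF : F.Ok e 𝒢) :
    hat a F ∈ PP p n ((p - 1) * b) := by
  obtain ⟨hh, hT⟩ := hF
  set y : Fn p n := F.h + ∑ G ∈ F.T, F.c G • (1 - a G) with hy
  have hyP : y ∈ PP p n b := by
    refine Submodule.add_mem _ (PP_mono heb (mem_PP.2 hh)) (Submodule.sum_mem _ fun G hG => ?_)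
    exact Submodule.smul_mem _ _ (Submodule.sub_mem _ (PP_mono (Nat.zero_le b) PP_one) (ha G (hT hG)).1)
  have hval : ∀ x, F.Val x (nu a x) ↔ y x ∈ F.A := by
    intro x
    have e1 : y x = F.h x + ∑ G ∈ F.T, F.c G * (if nu a x G then 1 else 0) := by
      rw [hy, Pi.add_apply, Finset.sum_apply]
      congr 1
      refine Finset.sum_congr rfl fun G hG => ?_
      rw [Pi.smul_apply, smul_eq_mul, Pi.sub_apply, Pi.one_apply]
      congr 1
      have h2 : a G x * a G x = a G x := congrFun (ha G (hT hG)).2 x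
      by_cases h3 : a G x = 0
      · rw [if_pos (show nu a x G from h3), h3, sub_zero]
      · rw [if_neg (show ¬ nu a x G from h3)]
        have h4 : a G x = 1 := by
          have h5 : a G x * (a G x - 1) = 0 := by rw [mul_sub, h2, mul_one, sub_self]
          rcases mul_eq_zero.1 h5 with h6 | h6
          · exact absurd h6 h3
          · exact sub_eq_zero.1 h6
        rw [h4, sub_self]
    rw [e1]
    exact Iff.rfl
  have hsum : hat a F = ∑ r ∈ (Finset.univ : Finset (ZMod p)).filter (fun r => r ∈ F.A),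
      (1 - (y - fun _ => r) ^ (p - 1)) := by
    funext x
    have hp1 : 0 < p - 1 := Nat.sub_pos_of_lt (Fact.out : p.Prime).one_lt
    have hterm : ∀ r : ZMod p, (1 - (y - fun _ => r) ^ (p - 1) : Fn p n) x = if y x = r then 1 else 0 := by
      intro r
      rw [Pi.sub_apply, Pi.one_apply, Pi.pow_apply, Pi.sub_apply]
      by_cases h : y x = r
      · rw [if_pos h, h, sub_self, zero_pow hp1.ne', sub_zero]
      · rw [if_neg h, ZMod.pow_card_sub_one_eq_one (sub_ne_zero.2 h), sub_self]
    rw [Finset.sum_apply]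
    rw [Finset.sum_congr rfl fun r _ => hterm r]
    rw [Finset.sum_ite_eq]
    show (if F.Val x (nu a x) then (1 : ZMod p) else 0) = _
    by_cases h : F.Val x (nu a x)
    · rw [if_pos h, if_pos]
      exact Finset.mem_filter.2 ⟨Finset.mem_univ _, (hval x).1 h⟩
    · rw [if_neg h, if_neg]
      intro h2
      exact h ((hval x).2 (Finset.mem_filter.1 h2).2)
  rw [hsum]
  refine Submodule.sum_mem _ fun r _ => Submodule.sub_mem _ (PP_mono (Nat.zero_le _) PP_one) (PP_pow ?_ _)
  refine Submodule.sub_mem _ hyP ?_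
  have h1 : (fun _ => r : Fn p n) = r • (1 : Fn p n) := by
    funext x
    rw [Pi.smul_apply, Pi.one_apply, smul_eq_mul, mul_one]
  rw [h1]
  exact Submodule.smul_mem _ _ (PP_mono (Nat.zero_le b) PP_one)

theorem fc_deg {p n k : ℕ} [Fact p.Prime] (C : KClause n k) : (fc C : Fn p n) ∈ PP p n k := by
  have h1 : (fc C : Fn p n) = ∏ i : Fin k, (1 - fun x : Pt n => if x (C.1 i) = C.2 i then (1 : ZMod p) else 0) := by
    funext x
    rw [Finset.prod_apply]
    show (if KHolds C x then (0 : ZMod p) else 1) = _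
    by_cases h : KHolds C x
    · rw [if_pos h]
      obtain ⟨i, hi⟩ := h
      symm
      refine Finset.prod_eq_zero (Finset.mem_univ i) ?_
      rw [Pi.sub_apply, Pi.one_apply]
      show (1 : ZMod p) - (if x (C.1 i) = C.2 i then (1 : ZMod p) else 0) = 0
      rw [if_pos hi, sub_self]
    · rw [if_neg h]
      symm
      refine Finset.prod_eq_one fun i _ => ?_
      rw [Pi.sub_apply, Pi.one_apply]
      show (1 : ZMod p) - (if x (C.1 i) = C.2 i then (1 : ZMod p) else 0) = 1
      rw [if_neg fun hi => h ⟨i, hi⟩, sub_zero]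
  rw [h1]
  have h2 := PP_prod (p := p) (n := n) (Finset.univ : Finset (Fin k))
    (fun i => (1 - fun x : Pt n => if x (C.1 i) = C.2 i then (1 : ZMod p) else 0))
    (fun i _ => Submodule.sub_mem _ (PP_mono (Nat.zero_le 1) PP_one) (PP_lit (C.1 i, C.2 i)))
  rw [Finset.card_univ, Fintype.card_fin] at h2
  exact h2

end H33D3
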