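import Pool.Agent.H33.RP.Na

/-!
ROW Na (tail of the weighted binomials; about 130 lines).  PROOF.  a_i = q^i C(n,i), q = D0/(n - D0).  Bin n D ≤ (n+1) C(n,D) because the binomials increase up to n/2 (`Nat.choose_le_choose`-type: `Nat.choose_le_succ_of_lt_half_left` and induction; 2 D ≤ n).
For i = D0 + y: a_{i+1}/a_i = q (n - i)/(i+1) ≤ [D0/(D0 + y)] [(n - D0 - y)/(n - D0)] ≤ 1 - y/n ≤ exp(-y/n).  So a_D ≤ a_{D0} exp(-∑_{y < D - D0} y/n) = a_{D0} exp(-(D-D0)(D-D0-1)/(2n)) (induction on D), and D - D0 ≥ x.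
bin_small: W = k (n / 2^(12 r)); W = 0: Bin = 1.  Otherwise 1 ≤ W ≤ n and Bin ≤ (3 n/W)^W (`H33RP.bin_le`), W ≤ θ n, θ = (r+1)^2/2^(12 r) (k < (r+1)^2, `Nat.lt_succ_sqrt`), x ↦ x log(3 n/x) is increasing on (0, n], so
log Bin ≤ θ n log(3/θ) ≤ θ n (12 r log 2 + log 3) ≤ 10 r θ n, and 160 r^3 (r+1)^2 ≤ 2^(12 r).
-/

set_option autoImplicit false
open scoped Classical

namespace H33D3

theorem choose_mono_half {n D : ℕ} (hD : 2 * D ≤ n) (i : ℕ) (hi : i ≤ D) : n.choose i ≤ n.choose D := by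
  induction D, hi using Nat.le_induction with
  | base => exact le_rfl
  | succ j hj ih =>
    exact (ih (by omega)).trans (Nat.choose_le_succ_of_lt_half_left (by omega))

theorem bin_le_choose {n D : ℕ} (hD : 2 * D ≤ n) : H33RP.Bin n D ≤ (n + 1) * n.choose D := by
  unfold H33RP.Bin
  refine (Finset.sum_le_card_nsmul _ _ (n.choose D) ?_).trans ?_
  · intro i hi
    rw [Finset.mem_range] at hi
    exact choose_mono_half hD i (by omega)
  · rw [Finset.card_range, smul_eq_mul]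
    exact Nat.mul_le_mul_right _ (by omega)

theorem term_le {n D0 : ℕ} (hD0 : 1 ≤ D0) (y : ℕ) (hD : 2 * (D0 + y) ≤ n) :
    ((D0 : ℝ) / (n - D0)) ^ (D0 + y) * (n.choose (D0 + y) : ℝ) ≤
      ((D0 : ℝ) / (n - D0)) ^ D0 * (n.choose D0 : ℝ) * Real.exp (-((y : ℝ) * (y - 1)) / (2 * n)) := by
  induction y with
  | zero => simp
  | succ y ih =>
    have ih' := ih (by omega)
    have hn0 : (0 : ℝ) < n := by
      have : 0 < n := by omega
      exact_mod_cast this
    have hnD : (D0 : ℝ) + y + 1 ≤ n := by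
      have : D0 + y + 1 ≤ n := by omega
      exact_mod_cast this
    have hy0 : (0 : ℝ) ≤ y := Nat.cast_nonneg _
    have hD00 : (0 : ℝ) < D0 := by exact_mod_cast hD0
    have hm : (0 : ℝ) < (n : ℝ) - D0 := by linarith
    have hq0 : (0 : ℝ) ≤ (D0 : ℝ) / (n - D0) := by positivity
    have hchoose : (n.choose (D0 + (y + 1)) : ℝ) * ((D0 : ℝ) + y + 1) = (n.choose (D0 + y) : ℝ) * ((n : ℝ) - (D0 + y)) := by
      have h1 : ((n.choose (D0 + y + 1) * (D0 + y + 1) : ℕ) : ℝ) = ((n.choose (D0 + y) * (n - (D0 + y)) : ℕ) : ℝ) := by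
        rw [Nat.choose_succ_right_eq]
      rw [Nat.cast_mul, Nat.cast_mul, Nat.cast_sub (by omega)] at h1
      push_cast at h1
      rw [← add_assoc]
      exact h1
    have hratio : (D0 : ℝ) / (n - D0) * ((n : ℝ) - (D0 + y)) ≤ ((D0 : ℝ) + y + 1) * Real.exp (-(y : ℝ) / n) := by
      have h1 : 1 - (y : ℝ) / n ≤ Real.exp (-(y : ℝ) / n) := by
        have := Real.add_one_le_exp (-(y : ℝ) / n)
        have h2 : -(y : ℝ) / n = - ((y : ℝ) / n) := neg_div _ _
        rw [h2] at this ⊢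
        linarith
      have h2 : ((n : ℝ) - (D0 + y)) / (n - D0) ≤ 1 - (y : ℝ) / n := by
        rw [div_le_iff₀ hm]
        have h3 : (y : ℝ) / n * n = y := by field_simp
        have h4 : (y : ℝ) / n * D0 ≥ 0 := by positivity
        have h5 : (1 - (y : ℝ) / n) * ((n : ℝ) - D0) = (n : ℝ) - D0 - (y : ℝ) / n * n + (y : ℝ) / n * D0 := by ring
        rw [h5, h3]
        linarith
      have h3 : (D0 : ℝ) / (n - D0) * ((n : ℝ) - (D0 + y)) = D0 * (((n : ℝ) - (D0 + y)) / (n - D0)) := by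
        field_simp
      rw [h3]
      have h4 : (0 : ℝ) ≤ ((n : ℝ) - (D0 + y)) / (n - D0) := div_nonneg (by linarith) hm.le
      calc (D0 : ℝ) * (((n : ℝ) - (D0 + y)) / (n - D0)) ≤ ((D0 : ℝ) + y + 1) * (((n : ℝ) - (D0 + y)) / (n - D0)) :=
            mul_le_mul_of_nonneg_right (by linarith) h4
        _ ≤ ((D0 : ℝ) + y + 1) * Real.exp (-(y : ℝ) / n) :=
            mul_le_mul_of_nonneg_left (h2.trans h1) (by linarith)
    have hpos : (0 : ℝ) < (D0 : ℝ) + y + 1 := by linarith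
    have hexp : Real.exp (-((y : ℝ) * (y - 1)) / (2 * n)) * Real.exp (-(y : ℝ) / n) =
        Real.exp (-(((y + 1 : ℕ) : ℝ) * (((y + 1 : ℕ) : ℝ) - 1)) / (2 * n)) := by
      rw [← Real.exp_add]
      congr 1
      push_cast
      field_simp
      ring
    rw [← hexp]
    set q : ℝ := (D0 : ℝ) / (n - D0) with hq
    have key : (q ^ (D0 + (y + 1)) * (n.choose (D0 + (y + 1)) : ℝ)) * ((D0 : ℝ) + y + 1) ≤
        (q ^ D0 * (n.choose D0 : ℝ) * (Real.exp (-((y : ℝ) * (y - 1)) / (2 * n)) * Real.exp (-(y : ℝ) / n))) * ((D0 : ℝ) + y + 1) := by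
      calc (q ^ (D0 + (y + 1)) * (n.choose (D0 + (y + 1)) : ℝ)) * ((D0 : ℝ) + y + 1)
          = q ^ (D0 + y) * q * ((n.choose (D0 + (y + 1)) : ℝ) * ((D0 : ℝ) + y + 1)) := by
            rw [← add_assoc, pow_succ]; ring
        _ = (q ^ (D0 + y) * (n.choose (D0 + y) : ℝ)) * (q * ((n : ℝ) - (D0 + y))) := by
            rw [hchoose]; ring
        _ ≤ (q ^ (D0 + y) * (n.choose (D0 + y) : ℝ)) * (((D0 : ℝ) + y + 1) * Real.exp (-(y : ℝ) / n)) :=
            mul_le_mul_of_nonneg_left hratio (by positivity)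
        _ ≤ (q ^ D0 * (n.choose D0 : ℝ) * Real.exp (-((y : ℝ) * (y - 1)) / (2 * n))) * (((D0 : ℝ) + y + 1) * Real.exp (-(y : ℝ) / n)) :=
            mul_le_mul_of_nonneg_right ih' (by positivity)
        _ = _ := by ring
    exact le_of_mul_le_mul_right key hpos

theorem tail {n D0 x D : ℕ} (hD0 : 1 ≤ D0) (h : D0 + x ≤ D) (hD : 2 * D ≤ n) :
    ((D0 : ℝ) / (n - D0)) ^ D * (H33RP.Bin n D : ℝ) ≤
      (n + 1) * (((D0 : ℝ) / (n - D0)) ^ D0 * (n.choose D0 : ℝ)) * Real.exp (-((x : ℝ) * (x - 1)) / (2 * n)) := by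
  obtain ⟨y, rfl⟩ : ∃ y, D = D0 + y := ⟨D - D0, by omega⟩
  have hxy : x ≤ y := by omega
  have hn0 : (0 : ℝ) < n := by
    have : 0 < n := by omega
    exact_mod_cast this
  have hm : (0 : ℝ) < (n : ℝ) - D0 := by
    have : (D0 : ℝ) + 1 ≤ n := by
      have : D0 + 1 ≤ n := by omega
      exact_mod_cast this
    linarith
  have hq0 : (0 : ℝ) ≤ (D0 : ℝ) / (n - D0) := by positivity
  have h1 : (H33RP.Bin n (D0 + y) : ℝ) ≤ (n + 1) * (n.choose (D0 + y) : ℝ) := by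
    exact_mod_cast bin_le_choose hD
  have h2 := term_le hD0 y hD
  have h3 : Real.exp (-((y : ℝ) * (y - 1)) / (2 * n)) ≤ Real.exp (-((x : ℝ) * (x - 1)) / (2 * n)) := by
    apply Real.exp_le_exp.2
    rw [neg_div, neg_div, neg_le_neg_iff]
    apply div_le_div_of_nonneg_right _ (by positivity)
    have hxyR : (x : ℝ) ≤ y := by exact_mod_cast hxy
    rcases Nat.eq_zero_or_pos x with hx | hx
    · subst hx
      rcases Nat.eq_zero_or_pos y with hy | hy
      · subst hy; simp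
      · have : (1 : ℝ) ≤ y := by exact_mod_cast hy
        simp only [Nat.cast_zero, zero_mul]
        exact mul_nonneg (by linarith) (by linarith)
    · have : (1 : ℝ) ≤ x := by exact_mod_cast hx
      exact mul_le_mul hxyR (by linarith) (by linarith) (by linarith)
  set q : ℝ := (D0 : ℝ) / (n - D0) with hq
  calc q ^ (D0 + y) * (H33RP.Bin n (D0 + y) : ℝ) ≤ q ^ (D0 + y) * ((n + 1) * (n.choose (D0 + y) : ℝ)) :=
        mul_le_mul_of_nonneg_left h1 (by positivity)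
    _ = (n + 1) * (q ^ (D0 + y) * (n.choose (D0 + y) : ℝ)) := by ring
    _ ≤ (n + 1) * (q ^ D0 * (n.choose D0 : ℝ) * Real.exp (-((y : ℝ) * (y - 1)) / (2 * n))) :=
        mul_le_mul_of_nonneg_left h2 (by positivity)
    _ ≤ (n + 1) * (q ^ D0 * (n.choose D0 : ℝ) * Real.exp (-((x : ℝ) * (x - 1)) / (2 * n))) := by
        apply mul_le_mul_of_nonneg_left _ (by positivity)
        exact mul_le_mul_of_nonneg_left h3 (by positivity)
    _ = _ := by ring

theorem bin_small {n k : ℕ} (hr : 100 ≤ Nat.sqrt k) (hn : 2 ^ k ≤ n) :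
    (H33RP.Bin n (k * (n / 2 ^ (12 * Nat.sqrt k))) : ℝ) ≤ Real.exp (n / (16 * (Nat.sqrt k : ℝ) ^ 2)) := by
  have hk : k < (Nat.sqrt k + 1) ^ 2 := by
    have := Nat.lt_succ_sqrt k
    rw [pow_two]; exact this
  set r : ℕ := Nat.sqrt k with hrdef
  set W : ℕ := k * (n / 2 ^ (12 * r)) with hWdef
  have hn1 : 1 ≤ n := le_trans Nat.one_le_two_pow hn
  have hn0 : (0 : ℝ) < n := by exact_mod_cast hn1
  have hr1 : (100 : ℝ) ≤ r := by exact_mod_cast hr
  rcases Nat.eq_zero_or_pos W with hW | hW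
  · rw [hW]
    have : H33RP.Bin n 0 = 1 := by simp [H33RP.Bin]
    rw [this, Nat.cast_one]
    exact Real.one_le_exp (by positivity)
  -- polynomial versus exponential
  have hpow : 160 * r ^ 3 * (r + 1) ^ 2 ≤ 2 ^ (12 * r) := by
    have h1 : r + 1 ≤ 2 ^ r := Nat.lt_two_pow_self
    have h2 : r ≤ 2 ^ r := by omega
    have h3 : 160 ≤ 2 ^ (7 * r) := by
      calc 160 ≤ 2 ^ 8 := by norm_num
        _ ≤ 2 ^ (7 * r) := Nat.pow_le_pow_right (by norm_num) (by omega)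
    calc 160 * r ^ 3 * (r + 1) ^ 2 ≤ 2 ^ (7 * r) * (2 ^ r) ^ 3 * (2 ^ r) ^ 2 :=
          Nat.mul_le_mul (Nat.mul_le_mul h3 (Nat.pow_le_pow_left h2 3)) (Nat.pow_le_pow_left h1 2)
      _ = 2 ^ (12 * r) := by ring
  have hpowR : 160 * (r : ℝ) ^ 3 * ((r : ℝ) + 1) ^ 2 ≤ 2 ^ (12 * r) := by exact_mod_cast hpow
  have hP0 : (0 : ℝ) < 2 ^ (12 * r) := by positivity
  set θ : ℝ := ((r : ℝ) + 1) ^ 2 / 2 ^ (12 * r) with hθ
  have hθ0 : 0 < θ := by positivity
  have hWθ : (W : ℝ) ≤ θ * n := by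
    have h1 : ((n / 2 ^ (12 * r) : ℕ) : ℝ) ≤ (n : ℝ) / 2 ^ (12 * r) := by
      have := @Nat.cast_div_le ℝ _ _ _ n (2 ^ (12 * r))
      push_cast at this
      exact this
    have h2 : (k : ℝ) ≤ ((r : ℝ) + 1) ^ 2 := by exact_mod_cast hk.le
    calc (W : ℝ) = k * ((n / 2 ^ (12 * r) : ℕ) : ℝ) := by rw [hWdef, Nat.cast_mul]
      _ ≤ ((r : ℝ) + 1) ^ 2 * ((n : ℝ) / 2 ^ (12 * r)) := mul_le_mul h2 h1 (Nat.cast_nonneg _) (by positivity)
      _ = θ * n := by rw [hθ]; ring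
  have hθ10 : 10 * r * θ ≤ 1 / (16 * (r : ℝ) ^ 2) := by
    rw [hθ, le_div_iff₀ (by positivity), ← mul_div_assoc, div_mul_eq_mul_div, div_le_one hP0]
    calc 10 * (r : ℝ) * ((r : ℝ) + 1) ^ 2 * (16 * (r : ℝ) ^ 2) = 160 * (r : ℝ) ^ 3 * ((r : ℝ) + 1) ^ 2 := by ring
      _ ≤ 2 ^ (12 * r) := hpowR
  have hθ1 : θ ≤ 1 := by
    have h1 : (1 : ℝ) ≤ 10 * r := by linarith
    have h2 : 1 / (16 * (r : ℝ) ^ 2) ≤ 1 := by
      rw [div_le_one (by positivity)]
      nlinarith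
    nlinarith
  have hWn : W ≤ n := by
    have : (W : ℝ) ≤ n := by nlinarith
    exact_mod_cast this
  have hW0 : (0 : ℝ) < W := by exact_mod_cast hW
  have hbin := H33RP.bin_le hW hWn
  refine hbin.trans ?_
  have hlog3 : Real.log 3 ≤ 2 := by
    have := Real.log_le_sub_one_of_pos (show (0 : ℝ) < 3 by norm_num)
    linarith
  have hlog3' : 1 ≤ Real.log 3 := by
    rw [Real.le_log_iff_exp_le (by norm_num)]
    linarith [Real.exp_one_lt_d9]
  -- the logarithm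
  have hx0 : (0 : ℝ) < 3 * (n : ℝ) / W := by positivity
  have e1 : (3 * (n : ℝ) / W) ^ W = Real.exp (W * Real.log (3 * (n : ℝ) / W)) := by
    rw [Real.exp_nat_mul, Real.exp_log hx0]
  rw [e1]
  apply Real.exp_le_exp.2
  have hθn0 : 0 < θ * n := by positivity
  have h5 : Real.log (3 * (n : ℝ) / W) = Real.log (3 / θ) + Real.log (θ * n / W) := by
    rw [← Real.log_mul (by positivity) (by positivity)]
    congr 1
    field_simp
  have h6 : Real.log (θ * n / W) ≤ θ * n / W - 1 := Real.log_le_sub_one_of_pos (by positivity)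
  have h7 : (W : ℝ) * Real.log (θ * n / W) ≤ θ * n - W := by
    calc (W : ℝ) * Real.log (θ * n / W) ≤ W * (θ * n / W - 1) := mul_le_mul_of_nonneg_left h6 hW0.le
      _ = θ * n - W := by field_simp
  have h8 : 1 ≤ Real.log (3 / θ) := by
    refine hlog3'.trans (Real.log_le_log (by norm_num) ?_)
    rw [le_div_iff₀ hθ0]
    nlinarith
  have h9 : Real.log (3 / θ) ≤ 10 * r := by
    have ha : (3 : ℝ) / θ ≤ 3 * 2 ^ (12 * r) := by
      rw [hθ, div_div_eq_mul_div]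
      apply div_le_self (by positivity)
      nlinarith
    have hb : Real.log (3 / θ) ≤ Real.log (3 * 2 ^ (12 * r)) := Real.log_le_log (by positivity) ha
    rw [Real.log_mul (by norm_num) (by positivity), Real.log_pow] at hb
    have hc : Real.log 2 ≤ 0.7 := by linarith [Real.log_two_lt_d9]
    push_cast at hb
    nlinarith
  have h10 : (W : ℝ) * (Real.log (3 / θ) - 1) ≤ θ * n * (Real.log (3 / θ) - 1) :=
    mul_le_mul_of_nonneg_right hWθ (by linarith)
  calc (W : ℝ) * Real.log (3 * (n : ℝ) / W) = W * Real.log (3 / θ) + W * Real.log (θ * n / W) := by rw [h5]; ring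
    _ ≤ W * Real.log (3 / θ) + (θ * n - W) := by linarith
    _ = W * (Real.log (3 / θ) - 1) + θ * n := by ring
    _ ≤ θ * n * (Real.log (3 / θ) - 1) + θ * n := by linarith
    _ = n * (θ * Real.log (3 / θ)) := by ring
    _ ≤ n * (θ * (10 * r)) := by
        apply mul_le_mul_of_nonneg_left _ hn0.le
        exact mul_le_mul_of_nonneg_left h9 hθ0.le
    _ = n * (10 * r * θ) := by ring
    _ ≤ n * (1 / (16 * (r : ℝ) ^ 2)) := mul_le_mul_of_nonneg_left hθ10 hn0.le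
    _ = n / (16 * (r : ℝ) ^ 2) := by ring

end H33D3
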