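import Mathlib

/-!
ROW Nb (choice of the parameters).  See the note H33_D3.md.
-/

set_option autoImplicit false
open scoped Classical

namespace H33D3

private lemma nb_ev (M : ℝ) : ∃ x0 : ℝ, 1 ≤ x0 ∧ ∀ x : ℝ, x0 ≤ x → M * x ^ 6 ≤ Real.exp (x / 2) := by
  have h := Real.tendsto_pow_mul_exp_neg_atTop_nhds_zero 6
  have h1 : Filter.Tendsto (fun y : ℝ => (64 * M) * (y ^ 6 * Real.exp (-y))) Filter.atTop (nhds ((64 * M) * 0)) :=
    h.const_mul _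
  rw [mul_zero] at h1
  have h2 := h1.eventually (gt_mem_nhds (show (0 : ℝ) < 1 by norm_num))
  obtain ⟨y0, hy0⟩ := Filter.eventually_atTop.1 h2
  refine ⟨max 1 (2 * y0), le_max_left _ _, fun x hx => ?_⟩
  have hx2 : y0 ≤ x / 2 := by
    have := (le_max_right 1 (2 * y0)).trans hx
    linarith
  have h3 := hy0 (x / 2) hx2
  have he : Real.exp (-(x / 2)) * Real.exp (x / 2) = 1 := by rw [← Real.exp_add]; simp
  have hp := Real.exp_pos (x / 2)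
  have h4 : (64 * M) * ((x / 2) ^ 6 * Real.exp (-(x / 2))) * Real.exp (x / 2) ≤ 1 * Real.exp (x / 2) :=
    mul_le_mul_of_nonneg_right h3.le hp.le
  have h5 : (64 * M) * ((x / 2) ^ 6 * Real.exp (-(x / 2))) * Real.exp (x / 2) = M * x ^ 6 := by
    rw [show (64 * M) * ((x / 2) ^ 6 * Real.exp (-(x / 2))) * Real.exp (x / 2) =
      (64 * M) * (x / 2) ^ 6 * (Real.exp (-(x / 2)) * Real.exp (x / 2)) by ring, he]
    ring
  linarith

/-- `N (1 - t)^w ≤ 1/8` if `w t ≥ L + 3`. -/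
private lemma nb_err {N w : ℕ} {t L : ℝ} (hN : (N : ℝ) = Real.exp L) (h1 : t ≤ 1) (h : L + 3 ≤ w * t) :
    N * (1 - t) ^ w ≤ 1 / 8 := by
  have h2 : (1 - t) ^ w ≤ Real.exp (-(w * t)) := by
    have h3 : 1 - t ≤ Real.exp (-t) := by
      have := Real.add_one_le_exp (-t)
      linarith
    calc (1 - t) ^ w ≤ (Real.exp (-t)) ^ w := pow_le_pow_left₀ (by linarith) h3 w
      _ = Real.exp (-(w * t)) := by rw [← Real.exp_nat_mul]; ring_nf
  calc (N : ℝ) * (1 - t) ^ w ≤ Real.exp L * Real.exp (-(w * t)) := by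
        rw [hN]; exact mul_le_mul_of_nonneg_left h2 (Real.exp_pos _).le
    _ = Real.exp (L - w * t) := by rw [← Real.exp_add]; ring_nf
    _ ≤ Real.exp (-3) := Real.exp_le_exp.2 (by linarith)
    _ ≤ 1 / 8 := by
        have h8 : (8 : ℝ) ≤ Real.exp 3 := by
          have h3 := Real.add_one_le_exp (1 : ℝ)
          have h4 : Real.exp 3 = Real.exp 1 ^ 3 := by rw [← Real.exp_nat_mul]; norm_num
          rw [h4]
          have h5 : (2 : ℝ) ≤ Real.exp 1 := by linarith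
          calc (8 : ℝ) = 2 ^ 3 := by norm_num
            _ ≤ Real.exp 1 ^ 3 := pow_le_pow_left₀ (by norm_num) h5 3
        rw [Real.exp_neg, inv_eq_one_div]
        exact one_div_le_one_div_of_le (by norm_num) h8

private lemma nb_w {L l : ℝ} (hL0 : 0 ≤ L) (hl1 : 1 ≤ l) (hLl : L ≤ 2 * l ^ 2) : ∃ w1 w2 : ℕ,
    4 * (L + 3) ≤ (w1 : ℝ) ∧ (w1 : ℝ) ≤ 4 * L + 13 ∧ (w1 : ℝ) ≤ 21 * l ^ 2 ∧
    2 * Real.exp 1 * Real.exp (l / 4) * (L + 3) ≤ (w2 : ℝ) ∧ (w2 : ℝ) ≤ 31 * l ^ 2 * Real.exp (l / 4) := by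
  have hl2 : (1 : ℝ) ≤ l ^ 2 := one_le_pow₀ hl1
  have hY1 : 1 ≤ Real.exp (l / 4) := Real.one_le_exp (by linarith)
  generalize Real.exp (l / 4) = Y at *
  have hYpos : 0 < Y := by linarith
  have he3 : Real.exp 1 ≤ 3 := by
    have := Real.exp_one_lt_d9
    linarith
  have he0 : 0 < Real.exp 1 := Real.exp_pos 1
  generalize Real.exp 1 = E at *
  refine ⟨⌈4 * (L + 3)⌉₊, ⌈2 * E * Y * (L + 3)⌉₊, Nat.le_ceil _, ?_, ?_, Nat.le_ceil _, ?_⟩
  · have := (Nat.ceil_lt_add_one (show 0 ≤ 4 * (L + 3) by positivity)).le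
    linarith
  · have := (Nat.ceil_lt_add_one (show 0 ≤ 4 * (L + 3) by positivity)).le
    linarith
  · have h1 := (Nat.ceil_lt_add_one (show 0 ≤ 2 * E * Y * (L + 3) by positivity)).le
    have h21 : L + 3 ≤ 5 * l ^ 2 := by linarith
    have h22 : 2 * E * Y ≤ 2 * 3 * Y := mul_le_mul_of_nonneg_right (by linarith) hYpos.le
    have h2 : 2 * E * Y * (L + 3) ≤ 2 * 3 * Y * (5 * l ^ 2) :=
      mul_le_mul h22 h21 (by linarith) (by positivity)
    have h3 : 1 ≤ l ^ 2 * Y := one_le_mul_of_one_le_of_one_le hl2 hY1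
    have h4 : 2 * 3 * Y * (5 * l ^ 2) = 30 * (l ^ 2 * Y) := by ring
    have h5 : 31 * l ^ 2 * Y = 31 * (l ^ 2 * Y) := by ring
    rw [h5]
    linarith

/-- the budget -/
private lemma nb_budget {P K p f l Y X r y S bh b1 w2 k M n : ℝ}
    (hp : 2 ≤ p) (hP : 4 ≤ P) (hK : 4 ≤ K) (hf : 0 ≤ f)
    (hM : M = 2 * (1302 * P * p + 42 * K * P + 2 * (f + 1)) + 1000)
    (hl1 : 1 ≤ l) (hY1 : 1 ≤ Y) (hXY : X = Y * Y) (hE : M * l ^ 6 ≤ X) (hXl : 1000 * l ^ 6 ≤ X)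
    (hr : 0 < r) (hr2l : r ≤ 2 * l) (hkl : k ≤ 2 * l) (hn : n = X * X) (hy : y = n / r) (hS : y - 1 ≤ S) (hyX : 500 * X ≤ y)
    (_hbh0 : 0 ≤ bh) (hbh : bh ≤ 21 * P * l ^ 2) (hb1 : b1 ≤ 21 * P * l ^ 2) (hw0 : 0 ≤ w2) (hw2 : w2 ≤ 31 * l ^ 2 * Y) :
    2 * (bh * (p - 1) * w2) + K * (bh + b1) + (f + 1) * k ≤ 4 * S := by
  have hX0 : 0 ≤ X := by rw [hXY]; positivity
  have hY0 : 0 < Y := by linarith
  have hl24 : l ^ 2 ≤ l ^ 4 := pow_le_pow_right₀ hl1 (by norm_num)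
  have hl2 : l ≤ l ^ 2 := by
    calc l = l ^ 1 := (pow_one l).symm
      _ ≤ l ^ 2 := pow_le_pow_right₀ hl1 (by norm_num)
  have h4Y : l ^ 4 ≤ l ^ 4 * Y := by
    calc l ^ 4 = l ^ 4 * 1 := (mul_one _).symm
      _ ≤ l ^ 4 * Y := mul_le_mul_of_nonneg_left hY1 (by positivity)
  have h1 : bh * (p - 1) * w2 ≤ (21 * P * l ^ 2) * p * (31 * l ^ 2 * Y) := by
    have h11 : bh * (p - 1) ≤ (21 * P * l ^ 2) * p :=
      mul_le_mul hbh (by linarith) (by linarith) (by positivity)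
    exact mul_le_mul h11 hw2 hw0 (by positivity)
  have h2 : K * (bh + b1) ≤ 42 * K * P * l ^ 2 := by
    have : K * (bh + b1) ≤ K * (21 * P * l ^ 2 + 21 * P * l ^ 2) :=
      mul_le_mul_of_nonneg_left (by linarith) (by linarith)
    linarith
  have h3 : (f + 1) * k ≤ (f + 1) * (2 * l) := mul_le_mul_of_nonneg_left hkl (by linarith)
  have h4 : 42 * K * P * l ^ 2 ≤ 42 * K * P * (l ^ 4 * Y) :=
    mul_le_mul_of_nonneg_left (hl24.trans h4Y) (by positivity)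
  have h5 : (f + 1) * (2 * l) ≤ 2 * (f + 1) * (l ^ 4 * Y) := by
    have h52 : (f + 1) * (2 * l) = 2 * (f + 1) * l := by ring
    rw [h52]
    exact mul_le_mul_of_nonneg_left (hl2.trans (hl24.trans h4Y)) (by positivity)
  have h6 : 2 * ((21 * P * l ^ 2) * p * (31 * l ^ 2 * Y)) = 1302 * P * p * (l ^ 4 * Y) := by ring
  have h7 : 2 * (bh * (p - 1) * w2) + K * (bh + b1) + (f + 1) * k ≤
      (1302 * P * p + 42 * K * P + 2 * (f + 1)) * (l ^ 4 * Y) := by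
    have : (1302 * P * p + 42 * K * P + 2 * (f + 1)) * (l ^ 4 * Y) =
      1302 * P * p * (l ^ 4 * Y) + 42 * K * P * (l ^ 4 * Y) + 2 * (f + 1) * (l ^ 4 * Y) := by ring
    rw [this]
    linarith
  have h8 : (1302 * P * p + 42 * K * P + 2 * (f + 1)) * (l ^ 4 * Y) ≤ (M * l ^ 6) * Y := by
    have h80 : (0 : ℝ) ≤ (1302 * P * p + 42 * K * P + 2 * (f + 1)) := by positivity
    have h81 : (1302 * P * p + 42 * K * P + 2 * (f + 1)) ≤ M := by
      rw [hM]; linarith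
    have h82 : l ^ 4 ≤ l ^ 6 := pow_le_pow_right₀ hl1 (by norm_num)
    calc (1302 * P * p + 42 * K * P + 2 * (f + 1)) * (l ^ 4 * Y)
        = ((1302 * P * p + 42 * K * P + 2 * (f + 1)) * l ^ 4) * Y := by ring
      _ ≤ (M * l ^ 6) * Y := by
          refine mul_le_mul_of_nonneg_right ?_ hY0.le
          exact mul_le_mul h81 h82 (by positivity) (by linarith)
  have h9 : (M * l ^ 6) * Y ≤ X * Y := mul_le_mul_of_nonneg_right hE hY0.le
  have h101 : r ≤ Y := by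
    have h102 : (2 * l) ^ 2 ≤ Y ^ 2 := by
      have h1 : Y ^ 2 = X := by rw [hXY]; ring
      have h2 : l ^ 2 ≤ l ^ 6 := pow_le_pow_right₀ hl1 (by norm_num)
      have h3 : 0 ≤ l ^ 6 := by positivity
      rw [h1]
      have h4 : (2 * l) ^ 2 = 4 * l ^ 2 := by ring
      rw [h4]
      linarith
    have h103 : 2 * l ≤ Y := (pow_le_pow_iff_left₀ (by linarith) hY0.le (by norm_num)).1 h102
    linarith
  have h10 : Y * r ≤ X := by
    rw [hXY]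
    exact mul_le_mul_of_nonneg_left h101 hY0.le
  have h11 : X * Y ≤ y := by
    rw [hy, le_div_iff₀ hr, hn]
    calc X * Y * r = X * (Y * r) := by ring
      _ ≤ X * X := mul_le_mul_of_nonneg_left h10 hX0
  have h12 : 0 ≤ X * Y := by positivity
  have h13 : (4 : ℝ) ≤ y := by
    have : (1 : ℝ) ≤ l ^ 6 := one_le_pow₀ hl1
    linarith
  linarith

/-- the budget, with `f, s ≤ Y = n^(1/4)`. -/
private lemma nb_budget_g {P p f s l Y X r y S bh b1 w2 k M n : ℝ}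
    (hp : 2 ≤ p) (hP : 4 ≤ P) (hf0 : 0 ≤ f) (hs0 : 0 ≤ s) (hf : f ≤ Y) (hs : s ≤ Y)
    (hM : M = 2 * (1302 * P * p + 42 * P * (p + 12) + 4) + 1000)
    (hl1 : 1 ≤ l) (hY1 : 1 ≤ Y) (hXY : X = Y * Y) (hE : M * l ^ 6 ≤ X) (hXl : 1000 * l ^ 6 ≤ X)
    (hr : 0 < r) (hr2l : r ≤ 2 * l) (hk0 : 0 ≤ k) (hkl : k ≤ 2 * l) (hn : n = X * X) (hy : y = n / r) (hS : y - 1 ≤ S)
    (hyX : 500 * X ≤ y)
    (hbh0 : 0 ≤ bh) (hb10 : 0 ≤ b1) (hbh : bh ≤ 21 * P * l ^ 2) (hb1 : b1 ≤ 21 * P * l ^ 2) (hw0 : 0 ≤ w2)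
    (hw2 : w2 ≤ 31 * l ^ 2 * Y) :
    2 * (bh * (p - 1) * w2) + ((f + 2 * s + 2) * (s + 1) + p + 2) * (bh + b1) + (f + 1) * k ≤ 4 * S := by
  have hX0 : 0 ≤ X := by rw [hXY]; positivity
  have hY0 : 0 < Y := by linarith
  have hYX : Y ≤ X := by
    rw [hXY]
    calc Y = 1 * Y := (one_mul _).symm
      _ ≤ Y * Y := mul_le_mul_of_nonneg_right hY1 hY0.le
  have hX1 : 1 ≤ X := hY1.trans hYX
  have hl24 : l ^ 2 ≤ l ^ 4 := pow_le_pow_right₀ hl1 (by norm_num)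
  have hl2 : l ≤ l ^ 2 := by
    calc l = l ^ 1 := (pow_one l).symm
      _ ≤ l ^ 2 := pow_le_pow_right₀ hl1 (by norm_num)
  have hK : (f + 2 * s + 2) * (s + 1) + p + 2 ≤ (p + 12) * X := by
    have h1 : (f + 2 * s + 2) * (s + 1) ≤ (5 * Y) * (2 * Y) :=
      mul_le_mul (by linarith) (by linarith) (by linarith) (by linarith)
    have h2 : (5 * Y) * (2 * Y) = 10 * X := by rw [hXY]; ring
    have h3 : (p + 2) * 1 ≤ (p + 2) * X := mul_le_mul_of_nonneg_left hX1 (by linarith)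
    have h4 : (p + 12) * X = 10 * X + (p + 2) * X := by ring
    linarith
  have h1 : bh * (p - 1) * w2 ≤ (21 * P * l ^ 2) * p * (31 * l ^ 2 * X) := by
    have h11 : bh * (p - 1) ≤ (21 * P * l ^ 2) * p :=
      mul_le_mul hbh (by linarith) (by linarith) (by positivity)
    have h12 : w2 ≤ 31 * l ^ 2 * X := hw2.trans (mul_le_mul_of_nonneg_left hYX (by positivity))
    exact mul_le_mul h11 h12 hw0 (by positivity)
  have h1' : 2 * ((21 * P * l ^ 2) * p * (31 * l ^ 2 * X)) = 1302 * P * p * (l ^ 4 * X) := by ring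
  have h2 : ((f + 2 * s + 2) * (s + 1) + p + 2) * (bh + b1) ≤ 42 * P * (p + 12) * (l ^ 4 * X) := by
    have h21 : ((f + 2 * s + 2) * (s + 1) + p + 2) * (bh + b1) ≤ ((p + 12) * X) * (42 * P * l ^ 4) := by
      refine mul_le_mul hK ?_ (by linarith) (by positivity)
      have : 42 * P * l ^ 2 ≤ 42 * P * l ^ 4 := mul_le_mul_of_nonneg_left hl24 (by positivity)
      linarith
    calc _ ≤ ((p + 12) * X) * (42 * P * l ^ 4) := h21
      _ = _ := by ring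
  have h3 : (f + 1) * k ≤ 4 * (l ^ 4 * X) := by
    have h31 : (f + 1) * k ≤ (2 * X) * (2 * l ^ 4) :=
      mul_le_mul (by linarith) (by linarith) hk0 (by positivity)
    calc (f + 1) * k ≤ (2 * X) * (2 * l ^ 4) := h31
      _ = 4 * (l ^ 4 * X) := by ring
  have h7 : 2 * (bh * (p - 1) * w2) + ((f + 2 * s + 2) * (s + 1) + p + 2) * (bh + b1) + (f + 1) * k ≤
      (1302 * P * p + 42 * P * (p + 12) + 4) * (l ^ 4 * X) := by
    have : (1302 * P * p + 42 * P * (p + 12) + 4) * (l ^ 4 * X) =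
      1302 * P * p * (l ^ 4 * X) + 42 * P * (p + 12) * (l ^ 4 * X) + 4 * (l ^ 4 * X) := by ring
    rw [this]
    linarith
  have h8 : (1302 * P * p + 42 * P * (p + 12) + 4) * (l ^ 4 * X) ≤ y := by
    rw [hy, le_div_iff₀ hr, hn]
    have h80 : (0 : ℝ) ≤ (1302 * P * p + 42 * P * (p + 12) + 4) := by positivity
    have h81 : 2 * (1302 * P * p + 42 * P * (p + 12) + 4) ≤ M := by
      rw [hM]; linarith
    have h82 : l ^ 5 ≤ l ^ 6 := pow_le_pow_right₀ hl1 (by norm_num)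
    calc (1302 * P * p + 42 * P * (p + 12) + 4) * (l ^ 4 * X) * r
        ≤ (1302 * P * p + 42 * P * (p + 12) + 4) * (l ^ 4 * X) * (2 * l) :=
          mul_le_mul_of_nonneg_left hr2l (by positivity)
      _ = (2 * (1302 * P * p + 42 * P * (p + 12) + 4) * l ^ 5) * X := by ring
      _ ≤ (M * l ^ 6) * X := by
          refine mul_le_mul_of_nonneg_right ?_ hX0
          exact mul_le_mul h81 h82 (by positivity) (by linarith)
      _ ≤ X * X := mul_le_mul_of_nonneg_right hE hX0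
  have h13 : (4 : ℝ) ≤ y := by
    have : (1 : ℝ) ≤ l ^ 6 := one_le_pow₀ hl1
    linarith
  linarith

private lemma nb_q {n D S : ℕ} {r y q : ℝ} (hr : 8000 ≤ r) (hD0 : 1 ≤ D) (hD2 : 2 * D ≤ n) (hD3 : n ≤ 2 * D + 24 * S + 1)
    (hSy : (S : ℝ) ≤ y) (hyr : y * r = n) (hrn : 2 * r ≤ n) (hq : q = (D : ℝ) / (n - (D : ℝ))) :
    0 < q ∧ q ≤ 1 ∧ ∀ j : ℕ, Real.exp (-(98 * j / r)) ≤ q ^ j := by
  have hD0' : (1 : ℝ) ≤ D := by exact_mod_cast hD0
  have hD2' : 2 * (D : ℝ) ≤ n := by exact_mod_cast hD2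
  have hD3' : (n : ℝ) ≤ 2 * D + 24 * S + 1 := by exact_mod_cast hD3
  have hrpos : 0 < r := by linarith
  have hden : 0 < (n : ℝ) - D := by linarith
  have hq0 : 0 < q := by rw [hq]; exact div_pos (by linarith) hden
  have hq1 : q ≤ 1 := by rw [hq, div_le_one hden]; linarith
  have hqr : 1 - q ≤ 49 / r := by
    have h1 : 1 - q = ((n : ℝ) - 2 * D) / (n - D) := by
      rw [hq]; field_simp; ring
    rw [h1, div_le_div_iff₀ hden hrpos]
    have h2 : (n : ℝ) - 2 * D ≤ 24 * y + 1 := by linarith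
    have h4 : ((n : ℝ) - 2 * D) * r ≤ (24 * y + 1) * r := mul_le_mul_of_nonneg_right h2 hrpos.le
    have h5 : (24 * y + 1) * r = 24 * n + r := by rw [add_mul, mul_assoc, hyr]; ring
    linarith
  have hqh : 1 / 2 ≤ q := by
    have : 49 / r ≤ 1 / 2 := by rw [div_le_div_iff₀ hrpos (by norm_num)]; linarith
    linarith
  have hlogq : -(98 / r) ≤ Real.log q := by
    have h1 : 1 - q⁻¹ ≤ Real.log q := Real.one_sub_inv_le_log_of_pos hq0
    have h2 : q⁻¹ - 1 ≤ 98 / r := by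
      have h3 : q⁻¹ - 1 = (1 - q) / q := by field_simp
      rw [h3, div_le_iff₀ hq0]
      have h4 : (98 : ℝ) / r * q ≥ 98 / r * (1 / 2) := mul_le_mul_of_nonneg_left hqh (by positivity)
      have h5 : (98 : ℝ) / r * (1 / 2) = 49 / r := by ring
      linarith
    linarith
  refine ⟨hq0, hq1, fun j => ?_⟩
  have h1 : q ^ j = Real.exp (j * Real.log q) := by
    rw [← Real.log_pow, Real.exp_log (by positivity)]
  rw [h1]
  refine Real.exp_le_exp.2 ?_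
  have : (j : ℝ) * -(98 / r) ≤ j * Real.log q := mul_le_mul_of_nonneg_left hlogq (by positivity)
  calc -(98 * (j : ℝ) / r) = (j : ℝ) * -(98 / r) := by ring
    _ ≤ _ := this

private lemma nb_tail {S n N r L l X y : ℝ} (hN : N = Real.exp L) (hn : n = Real.exp l) (hXX : Real.exp l = X * X)
    (hX0 : 0 < X) (hl1 : 1 ≤ l) (hLl : L ≤ 2 * l ^ 2) (hXl : 1000 * l ^ 6 ≤ X)
    (hr : 0 < r) (hr2l : r ^ 2 ≤ 2 * l) (hy : y = n / r) (hS : y - 1 ≤ S) (hyX : 500 * X ≤ y) :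
    2 * N * (n + 1) ^ 2 * Real.exp (-(3 * S) * (3 * S - 1) / (2 * n)) * Real.exp (n / (16 * r ^ 2)) ≤ 1 / 8 := by
  have hnpos : 0 < n := by rw [hn]; exact Real.exp_pos _
  have hl26 : l ^ 2 ≤ l ^ 6 := pow_le_pow_right₀ hl1 (by norm_num)
  have hl2 : (1 : ℝ) ≤ l ^ 2 := one_le_pow₀ hl1
  have hll2 : l ≤ l ^ 2 := by
    calc l = l ^ 1 := (pow_one l).symm
      _ ≤ l ^ 2 := pow_le_pow_right₀ hl1 (by norm_num)
  have hy34 : 5000 ≤ y := by linarith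
  have hS97 : (97 / 100) * y ≤ S := by linarith
  have hyr : y * r = n := by rw [hy]; field_simp
  have hA : 4 * (n / r ^ 2) ≤ (3 * S) * (3 * S - 1) / (2 * n) := by
    rw [le_div_iff₀ (by positivity)]
    have h1 : n / r ^ 2 * n = y ^ 2 := by rw [hy]; field_simp
    have h2 : 4 * (n / r ^ 2) * (2 * n) = 8 * y ^ 2 := by
      rw [← h1]; ring
    rw [h2]
    have h3 : (288 / 100) * y ≤ 3 * S - 1 := by linarith
    have h4 : (291 / 100) * y ≤ 3 * S := by linarith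
    have h5 : (291 / 100) * y * ((288 / 100) * y) ≤ (3 * S) * (3 * S - 1) :=
      mul_le_mul h4 h3 (by positivity) (by linarith)
    have h6 : (291 / 100) * y * ((288 / 100) * y) = (83808 / 10000) * y ^ 2 := by ring
    have h7 : 0 ≤ y ^ 2 := by positivity
    linarith
  have hZX : X ≤ n / r ^ 2 := by
    rw [le_div_iff₀ (by positivity), hn, hXX]
    have : r ^ 2 ≤ X := by linarith
    exact mul_le_mul_of_nonneg_left this hX0.le
  have hZ16 : n / (16 * r ^ 2) = (n / r ^ 2) / 16 := by field_simp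
  rw [hZ16]
  generalize n / r ^ 2 = Z at *
  have hn1 : (n + 1) ^ 2 ≤ 4 * Real.exp (2 * l) := by
    have h0 : (1 : ℝ) ≤ n := by rw [hn]; exact Real.one_le_exp (by linarith)
    have h1 : (n + 1) ≤ 2 * n := by linarith
    have h2 : Real.exp (2 * l) = n ^ 2 := by
      rw [hn, sq, ← Real.exp_add]; ring_nf
    rw [h2]
    calc (n + 1) ^ 2 ≤ (2 * n) ^ 2 := pow_le_pow_left₀ (by positivity) h1 2
      _ = 4 * n ^ 2 := by ring
  have hexpA : Real.exp (-(3 * S) * (3 * S - 1) / (2 * n)) ≤ Real.exp (-(4 * Z)) := by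
    refine Real.exp_le_exp.2 ?_
    have : -(3 * S) * (3 * S - 1) / (2 * n) = -((3 * S) * (3 * S - 1) / (2 * n)) := by ring
    rw [this]
    linarith
  have h8 : (64 : ℝ) ≤ Real.exp 5 := by
    have h4 : Real.exp 5 = Real.exp 1 ^ 5 := by rw [← Real.exp_nat_mul]; norm_num
    rw [h4]
    have h5 : (2.7 : ℝ) ≤ Real.exp 1 := by
      have := Real.exp_one_gt_d9
      linarith
    calc (64 : ℝ) ≤ 2.7 ^ 5 := by norm_num
      _ ≤ Real.exp 1 ^ 5 := pow_le_pow_left₀ (by norm_num) h5 5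
  calc 2 * N * (n + 1) ^ 2 * Real.exp (-(3 * S) * (3 * S - 1) / (2 * n)) * Real.exp (Z / 16)
      ≤ 2 * Real.exp L * (4 * Real.exp (2 * l)) * Real.exp (-(4 * Z)) * Real.exp (Z / 16) := by
        rw [hN]
        refine mul_le_mul_of_nonneg_right ?_ (Real.exp_pos _).le
        refine mul_le_mul ?_ hexpA (Real.exp_pos _).le (by positivity)
        exact mul_le_mul_of_nonneg_left hn1 (by positivity)
    _ = 8 * Real.exp (L + 2 * l + -(4 * Z) + Z / 16) := by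
        rw [Real.exp_add, Real.exp_add, Real.exp_add]; ring
    _ ≤ 8 * Real.exp (-5) := by
        refine mul_le_mul_of_nonneg_left (Real.exp_le_exp.2 ?_) (by norm_num)
        linarith
    _ ≤ 1 / 8 := by
        rw [Real.exp_neg]
        have : (Real.exp 5)⁻¹ ≤ 64⁻¹ := inv_anti₀ (by norm_num) h8
        linarith

/-- the two error terms. -/
private lemma nb_errs {N w1 w2 bh e : ℕ} {p P r L l q C : ℝ} (hNL : (N : ℝ) = Real.exp L) (hL0 : 0 ≤ L)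
    (hp : 2 ≤ p) (hr : 0 < r) (hrP : 2000 * P ≤ r) (heP : (e : ℝ) ≤ P) (hP0 : 0 ≤ P)
    (hq0 : 0 < q) (hq1 : q ≤ 1) (hqpow : ∀ j : ℕ, Real.exp (-(98 * j / r)) ≤ q ^ j)
    (hw1a : 4 * (L + 3) ≤ (w1 : ℝ)) (hw1b : (w1 : ℝ) ≤ 4 * L + 13) (hbh : (bh : ℝ) ≤ P * w1)
    (hw2a : 2 * Real.exp 1 * Real.exp (l / 4) * (L + 3) ≤ (w2 : ℝ))
    (hC : 1568 * P ≤ C) (hCL : C * L < r * l) :
    N * (1 - (1 - 1 / p) * q ^ e) ^ w1 ≤ 1 / 8 ∧ N * (1 - (1 - 1 / p) * q ^ bh) ^ w2 ≤ 1 / 8 := by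
  have hpp : (1 : ℝ) / 2 ≤ 1 - 1 / p := by
    have : 1 / p ≤ 1 / 2 := one_div_le_one_div_of_le (by norm_num) hp
    linarith
  have hpp1 : 1 - 1 / p ≤ 1 := by
    have : 0 ≤ 1 / p := by positivity
    linarith
  have hqj1 : ∀ j : ℕ, (1 - 1 / p) * q ^ j ≤ 1 := by
    intro j
    have h1 : q ^ j ≤ 1 := pow_le_one₀ hq0.le hq1
    have h2 : 0 ≤ q ^ j := by positivity
    calc (1 - 1 / p) * q ^ j ≤ 1 * 1 := mul_le_mul hpp1 h1 h2 (by norm_num)
      _ = 1 := by norm_num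
  constructor
  · refine nb_err hNL (hqj1 e) ?_
    have h1 : (1 : ℝ) / 2 ≤ q ^ e := by
      refine le_trans ?_ (hqpow e)
      have h2 : -(1 / 2) ≤ -(98 * (e : ℝ) / r) := by
        have : 98 * (e : ℝ) / r ≤ 1 / 2 := by
          rw [div_le_div_iff₀ hr (by norm_num)]
          linarith
        linarith
      have h3 := Real.add_one_le_exp (-(1 / 2) : ℝ)
      have h4 := Real.exp_le_exp.2 h2
      linarith
    have h2 : (1 : ℝ) / 4 ≤ (1 - 1 / p) * q ^ e := by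
      calc (1 : ℝ) / 4 = 1 / 2 * (1 / 2) := by norm_num
        _ ≤ _ := mul_le_mul hpp h1 (by norm_num) (by linarith)
    have h3 : (w1 : ℝ) * (1 / 4) ≤ w1 * ((1 - 1 / p) * q ^ e) := mul_le_mul_of_nonneg_left h2 (by positivity)
    linarith
  · refine nb_err hNL (hqj1 bh) ?_
    have h1 : Real.exp (-1 - l / 4) ≤ q ^ bh := by
      refine le_trans (Real.exp_le_exp.2 ?_) (hqpow bh)
      have h2 : 98 * (bh : ℝ) ≤ 98 * (P * (4 * L + 13)) := by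
        have : P * w1 ≤ P * (4 * L + 13) := mul_le_mul_of_nonneg_left hw1b hP0
        linarith
      have h3 : 98 * (P * 13) ≤ r := by linarith
      have h4 : 98 * (P * (4 * L)) ≤ r * (l / 4) := by
        have h42 : 1568 * P * L ≤ C * L := mul_le_mul_of_nonneg_right hC hL0
        linarith
      have h5 : 98 * (bh : ℝ) / r ≤ 1 + l / 4 := by
        rw [div_le_iff₀ hr]
        have : (1 + l / 4) * r = r + r * (l / 4) := by ring
        rw [this]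
        have h6 : 98 * (P * (4 * L + 13)) = 98 * (P * (4 * L)) + 98 * (P * 13) := by ring
        linarith
      linarith
    have h2 : (w2 : ℝ) * ((1 / 2) * Real.exp (-1 - l / 4)) ≤ w2 * ((1 - 1 / p) * q ^ bh) := by
      refine mul_le_mul_of_nonneg_left ?_ (by positivity)
      exact mul_le_mul hpp h1 (Real.exp_pos _).le (by linarith)
    have h3 : L + 3 ≤ (w2 : ℝ) * ((1 / 2) * Real.exp (-1 - l / 4)) := by
      have h4 : Real.exp 1 * Real.exp (l / 4) * Real.exp (-1 - l / 4) = 1 := by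
        rw [← Real.exp_add, ← Real.exp_add]
        have : (1 : ℝ) + l / 4 + (-1 - l / 4) = 0 := by ring
        rw [this, Real.exp_zero]
      have h5 : 2 * Real.exp 1 * Real.exp (l / 4) * (L + 3) * ((1 / 2) * Real.exp (-1 - l / 4)) = L + 3 := by
        calc 2 * Real.exp 1 * Real.exp (l / 4) * (L + 3) * ((1 / 2) * Real.exp (-1 - l / 4))
            = (Real.exp 1 * Real.exp (l / 4) * Real.exp (-1 - l / 4)) * (L + 3) := by ring
          _ = L + 3 := by rw [h4, one_mul]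
      rw [← h5]
      exact mul_le_mul_of_nonneg_right hw2a (by positivity)
    linarith

/-- basic real estimates. -/
private lemma nb_base {k n N C : ℕ} {M x0 B : ℝ} (hB : 8000 ≤ B) (hx0 : 1 ≤ x0)
    (hM1 : 1000 ≤ M) (hev : ∀ x : ℝ, x0 ≤ x → M * x ^ 6 ≤ Real.exp (x / 2))
    (hC : 2 * x0 + (B + 1) ^ 2 ≤ (C : ℝ)) (hCk : C ≤ k) (hkn : 2 ^ k ≤ n) (hN : 1 ≤ N)
    (hNC : N ^ C < n ^ Nat.sqrt k) : ∃ l L y : ℝ, (n : ℝ) = Real.exp l ∧ (N : ℝ) = Real.exp L ∧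
      1 ≤ l ∧ 0 ≤ L ∧ (C : ℝ) * L < Nat.sqrt k * l ∧ L ≤ 2 * l ^ 2 ∧ B ≤ (Nat.sqrt k : ℝ) ∧
      (Nat.sqrt k : ℝ) ≤ 2 * l ∧ (Nat.sqrt k : ℝ) ^ 2 ≤ 2 * l ∧ (k : ℝ) ≤ 2 * l ∧
      M * l ^ 6 ≤ Real.exp (l / 2) ∧ y = (n : ℝ) / (Nat.sqrt k : ℝ) ∧ 500 * Real.exp (l / 2) ≤ y ∧
      ((n / Nat.sqrt k : ℕ) : ℝ) ≤ y ∧ y - 1 ≤ ((n / Nat.sqrt k : ℕ) : ℝ) := by
  have hCk' : (C : ℝ) ≤ k := by exact_mod_cast hCk
  have hr1 : Nat.sqrt k * Nat.sqrt k ≤ k := Nat.sqrt_le k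
  have hr2 : k < (Nat.sqrt k + 1) * (Nat.sqrt k + 1) := Nat.lt_succ_sqrt k
  have hr1' : (Nat.sqrt k : ℝ) ^ 2 ≤ k := by rw [sq]; exact_mod_cast hr1
  have hr2' : (k : ℝ) < ((Nat.sqrt k : ℝ) + 1) ^ 2 := by rw [sq]; exact_mod_cast hr2
  generalize Nat.sqrt k = r at *
  have hrB : B ≤ (r : ℝ) := by
    by_contra hcon
    push Not at hcon
    have h1 : ((r : ℝ) + 1) ^ 2 ≤ (B + 1) ^ 2 := pow_le_pow_left₀ (by positivity) (by linarith) 2
    linarith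
  have hrpos : (0 : ℝ) < r := by linarith
  have hnpos : 0 < n := lt_of_lt_of_le (by positivity) hkn
  have hnR : (0 : ℝ) < n := by exact_mod_cast hnpos
  have hnl : (n : ℝ) = Real.exp (Real.log n) := (Real.exp_log hnR).symm
  have hlog2 : (1 : ℝ) / 2 ≤ Real.log 2 := by
    have := Real.log_two_gt_d9
    linarith
  have hkl : (k : ℝ) ≤ 2 * Real.log n := by
    have h1 : (2 : ℝ) ^ k ≤ n := by exact_mod_cast hkn
    have h2 : Real.log ((2 : ℝ) ^ k) ≤ Real.log n := Real.log_le_log (by positivity) h1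
    rw [Real.log_pow] at h2
    have h3 : (k : ℝ) * (1 / 2) ≤ k * Real.log 2 := mul_le_mul_of_nonneg_left hlog2 (by positivity)
    linarith
  have hNR : (1 : ℝ) ≤ N := by exact_mod_cast hN
  have hNL : (N : ℝ) = Real.exp (Real.log N) := (Real.exp_log (by linarith)).symm
  have hL0 : 0 ≤ Real.log N := Real.log_nonneg hNR
  have hCL : (C : ℝ) * Real.log N < r * Real.log n := by
    have h1 : ((N : ℝ)) ^ C < (n : ℝ) ^ r := by exact_mod_cast hNC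
    have h2 : Real.log ((N : ℝ) ^ C) < Real.log ((n : ℝ) ^ r) := Real.log_lt_log (by positivity) h1
    rwa [Real.log_pow, Real.log_pow] at h2
  generalize Real.log N = L at *
  generalize Real.log n = l at *
  have hB2 : 0 ≤ (B + 1) ^ 2 := by positivity
  have hlx : x0 ≤ l := by linarith
  have hl1 : 1 ≤ l := hx0.trans hlx
  have hE := hev l hlx
  have hXX : Real.exp l = Real.exp (l / 2) * Real.exp (l / 2) := by rw [← Real.exp_add]; ring_nf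
  have hXpos : 0 < Real.exp (l / 2) := Real.exp_pos _
  have hrk : (r : ℝ) ≤ k := by
    have h1 : (r : ℝ) * 1 ≤ (r : ℝ) * r := mul_le_mul_of_nonneg_left (by linarith) hrpos.le
    have h2 : (r : ℝ) * r = (r : ℝ) ^ 2 := by ring
    linarith
  have hr2l : (r : ℝ) ≤ 2 * l := hrk.trans hkl
  have hC1 : (1 : ℝ) ≤ C := by linarith
  refine ⟨l, L, (n : ℝ) / r, hnl, hNL, hl1, hL0, hCL, ?_, hrB, hr2l, hr1'.trans hkl, hkl, hE, rfl, ?_, ?_, ?_⟩
  · have h1 : 1 * L ≤ (C : ℝ) * L := mul_le_mul_of_nonneg_right hC1 hL0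
    have h2 : (r : ℝ) * l ≤ 2 * l * l := mul_le_mul_of_nonneg_right hr2l (by linarith)
    have h3 : 2 * l * l = 2 * l ^ 2 := by ring
    linarith
  · rw [le_div_iff₀ hrpos, hnl, hXX]
    have h0 : l ≤ l ^ 6 := by
      calc l = l ^ 1 := (pow_one l).symm
        _ ≤ l ^ 6 := pow_le_pow_right₀ hl1 (by norm_num)
    have h01 : 1000 * l ^ 6 ≤ M * l ^ 6 := mul_le_mul_of_nonneg_right hM1 (by positivity)
    have h1 : 500 * (r : ℝ) ≤ Real.exp (l / 2) := by linarith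
    calc 500 * Real.exp (l / 2) * r = Real.exp (l / 2) * (500 * r) := by ring
      _ ≤ Real.exp (l / 2) * Real.exp (l / 2) := mul_le_mul_of_nonneg_left h1 hXpos.le
  · exact Nat.cast_div_le
  · have hr0 : 0 < r := by exact_mod_cast hrpos
    have h1 : n < r * (n / r + 1) := Nat.lt_mul_div_succ n hr0
    have h2 : (n : ℝ) < r * (((n / r : ℕ) : ℝ) + 1) := by exact_mod_cast h1
    have h3 : (n : ℝ) / r < ((n / r : ℕ) : ℝ) + 1 := by
      rw [div_lt_iff₀ hrpos]; linarith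
    linarith

theorem num1 (p e f s : ℕ) (hp : 2 ≤ p) (he : 1 ≤ e) : ∃ C : ℕ, 1 ≤ C ∧ ∀ k n N : ℕ, C ≤ k → 2 ^ k ≤ n → 1 ≤ N →
    N ^ C < n ^ Nat.sqrt k → 100 ≤ Nat.sqrt k ∧ ∃ w1 w2 : ℕ, 1 ≤ w1 ∧
      (p - 1) * (e * (p - 1) * w1) ≤ n / Nat.sqrt k ∧ 1 ≤ n / 2 - 12 * (n / Nat.sqrt k) ∧ k ≤ n / Nat.sqrt k ∧
      24 * (n / Nat.sqrt k) < n ∧
      (n / 2 - 8 * (n / Nat.sqrt k)) + 2 * ((p - 1) * (e * (p - 1) * w1) * (p - 1) * w2) +
        ((f + 2 * s + 2) * (s + 1) + p + 2) * ((p - 1) * (e * (p - 1) * w1) + e * (p - 1) * w1) + (f + 1) * k ≤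
          n / 2 - 4 * (n / Nat.sqrt k) ∧
      ∀ q : ℝ, q = ((n / 2 - 12 * (n / Nat.sqrt k) : ℕ) : ℝ) / (n - ((n / 2 - 12 * (n / Nat.sqrt k) : ℕ) : ℝ)) →
        0 < q ∧ q ≤ 1 ∧
        N * (1 - (1 - 1 / (p : ℝ)) * q ^ e) ^ w1 ≤ 1 / 8 ∧
        N * (1 - (1 - 1 / (p : ℝ)) * q ^ ((p - 1) * (e * (p - 1) * w1))) ^ w2 ≤ 1 / 8 ∧
        2 * N * ((n : ℝ) + 1) ^ 2 * Real.exp (-((3 * (n / Nat.sqrt k) : ℕ) : ℝ) * ((3 * (n / Nat.sqrt k) : ℕ) - 1) / (2 * n)) *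
          Real.exp (n / (16 * (Nat.sqrt k : ℝ) ^ 2)) ≤ 1 / 8 := by
  obtain ⟨P, hP⟩ : ∃ P : ℝ, P = (e : ℝ) * (p : ℝ) ^ 2 := ⟨_, rfl⟩
  obtain ⟨K, hK⟩ : ∃ K : ℝ, K = ((f : ℝ) + 2 * s + 2) * (s + 1) + p + 2 := ⟨_, rfl⟩
  have hpR : (2 : ℝ) ≤ p := by exact_mod_cast hp
  have heR : (1 : ℝ) ≤ e := by exact_mod_cast he
  have hp24 : (4 : ℝ) ≤ (p : ℝ) ^ 2 := by
    calc (4 : ℝ) = 2 ^ 2 := by norm_num
      _ ≤ (p : ℝ) ^ 2 := pow_le_pow_left₀ (by norm_num) hpR 2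
  have hP4 : (4 : ℝ) ≤ P := by
    rw [hP]
    calc (4 : ℝ) = 1 * 4 := by norm_num
      _ ≤ _ := mul_le_mul heR hp24 (by norm_num) (by positivity)
  have heP : (e : ℝ) ≤ P := by
    rw [hP]
    calc (e : ℝ) = e * 1 := (mul_one _).symm
      _ ≤ _ := mul_le_mul_of_nonneg_left (by linarith) (by positivity)
  have hKn : (4 : ℝ) ≤ K := by
    rw [hK]
    have h1 : (0 : ℝ) ≤ ((f : ℝ) + 2 * s + 2) * (s + 1) := by positivity
    linarith
  obtain ⟨M, hM⟩ : ∃ M : ℝ, M = 2 * (1302 * P * p + 42 * K * P + 2 * (f + 1)) + 1000 := ⟨_, rfl⟩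
  have hPp : 0 ≤ 1302 * P * p := by positivity
  have hKP : 42 * 4 * P ≤ 42 * K * P := mul_le_mul_of_nonneg_right (by linarith) (by linarith)
  have hff : (0 : ℝ) ≤ 2 * ((f : ℝ) + 1) := by positivity
  have hM1 : 1000 ≤ M := by
    rw [hM]; linarith
  have h21M : 21 * P ≤ M := by rw [hM]; linarith
  obtain ⟨x0, hx0, hev⟩ := nb_ev M
  obtain ⟨C, hC⟩ := exists_nat_ge (2 * x0 + 1568 * P + (2000 * P + 1) ^ 2)
  have hsq : 0 ≤ (2000 * P + 1) ^ 2 := by positivity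
  have hC1 : (1 : ℝ) ≤ C := by linarith
  refine ⟨C, by exact_mod_cast hC1, ?_⟩
  intro k n N hCk hkn hN hNC
  obtain ⟨l, L, y, hnl, hNL, hl1, hL0, hCL, hLl, hrP, hr2l, hrsq, hkl, hE, hy, hyX, hSle, hSge⟩ :=
    nb_base (B := 2000 * P) (by linarith) hx0 hM1 hev (by linarith) hCk hkn hN hNC
  generalize Nat.sqrt k = r at *
  have hr8 : (8000 : ℝ) ≤ r := by linarith
  have hr100 : 100 ≤ r := by
    have : (100 : ℝ) ≤ r := by linarith
    exact_mod_cast this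
  have hrpos : (0 : ℝ) < r := by linarith
  refine ⟨hr100, ?_⟩
  obtain ⟨w1, w2, hw1a, hw1b, hw1c, hw2a, hw2b⟩ := nb_w hL0 hl1 hLl
  have hXX : Real.exp l = Real.exp (l / 2) * Real.exp (l / 2) := by rw [← Real.exp_add]; ring_nf
  have hXY : Real.exp (l / 2) = Real.exp (l / 4) * Real.exp (l / 4) := by rw [← Real.exp_add]; ring_nf
  have hXpos : 0 < Real.exp (l / 2) := Real.exp_pos _
  have hXl : 1000 * l ^ 6 ≤ Real.exp (l / 2) := by
    have : 1000 * l ^ 6 ≤ M * l ^ 6 := mul_le_mul_of_nonneg_right hM1 (by positivity)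
    linarith
  have hl61 : (1 : ℝ) ≤ l ^ 6 := one_le_pow₀ hl1
  have hll6 : l ≤ l ^ 6 := by
    calc l = l ^ 1 := (pow_one l).symm
      _ ≤ l ^ 6 := pow_le_pow_right₀ hl1 (by norm_num)
  have hl26 : l ^ 2 ≤ l ^ 6 := pow_le_pow_right₀ hl1 (by norm_num)
  obtain ⟨b1, hb1⟩ : ∃ b1 : ℕ, b1 = e * (p - 1) * w1 := ⟨_, rfl⟩
  obtain ⟨bh, hbh⟩ : ∃ bh : ℕ, bh = (p - 1) * (e * (p - 1) * w1) := ⟨_, rfl⟩
  have hp1 : ((p - 1 : ℕ) : ℝ) = (p : ℝ) - 1 := by rw [Nat.cast_sub (by omega)]; simp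
  have hew : (0 : ℝ) ≤ (e : ℝ) * w1 := by positivity
  have hbhP : (bh : ℝ) ≤ P * w1 := by
    have h1 : ((p : ℝ) - 1) ^ 2 ≤ (p : ℝ) ^ 2 := pow_le_pow_left₀ (by linarith) (by linarith) 2
    have h2 : ((p : ℝ) - 1) ^ 2 * ((e : ℝ) * w1) ≤ (p : ℝ) ^ 2 * ((e : ℝ) * w1) := mul_le_mul_of_nonneg_right h1 hew
    rw [hbh, hP]; push_cast; rw [hp1]
    linarith
  have hb1P : (b1 : ℝ) ≤ P * w1 := by
    have h1 : ((p : ℝ) - 1) ≤ (p : ℝ) ^ 2 := by nlinarith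
    have h2 : ((p : ℝ) - 1) * ((e : ℝ) * w1) ≤ (p : ℝ) ^ 2 * ((e : ℝ) * w1) := mul_le_mul_of_nonneg_right h1 hew
    rw [hb1, hP]; push_cast; rw [hp1]
    linarith
  have hPw : P * w1 ≤ 21 * P * l ^ 2 := by
    have := mul_le_mul_of_nonneg_left hw1c (show 0 ≤ P by linarith)
    linarith
  have hbud := nb_budget (P := P) (K := K) (p := p) (f := f) (l := l) (Y := Real.exp (l / 4)) (X := Real.exp (l / 2))
    (r := r) (y := y) (S := ((n / r : ℕ) : ℝ)) (bh := bh) (b1 := b1) (w2 := w2) (k := k) (M := M) (n := n)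
    hpR hP4 hKn (by positivity) hM hl1 (Real.one_le_exp (by linarith)) hXY hE hXl hrpos hr2l hkl (by rw [hnl, hXX]) hy
    hSge hyX (by positivity) (hbhP.trans hPw) (hb1P.trans hPw) (by positivity) hw2b
  have hbhS : bh ≤ n / r := by
    have h1 : 21 * P * l ^ 2 ≤ M * l ^ 6 := mul_le_mul h21M hl26 (by positivity) (by linarith)
    have : (bh : ℝ) ≤ ((n / r : ℕ) : ℝ) := by linarith
    exact_mod_cast this
  have hkS : k ≤ n / r := by
    have : (k : ℝ) ≤ ((n / r : ℕ) : ℝ) := by linarith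
    exact_mod_cast this
  have hSr : (n / r) * 100 ≤ n := by
    calc (n / r) * 100 ≤ (n / r) * r := Nat.mul_le_mul_left _ hr100
      _ ≤ n := Nat.div_mul_le_self n r
  have hyr : y * r = n := by rw [hy]; field_simp
  have hyn : y ≤ n := by
    rw [← hyr]
    calc y = y * 1 := (mul_one _).symm
      _ ≤ y * r := mul_le_mul_of_nonneg_left (by linarith) (by linarith)
  have hn1000 : 1000 ≤ n := by
    have : (1000 : ℝ) ≤ n := by linarith
    exact_mod_cast this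
  have hbudN : 2 * (bh * (p - 1) * w2) + ((f + 2 * s + 2) * (s + 1) + p + 2) * (bh + b1) + (f + 1) * k ≤ 4 * (n / r) := by
    have h1 : ((2 * (bh * (p - 1) * w2) + ((f + 2 * s + 2) * (s + 1) + p + 2) * (bh + b1) + (f + 1) * k : ℕ) : ℝ) ≤
        ((4 * (n / r) : ℕ) : ℝ) := by
      rw [hK] at hbud
      push_cast
      rw [hp1]
      linarith
    exact_mod_cast h1
  refine ⟨w1, w2, ?_, ?_, ?_, hkS, ?_, ?_, ?_⟩
  · have : (1 : ℝ) ≤ w1 := by linarith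
    exact_mod_cast this
  · rw [← hbh]; exact hbhS
  · omega
  · omega
  · rw [← hbh, ← hb1]
    omega
  -- q
  intro q hq
  have hD0 : 1 ≤ n / 2 - 12 * (n / r) := by omega
  have hD2 : 2 * (n / 2 - 12 * (n / r)) ≤ n := by omega
  have hD3 : n ≤ 2 * (n / 2 - 12 * (n / r)) + 24 * (n / r) + 1 := by omega
  obtain ⟨hq0, hq1, hqpow⟩ := nb_q (r := (r : ℝ)) (y := y) hr8 hD0 hD2 hD3 hSle hyr (by linarith) hq
  obtain ⟨he1, he2⟩ := nb_errs (N := N) (w1 := w1) (w2 := w2) (bh := bh) (e := e) (p := (p : ℝ)) (P := P) (r := (r : ℝ))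
    (L := L) (l := l) (q := q) (C := (C : ℝ)) hNL hL0 hpR hrpos hrP heP (by linarith) hq0 hq1 hqpow hw1a hw1b hbhP hw2a
    (by linarith) hCL
  refine ⟨hq0, hq1, he1, ?_, ?_⟩
  · rw [← hbh]; exact he2
  · have h3S : ((3 * (n / r) : ℕ) : ℝ) = 3 * ((n / r : ℕ) : ℝ) := by push_cast; ring
    rw [h3S]
    exact nb_tail (S := ((n / r : ℕ) : ℝ)) (n := (n : ℝ)) (N := (N : ℝ)) (r := (r : ℝ)) (L := L) (l := l)
      (X := Real.exp (l / 2)) (y := y) hNL hnl hXX hXpos hl1 hLl hXl hrpos hrsq hy hSge hyX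

/-- `num1` with `C` depending on `p, e` only; `f, s ≤ n^(1/4)`. -/
theorem num1g (p e : ℕ) (hp : 2 ≤ p) (he : 1 ≤ e) : ∃ C : ℕ, 1 ≤ C ∧ ∀ k n N f s : ℕ, C ≤ k → 2 ^ k ≤ n → 1 ≤ N →
    f ^ 4 ≤ n → s ^ 4 ≤ n → N ^ C < n ^ Nat.sqrt k → 100 ≤ Nat.sqrt k ∧ ∃ w1 w2 : ℕ, 1 ≤ w1 ∧
      (p - 1) * (e * (p - 1) * w1) ≤ n / Nat.sqrt k ∧ 1 ≤ n / 2 - 12 * (n / Nat.sqrt k) ∧ k ≤ n / Nat.sqrt k ∧
      24 * (n / Nat.sqrt k) < n ∧
      (n / 2 - 8 * (n / Nat.sqrt k)) + 2 * ((p - 1) * (e * (p - 1) * w1) * (p - 1) * w2) +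
        ((f + 2 * s + 2) * (s + 1) + p + 2) * ((p - 1) * (e * (p - 1) * w1) + e * (p - 1) * w1) + (f + 1) * k ≤
          n / 2 - 4 * (n / Nat.sqrt k) ∧
      ∀ q : ℝ, q = ((n / 2 - 12 * (n / Nat.sqrt k) : ℕ) : ℝ) / (n - ((n / 2 - 12 * (n / Nat.sqrt k) : ℕ) : ℝ)) →
        0 < q ∧ q ≤ 1 ∧
        N * (1 - (1 - 1 / (p : ℝ)) * q ^ e) ^ w1 ≤ 1 / 8 ∧
        N * (1 - (1 - 1 / (p : ℝ)) * q ^ ((p - 1) * (e * (p - 1) * w1))) ^ w2 ≤ 1 / 8 ∧
        2 * N * ((n : ℝ) + 1) ^ 2 * Real.exp (-((3 * (n / Nat.sqrt k) : ℕ) : ℝ) * ((3 * (n / Nat.sqrt k) : ℕ) - 1) / (2 * n)) *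
          Real.exp (n / (16 * (Nat.sqrt k : ℝ) ^ 2)) ≤ 1 / 8 := by
  obtain ⟨P, hP⟩ : ∃ P : ℝ, P = (e : ℝ) * (p : ℝ) ^ 2 := ⟨_, rfl⟩
  have hpR : (2 : ℝ) ≤ p := by exact_mod_cast hp
  have heR : (1 : ℝ) ≤ e := by exact_mod_cast he
  have hp24 : (4 : ℝ) ≤ (p : ℝ) ^ 2 := by
    calc (4 : ℝ) = 2 ^ 2 := by norm_num
      _ ≤ (p : ℝ) ^ 2 := pow_le_pow_left₀ (by norm_num) hpR 2
  have hP4 : (4 : ℝ) ≤ P := by
    rw [hP]
    calc (4 : ℝ) = 1 * 4 := by norm_num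
      _ ≤ _ := mul_le_mul heR hp24 (by norm_num) (by positivity)
  have heP : (e : ℝ) ≤ P := by
    rw [hP]
    calc (e : ℝ) = e * 1 := (mul_one _).symm
      _ ≤ _ := mul_le_mul_of_nonneg_left (by linarith) (by positivity)
  obtain ⟨M, hM⟩ : ∃ M : ℝ, M = 2 * (1302 * P * p + 42 * P * (p + 12) + 4) + 1000 := ⟨_, rfl⟩
  have hPp : 0 ≤ 1302 * P * p := by positivity
  have hPp2 : 42 * P * 1 ≤ 42 * P * ((p : ℝ) + 12) := mul_le_mul_of_nonneg_left (by linarith) (by linarith)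
  have hM1 : 1000 ≤ M := by
    rw [hM]; linarith
  have h21M : 21 * P ≤ M := by rw [hM]; linarith
  obtain ⟨x0, hx0, hev⟩ := nb_ev M
  obtain ⟨C, hC⟩ := exists_nat_ge (2 * x0 + 1568 * P + (2000 * P + 1) ^ 2)
  have hsq : 0 ≤ (2000 * P + 1) ^ 2 := by positivity
  have hC1 : (1 : ℝ) ≤ C := by linarith
  refine ⟨C, by exact_mod_cast hC1, ?_⟩
  intro k n N f s hCk hkn hN hf4 hs4 hNC
  obtain ⟨l, L, y, hnl, hNL, hl1, hL0, hCL, hLl, hrP, hr2l, hrsq, hkl, hE, hy, hyX, hSle, hSge⟩ :=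
    nb_base (B := 2000 * P) (by linarith) hx0 hM1 hev (by linarith) hCk hkn hN hNC
  generalize Nat.sqrt k = r at *
  have hr8 : (8000 : ℝ) ≤ r := by linarith
  have hr100 : 100 ≤ r := by
    have : (100 : ℝ) ≤ r := by linarith
    exact_mod_cast this
  have hrpos : (0 : ℝ) < r := by linarith
  refine ⟨hr100, ?_⟩
  obtain ⟨w1, w2, hw1a, hw1b, hw1c, hw2a, hw2b⟩ := nb_w hL0 hl1 hLl
  have hXX : Real.exp l = Real.exp (l / 2) * Real.exp (l / 2) := by rw [← Real.exp_add]; ring_nf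
  have hXY : Real.exp (l / 2) = Real.exp (l / 4) * Real.exp (l / 4) := by rw [← Real.exp_add]; ring_nf
  have hXpos : 0 < Real.exp (l / 2) := Real.exp_pos _
  have hXl : 1000 * l ^ 6 ≤ Real.exp (l / 2) := by
    have : 1000 * l ^ 6 ≤ M * l ^ 6 := mul_le_mul_of_nonneg_right hM1 (by positivity)
    linarith
  have hl61 : (1 : ℝ) ≤ l ^ 6 := one_le_pow₀ hl1
  have hll6 : l ≤ l ^ 6 := by
    calc l = l ^ 1 := (pow_one l).symm
      _ ≤ l ^ 6 := pow_le_pow_right₀ hl1 (by norm_num)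
  have hl26 : l ^ 2 ≤ l ^ 6 := pow_le_pow_right₀ hl1 (by norm_num)
  obtain ⟨b1, hb1⟩ : ∃ b1 : ℕ, b1 = e * (p - 1) * w1 := ⟨_, rfl⟩
  obtain ⟨bh, hbh⟩ : ∃ bh : ℕ, bh = (p - 1) * (e * (p - 1) * w1) := ⟨_, rfl⟩
  have hp1 : ((p - 1 : ℕ) : ℝ) = (p : ℝ) - 1 := by rw [Nat.cast_sub (by omega)]; simp
  have hew : (0 : ℝ) ≤ (e : ℝ) * w1 := by positivity
  have hbhP : (bh : ℝ) ≤ P * w1 := by
    have h1 : ((p : ℝ) - 1) ^ 2 ≤ (p : ℝ) ^ 2 := pow_le_pow_left₀ (by linarith) (by linarith) 2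
    have h2 : ((p : ℝ) - 1) ^ 2 * ((e : ℝ) * w1) ≤ (p : ℝ) ^ 2 * ((e : ℝ) * w1) := mul_le_mul_of_nonneg_right h1 hew
    rw [hbh, hP]; push_cast; rw [hp1]
    linarith
  have hb1P : (b1 : ℝ) ≤ P * w1 := by
    have h1 : ((p : ℝ) - 1) ≤ (p : ℝ) ^ 2 := by nlinarith
    have h2 : ((p : ℝ) - 1) * ((e : ℝ) * w1) ≤ (p : ℝ) ^ 2 * ((e : ℝ) * w1) := mul_le_mul_of_nonneg_right h1 hew
    rw [hb1, hP]; push_cast; rw [hp1]
    linarith
  have hPw : P * w1 ≤ 21 * P * l ^ 2 := by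
    have := mul_le_mul_of_nonneg_left hw1c (show 0 ≤ P by linarith)
    linarith
  have h4 : ∀ x : ℕ, x ^ 4 ≤ n → (x : ℝ) ≤ Real.exp (l / 4) := by
    intro x hx
    have h1 : (x : ℝ) ^ 4 ≤ (Real.exp (l / 4)) ^ 4 := by
      have h2 : (Real.exp (l / 4)) ^ 4 = n := by
        rw [hnl, ← Real.exp_nat_mul]
        congr 1
        push_cast
        ring
      rw [h2]
      exact_mod_cast hx
    exact (pow_le_pow_iff_left₀ (by positivity) (Real.exp_pos _).le (by norm_num)).1 h1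
  have hbud := nb_budget_g (P := P) (p := p) (f := f) (s := s) (l := l) (Y := Real.exp (l / 4)) (X := Real.exp (l / 2))
    (r := r) (y := y) (S := ((n / r : ℕ) : ℝ)) (bh := bh) (b1 := b1) (w2 := w2) (k := k) (M := M) (n := n)
    hpR hP4 (by positivity) (by positivity) (h4 f hf4) (h4 s hs4) hM hl1 (Real.one_le_exp (by linarith)) hXY hE hXl
    hrpos hr2l (by positivity) hkl (by rw [hnl, hXX]) hy
    hSge hyX (by positivity) (by positivity) (hbhP.trans hPw) (hb1P.trans hPw) (by positivity) hw2b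
  have hbhS : bh ≤ n / r := by
    have h1 : 21 * P * l ^ 2 ≤ M * l ^ 6 := mul_le_mul h21M hl26 (by positivity) (by linarith)
    have : (bh : ℝ) ≤ ((n / r : ℕ) : ℝ) := by linarith
    exact_mod_cast this
  have hkS : k ≤ n / r := by
    have : (k : ℝ) ≤ ((n / r : ℕ) : ℝ) := by linarith
    exact_mod_cast this
  have hSr : (n / r) * 100 ≤ n := by
    calc (n / r) * 100 ≤ (n / r) * r := Nat.mul_le_mul_left _ hr100
      _ ≤ n := Nat.div_mul_le_self n r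
  have hyr : y * r = n := by rw [hy]; field_simp
  have hyn : y ≤ n := by
    rw [← hyr]
    calc y = y * 1 := (mul_one _).symm
      _ ≤ y * r := mul_le_mul_of_nonneg_left (by linarith) (by linarith)
  have hn1000 : 1000 ≤ n := by
    have : (1000 : ℝ) ≤ n := by linarith
    exact_mod_cast this
  have hbudN : 2 * (bh * (p - 1) * w2) + ((f + 2 * s + 2) * (s + 1) + p + 2) * (bh + b1) + (f + 1) * k ≤ 4 * (n / r) := by
    have h1 : ((2 * (bh * (p - 1) * w2) + ((f + 2 * s + 2) * (s + 1) + p + 2) * (bh + b1) + (f + 1) * k : ℕ) : ℝ) ≤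
        ((4 * (n / r) : ℕ) : ℝ) := by
      push_cast
      rw [hp1]
      linarith
    exact_mod_cast h1
  refine ⟨w1, w2, ?_, ?_, ?_, hkS, ?_, ?_, ?_⟩
  · have : (1 : ℝ) ≤ w1 := by linarith
    exact_mod_cast this
  · rw [← hbh]; exact hbhS
  · omega
  · omega
  · rw [← hbh, ← hb1]
    omega
  -- q
  intro q hq
  have hD0 : 1 ≤ n / 2 - 12 * (n / r) := by omega
  have hD2 : 2 * (n / 2 - 12 * (n / r)) ≤ n := by omega
  have hD3 : n ≤ 2 * (n / 2 - 12 * (n / r)) + 24 * (n / r) + 1 := by omega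
  obtain ⟨hq0, hq1, hqpow⟩ := nb_q (r := (r : ℝ)) (y := y) hr8 hD0 hD2 hD3 hSle hyr (by linarith) hq
  obtain ⟨he1, he2⟩ := nb_errs (N := N) (w1 := w1) (w2 := w2) (bh := bh) (e := e) (p := (p : ℝ)) (P := P) (r := (r : ℝ))
    (L := L) (l := l) (q := q) (C := (C : ℝ)) hNL hL0 hpR hrpos hrP heP (by linarith) hq0 hq1 hqpow hw1a hw1b hbhP hw2a
    (by linarith) hCL
  refine ⟨hq0, hq1, he1, ?_, ?_⟩
  · rw [← hbh]; exact he2
  · have h3S : ((3 * (n / r) : ℕ) : ℝ) = 3 * ((n / r : ℕ) : ℝ) := by push_cast; ring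
    rw [h3S]
    exact nb_tail (S := ((n / r : ℕ) : ℝ)) (n := (n : ℝ)) (N := (N : ℝ)) (r := (r : ℝ)) (L := L) (l := l)
      (X := Real.exp (l / 2)) (y := y) hNL hnl hXX hXpos hl1 hLl hXl hrpos hrsq hy hSge hyX

theorem num2 {n k : ℕ} (hr : 100 ≤ Nat.sqrt k) (hn : 2 ^ k ≤ n) : 2 * n ≤ 2 ^ (n / 2 ^ (12 * Nat.sqrt k)) := by
  have hr1 : Nat.sqrt k * Nat.sqrt k ≤ k := Nat.sqrt_le k
  generalize Nat.sqrt k = r at *
  have hk : 100 * r ≤ k := le_trans (Nat.mul_le_mul_right _ hr) hr1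
  have hn0 : n ≠ 0 := by
    have : 0 < 2 ^ k := by positivity
    omega
  obtain ⟨a, ha⟩ : ∃ a : ℕ, a = Nat.log 2 n := ⟨_, rfl⟩
  have h1 : 2 ^ a ≤ n := by rw [ha]; exact Nat.pow_log_le_self 2 hn0
  have h2 : n < 2 ^ (a + 1) := by rw [ha]; exact Nat.lt_pow_succ_log_self (by norm_num) n
  have h3 : k ≤ a := by
    by_contra hcon
    have : 2 ^ (a + 1) ≤ 2 ^ k := Nat.pow_le_pow_right (by norm_num) (by omega)
    omega
  have h4 : 2 ^ (a - 12 * r) ≤ n / 2 ^ (12 * r) := by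
    rw [Nat.le_div_iff_mul_le (by positivity), ← pow_add]
    rw [show a - 12 * r + 12 * r = a by omega]
    exact h1
  have h5 : a + 2 ≤ 2 ^ (a - 12 * r) := by
    obtain ⟨b, hb⟩ : ∃ b : ℕ, a - 12 * r = b + 2 := ⟨a - 12 * r - 2, by omega⟩
    have h6 : a ≤ 2 * (b + 2) := by omega
    have h7 : b < 2 ^ b := Nat.lt_two_pow_self
    have h9 : 3 ≤ b := by omega
    have h8 : 2 ^ (a - 12 * r) = 4 * 2 ^ b := by
      rw [hb, pow_add]
      ring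
    rw [h8]
    omega
  calc 2 * n ≤ 2 ^ (a + 2) := by
        rw [show a + 2 = (a + 1) + 1 by ring, pow_succ 2 (a + 1)]
        omega
    _ ≤ 2 ^ (n / 2 ^ (12 * r)) := Nat.pow_le_pow_right (by norm_num) (h5.trans h4)

end H33D3
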