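import Pool.Agent.H33.D3.Rc

/-!
ROW Rd (averaging; about 90 lines).  PROOF.  Same as Pool/Agent/H33/RP/Av.lean (bad_avg, proved).  D = n/2 - 12 s0 ≤ E = n/2 - 4 s0.  If HX (SSk Φ) E s0 and |T| = D, s1 < |Sup T| then J = Sup T satisfies |J| ≤ s0 (sup_card), ph T J ≤ ph T ∅ = 0 (sup_min), i.e. |vs J - T| ≤ |J|,
so Φ is bad for T (bad_count).  Double counting over the C(n,D) sets T; C(n,D) > 0.
-/

set_option autoImplicit false
open scoped Classical

namespace H33D3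

open DepthTwo

theorem bad_avg {n k m : ℕ} (hr : 100 ≤ Nat.sqrt k) (hn : 2 ^ k ≤ n) (hm : m ≤ n * 2 ^ k) :
    (Finset.univ.filter (fun Φ : Fin m → KClause n k =>
      HX (SSk Φ) (n / 2 - 4 * (n / Nat.sqrt k)) (n / Nat.sqrt k) ∧
      n.choose (n / 2 - 12 * (n / Nat.sqrt k)) < 2 * ((Finset.powersetCard (n / 2 - 12 * (n / Nat.sqrt k))
        (Finset.univ : Finset (Fin n))).filter
          (fun T => n / 2 ^ (12 * Nat.sqrt k) < (Sup (SSk Φ) (n / Nat.sqrt k) T).card)).card)).card *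
        2 ^ (n / 2 ^ (12 * Nat.sqrt k)) ≤ 2 * Fintype.card (KClause n k) ^ m := by
  have hbc := fun T hT => bad_count hr hn hm T hT
  obtain ⟨K, hK⟩ : ∃ K : ℕ, K = Fintype.card (KClause n k) := ⟨_, rfl⟩
  obtain ⟨s0, hs0⟩ : ∃ s0, s0 = n / Nat.sqrt k := ⟨_, rfl⟩
  obtain ⟨s1, hs1⟩ : ∃ s1, s1 = n / 2 ^ (12 * Nat.sqrt k) := ⟨_, rfl⟩
  obtain ⟨D, hD⟩ : ∃ D, D = n / 2 - 12 * s0 := ⟨_, rfl⟩
  rw [← hs0, ← hs1, ← hK] at hbc
  rw [← hs0, ← hs1, ← hK]
  rw [← hD] at hbc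
  rw [← hD]
  have hDE : D ≤ n / 2 - 4 * s0 := by omega
  obtain ⟨P, hP⟩ : ∃ P : Finset (Finset (Fin n)), P = Finset.powersetCard D (Finset.univ : Finset (Fin n)) := ⟨_, rfl⟩
  obtain ⟨bad, hbad⟩ : ∃ bad : (Fin m → KClause n k) → Finset (Fin n) → Prop,
      bad = fun Φ T => ∃ J : Finset (Fin m), s1 < J.card ∧ J.card ≤ s0 ∧ (vs (SSk Φ) J \ T).card ≤ J.card := ⟨_, rfl⟩
  rw [← hP]
  obtain ⟨F, hF⟩ : ∃ F : Finset (Fin m → KClause n k), F = Finset.univ.filter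
      (fun Φ : Fin m → KClause n k => HX (SSk Φ) (n / 2 - 4 * s0) s0 ∧
      n.choose D < 2 * (P.filter (fun T => s1 < (Sup (SSk Φ) s0 T).card)).card) := ⟨_, rfl⟩
  rw [← hF]
  have hC : 0 < n.choose D := Nat.choose_pos (by omega)
  have hPc : P.card = n.choose D := by
    rw [hP, Finset.card_powersetCard, Finset.card_univ, Fintype.card_fin]
  have hTc : ∀ T ∈ P, T.card = D := by
    intro T hT
    rw [hP] at hT
    exact (Finset.mem_powersetCard.1 hT).2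
  have h1 : ∀ Φ ∈ F, n.choose D ≤ 2 * (P.filter (fun T => bad Φ T)).card := by
    intro Φ hΦ
    rw [hF] at hΦ
    obtain ⟨hE, hlt⟩ := (Finset.mem_filter.1 hΦ).2
    have hsub : P.filter (fun T => s1 < (Sup (SSk Φ) s0 T).card) ⊆ P.filter (fun T => bad Φ T) := by
      intro T hT
      obtain ⟨hT1, hT2⟩ := Finset.mem_filter.1 hT
      have hc : T.card ≤ n / 2 - 4 * s0 := by rw [hTc T hT1]; exact hDE
      refine Finset.mem_filter.2 ⟨hT1, ?_⟩
      rw [hbad]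
      refine ⟨Sup (SSk Φ) s0 T, hT2, sup_card hE hc, ?_⟩
      have hm1 := (sup_min hE hc).2 ∅ (by simp)
      rw [ph_empty] at hm1
      unfold ph at hm1
      omega
    have := Finset.card_le_card hsub
    omega
  have h2 : ∀ T ∈ P, (F.filter (fun Φ => bad Φ T)).card * 2 ^ s1 ≤ K ^ m := by
    intro T hT
    have h3 := hbc T (hTc T hT).le
    refine le_trans (Nat.mul_le_mul_right _ (Finset.card_le_card ?_)) h3
    intro Φ hΦ
    have h4 := (Finset.mem_filter.1 hΦ).2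
    rw [hbad] at h4
    exact Finset.mem_filter.2 ⟨Finset.mem_univ _, h4⟩
  have h3 : ∑ Φ ∈ F, (P.filter (fun T => bad Φ T)).card = ∑ T ∈ P, (F.filter (fun Φ => bad Φ T)).card := by
    simp only [Finset.card_filter]
    exact Finset.sum_comm
  have h4 : F.card * n.choose D ≤ 2 * ∑ Φ ∈ F, (P.filter (fun T => bad Φ T)).card := by
    calc F.card * n.choose D = ∑ Φ ∈ F, n.choose D := by rw [Finset.sum_const, smul_eq_mul]
      _ ≤ ∑ Φ ∈ F, 2 * (P.filter (fun T => bad Φ T)).card := Finset.sum_le_sum h1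
      _ = 2 * ∑ Φ ∈ F, (P.filter (fun T => bad Φ T)).card := by rw [Finset.mul_sum]
  have h5 : (∑ T ∈ P, (F.filter (fun Φ => bad Φ T)).card) * 2 ^ s1 ≤ n.choose D * K ^ m := by
    calc (∑ T ∈ P, (F.filter (fun Φ => bad Φ T)).card) * 2 ^ s1
        = ∑ T ∈ P, (F.filter (fun Φ => bad Φ T)).card * 2 ^ s1 := by rw [Finset.sum_mul]
      _ ≤ ∑ T ∈ P, K ^ m := Finset.sum_le_sum h2
      _ = n.choose D * K ^ m := by rw [Finset.sum_const, smul_eq_mul, hPc]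
  apply Nat.le_of_mul_le_mul_left _ hC
  calc n.choose D * (F.card * 2 ^ s1) = (F.card * n.choose D) * 2 ^ s1 := by ring
    _ ≤ (2 * ∑ Φ ∈ F, (P.filter (fun T => bad Φ T)).card) * 2 ^ s1 := Nat.mul_le_mul_right _ h4
    _ = 2 * ((∑ T ∈ P, (F.filter (fun Φ => bad Φ T)).card) * 2 ^ s1) := by rw [h3]; ring
    _ ≤ 2 * (n.choose D * K ^ m) := Nat.mul_le_mul_left _ h5
    _ = n.choose D * (2 * K ^ m) := by ring

end H33D3
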