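import Pool.Agent.H33.D3.Bri2
import Pool.Agent.H33.D3.Gct
import Pool.Agent.H33.D3.Ra
import Pool.Agent.H33.D3.Rb
import Pool.Agent.H33.D3.Rd
import Pool.Agent.H33.D3.Na
import Pool.Agent.H33.D3.Nb
import Pool.Agent.H91.D2.Core
import Pool.Agent.H62.RC.Unsat

/-!
Assembly (helper33): random `k`-CNFs are hard for lines which are disjunctions of polynomials in OR-gates.
-/

set_option autoImplicit false
open scoped Classical

namespace H33D3

open SizeDegree H85SD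

/-- The deterministic part. -/
theorem det {p e f s : ℕ} [Fact p.Prime] (he : 1 ≤ e) {k n m N w1 w2 : ℕ} (Φ : Fin m → DepthTwo.KClause n k)
    (hn : 2 ^ k ≤ n) (hk : f + 3 ≤ k) (hN : 1 ≤ N) (hr : 100 ≤ Nat.sqrt k) (hw1 : 1 ≤ w1)
    (hb1 : (p - 1) * (2 * e ^ 2 * (p - 1) * w1) ≤ n / Nat.sqrt k) (hb2 : 1 ≤ n / 2 - 12 * (n / Nat.sqrt k))
    (hb3 : k ≤ n / Nat.sqrt k) (hb4 : 24 * (n / Nat.sqrt k) < n)
    (hb5 : (n / 2 - 8 * (n / Nat.sqrt k)) + 2 * ((p - 1) * (2 * e ^ 2 * (p - 1) * w1) * (p - 1) * w2) +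
      ((f + 3 + 2 * s + 2) * (s + 1) + p + 2) * ((p - 1) * (2 * e ^ 2 * (p - 1) * w1) + 2 * e ^ 2 * (p - 1) * w1) +
        (f + 3 + 1) * k ≤ n / 2 - 4 * (n / Nat.sqrt k))
    {q : ℝ} (hq : q = ((n / 2 - 12 * (n / Nat.sqrt k) : ℕ) : ℝ) / (n - ((n / 2 - 12 * (n / Nat.sqrt k) : ℕ) : ℝ)))
    (hq0 : 0 < q) (hq1 : q ≤ 1)
    (hc1 : N * (1 - (1 - 1 / (p : ℝ)) * q ^ (2 * e ^ 2)) ^ w1 ≤ 1 / 8)
    (hc2 : N * (1 - (1 - 1 / (p : ℝ)) * q ^ ((p - 1) * (2 * e ^ 2 * (p - 1) * w1))) ^ w2 ≤ 1 / 8)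
    (hc3 : 2 * N * ((n : ℝ) + 1) ^ 2 * Real.exp (-((3 * (n / Nat.sqrt k) : ℕ) : ℝ) * ((3 * (n / Nat.sqrt k) : ℕ) - 1) / (2 * n)) *
      Real.exp (n / (16 * (Nat.sqrt k : ℝ) ^ 2)) ≤ 1 / 8)
    (hX : HX (SSk Φ) (n / 2 - 4 * (n / Nat.sqrt k)) (n / Nat.sqrt k))
    (hX2 : ∀ J : Finset (Fin m), J.Nonempty → J.card ≤ n / Nat.sqrt k → J.card < (vs (SSk Φ) J).card)
    (hbad : 2 * ((Finset.powersetCard (n / 2 - 12 * (n / Nat.sqrt k)) (Finset.univ : Finset (Fin n))).filter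
      (fun T => n / 2 ^ (12 * Nat.sqrt k) < (Sup (SSk Φ) (n / Nat.sqrt k) T).card)).card ≤
        n.choose (n / 2 - 12 * (n / Nat.sqrt k))) :
    ¬ GateLines.Refutes p e f s (fun j => KClause.toClause (Φ j)) N := by
  obtain ⟨r, hr'⟩ : ∃ r, r = Nat.sqrt k := ⟨_, rfl⟩
  obtain ⟨s0, hs0⟩ : ∃ s0, s0 = n / Nat.sqrt k := ⟨_, rfl⟩
  obtain ⟨D1, hD1⟩ : ∃ D1, D1 = n / 2 - 12 * (n / Nat.sqrt k) := ⟨_, rfl⟩
  obtain ⟨Dm, hDm⟩ : ∃ Dm, Dm = n / 2 - 8 * (n / Nat.sqrt k) := ⟨_, rfl⟩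
  obtain ⟨E, hE⟩ : ∃ E, E = n / 2 - 4 * (n / Nat.sqrt k) := ⟨_, rfl⟩
  have hn1 : 1 ≤ n := le_trans Nat.one_le_two_pow hn
  have hn0 : (0 : ℝ) < n := by exact_mod_cast hn1
  have hp2 : 2 ≤ p := (Fact.out : p.Prime).two_le
  have hNR : (1 : ℝ) ≤ N := by exact_mod_cast hN
  have hkk : ∀ j, (KClause.toClause (Φ j)).card ≤ k := by
    intro j
    unfold KClause.toClause
    exact Finset.card_image_le.trans (by rw [Finset.card_univ, Fintype.card_fin])
  have hSk : ∀ j, (SSk Φ j).card ≤ k := by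
    intro j
    unfold SSk
    exact Finset.card_image_le.trans (by rw [Finset.card_univ, Fintype.card_fin])
  -- sizes
  have hgc := good_count (k := k) (D := D1) (s1 := n / 2 ^ (12 * Nat.sqrt k)) (SSk Φ) hSk hX hX2
    (by rw [hD1]; omega) (by rw [hD1]; exact hbad)
  have hbs := bin_small (n := n) hr hn
  set U := U0 (TT p (fun j => KClause.toClause (Φ j)) E) q Dm with hU
  have hU1 : q ^ D1 * ((Finset.univ.filter (fun T : Finset (Fin n) => T.card ≤ D1 ∧ Sup (SSk Φ) s0 T = ∅)).card : ℝ) ≤ U :=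
    bri2 Φ hn1 (by omega) (by omega) (by omega) (by rw [hE, hs0]; exact hX) hq0.le (by omega) (by omega)
  set G := (Finset.univ.filter (fun T : Finset (Fin n) => T.card ≤ D1 ∧ Sup (SSk Φ) s0 T = ∅)).card with hG
  set a := q ^ D1 * (n.choose D1 : ℝ) with ha
  set X := Real.exp (n / (16 * (Nat.sqrt k : ℝ) ^ 2)) with hXd
  have hX0 : 0 < X := Real.exp_pos _
  have ha0 : 0 < a := by
    rw [ha]
    refine mul_pos (pow_pos hq0 _) ?_
    exact_mod_cast Nat.choose_pos (by omega : D1 ≤ n)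
  have haU : a ≤ 2 * X * U := by
    have h1 : (n.choose D1 : ℝ) ≤ 2 * G * X := by
      have h2 : (n.choose D1 : ℝ) ≤ 2 * G * (H33RP.Bin n (k * (n / 2 ^ (12 * Nat.sqrt k))) : ℝ) := by
        have h3 := hgc
        rw [← hs0] at h3
        exact_mod_cast h3
      refine h2.trans (mul_le_mul_of_nonneg_left hbs (by positivity))
    calc a ≤ q ^ D1 * (2 * G * X) := mul_le_mul_of_nonneg_left h1 (pow_nonneg hq0.le _)
      _ = 2 * X * (q ^ D1 * G) := by ring
      _ ≤ 2 * X * U := mul_le_mul_of_nonneg_left hU1 (by positivity)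
  have hU0 : 0 < U := by
    by_contra hcon
    push Not at hcon
    have : 2 * X * U ≤ 0 := mul_nonpos_of_nonneg_of_nonpos (by positivity) hcon
    linarith
  -- the tails
  have htau : ∀ j : ℕ, j ≤ s0 →
      N * tau (TT p (fun j => KClause.toClause (Φ j)) E) q (Dm - j) j ≤ U / 8 := by
    intro j hj
    have h1 := tau_le' (p := p) (E := E) Φ hq0.le (Dm - j) j
    have hterm : ∀ D ∈ Finset.Ico (Dm - j + 1) (Dm - j + j + 1), q ^ D * (H33RP.Bin n D : ℝ) ≤
        (n + 1) * a * Real.exp (-((3 * s0 : ℕ) : ℝ) * ((3 * s0 : ℕ) - 1) / (2 * n)) := by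
      intro D hD
      rw [Finset.mem_Ico] at hD
      have h2 := tail (n := n) (D0 := D1) (x := 3 * s0) (D := D) (by omega) (by omega) (by omega)
      have h3 : ((D1 : ℝ) / (n - D1)) = q := by rw [hq, hD1]
      rw [h3] at h2
      refine h2.trans (le_of_eq ?_)
      rw [ha]
      congr 2
      ring
    have hcard : ((Finset.Ico (Dm - j + 1) (Dm - j + j + 1)).card : ℝ) ≤ n + 1 := by
      rw [Nat.card_Ico]
      have : Dm - j + j + 1 - (Dm - j + 1) ≤ n + 1 := by omega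
      exact_mod_cast this
    have h4 : tau (TT p (fun j => KClause.toClause (Φ j)) E) q (Dm - j) j ≤
        (n + 1) * ((n + 1) * a * Real.exp (-((3 * s0 : ℕ) : ℝ) * ((3 * s0 : ℕ) - 1) / (2 * n))) := by
      refine h1.trans ((Finset.sum_le_sum hterm).trans ?_)
      rw [Finset.sum_const, nsmul_eq_mul]
      exact mul_le_mul_of_nonneg_right hcard (by positivity)
    calc N * tau (TT p (fun j => KClause.toClause (Φ j)) E) q (Dm - j) j
        ≤ N * ((n + 1) * ((n + 1) * a * Real.exp (-((3 * s0 : ℕ) : ℝ) * ((3 * s0 : ℕ) - 1) / (2 * n)))) :=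
          mul_le_mul_of_nonneg_left h4 (by positivity)
      _ ≤ N * ((n + 1) * ((n + 1) * (2 * X * U) * Real.exp (-((3 * s0 : ℕ) : ℝ) * ((3 * s0 : ℕ) - 1) / (2 * n)))) := by
          refine mul_le_mul_of_nonneg_left ?_ (by positivity)
          refine mul_le_mul_of_nonneg_left ?_ (by positivity)
          refine mul_le_mul_of_nonneg_right ?_ (Real.exp_pos _).le
          exact mul_le_mul_of_nonneg_left haU (by positivity)
      _ = (2 * N * ((n : ℝ) + 1) ^ 2 * Real.exp (-((3 * s0 : ℕ) : ℝ) * ((3 * s0 : ℕ) - 1) / (2 * n)) * X) * U := by ring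
      _ ≤ 1 / 8 * U := by
          refine mul_le_mul_of_nonneg_right ?_ hU0.le
          rw [hs0]
          exact hc3
      _ = U / 8 := by ring
  -- the parameters of the core
  obtain ⟨Δ, hΔ⟩ : ∃ Δ, Δ = e * (p - 1) * w1 + 1 := ⟨_, rfl⟩
  obtain ⟨u, hu⟩ : ∃ u, u = p - 1 := ⟨_, rfl⟩
  have hu1 : 1 ≤ u := by omega
  rw [← hu] at hb1 hb5 hc2 hΔ
  obtain ⟨B, hB⟩ : ∃ B, B = 2 * e ^ 2 * u * w1 := ⟨_, rfl⟩
  rw [← hB] at hb1 hb5 hc2
  have hBB : B ≤ u * B := Nat.le_mul_of_pos_left B (by omega)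
  have heB : e * (e * u * w1) * 2 = B := by rw [hB]; ring
  have huw : 1 ≤ u * w1 := Nat.mul_pos (by omega) (by omega)
  have hex : e ≤ e * (e * u * w1) := by
    have : 1 ≤ e * u * w1 := by
      rw [mul_assoc]
      exact Nat.mul_pos (by omega) huw
    exact Nat.le_mul_of_pos_right e this
  have heΔ : e * Δ ≤ B := by
    rw [hΔ, Nat.mul_add, mul_one]
    omega
  have heΔ' : Δ ≤ e * Δ := Nat.le_mul_of_pos_left Δ (by omega)
  have heB' : e ≤ B := by omega
  intro hR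
  refine H91D2.core (q := q) (w1 := w1) (w2 := w2) (Δ := Δ) (D1 := e * Δ) (Dm := Dm) (d := E) (k := k)
    (fun j => KClause.toClause (Φ j)) hkk hq0 hq1 (by rw [hΔ, hu]) rfl (by omega) (by omega) ?_ ?_ ?_ hR
  · -- budget 1
    have h1 : e * (p + 1) ≤ (p + 2) * B := by
      calc e * (p + 1) ≤ B * (p + 2) := Nat.mul_le_mul heB' (by omega)
        _ = (p + 2) * B := Nat.mul_comm _ _
    have h2 : (p + 2) * B + 2 * B ≤ ((f + 3 + 2 * s + 2) * (s + 1) + p + 2) * (u * B + B) := by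
      calc (p + 2) * B + 2 * B = (p + 4) * B := by ring
        _ ≤ ((f + 3 + 2 * s + 2) * (s + 1) + p + 2) * (u * B + B) := by
            refine Nat.mul_le_mul ?_ (by omega)
            have : 1 * 1 ≤ (f + 3 + 2 * s) * (s + 1) := Nat.mul_le_mul (by omega) (by omega)
            nlinarith
    omega
  · -- budget 2
    have h1 : e * Δ * (p - 1) * w2 ≤ u * B * u * w2 := by
      rw [← hu]
      refine Nat.mul_le_mul_right w2 (Nat.mul_le_mul_right u ?_)
      omega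
    have h2 : (f + 3) * ((s + 1) * (e * Δ) + k + 1) = (f + 3) * ((s + 1) * (e * Δ)) + (f + 3) * k + (f + 3) := by ring
    have h3 : (f + 3) * ((s + 1) * (e * Δ)) + Δ + e + e * Δ + e * Δ * (p + 1) ≤
        ((f + 3 + 2 * s + 2) * (s + 1) + p + 2) * (u * B + B) := by
      have h4 : (f + 3) * ((s + 1) * (e * Δ)) + Δ + e + e * Δ + e * Δ * (p + 1) ≤
          ((f + 3) * (s + 1) + p + 4) * B := by
        calc (f + 3) * ((s + 1) * (e * Δ)) + Δ + e + e * Δ + e * Δ * (p + 1)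
            ≤ (f + 3) * ((s + 1) * B) + B + B + B + B * (p + 1) := by
              refine Nat.add_le_add (Nat.add_le_add (Nat.add_le_add (Nat.add_le_add ?_ (by omega)) heB') heΔ) ?_
              · exact Nat.mul_le_mul_left _ (Nat.mul_le_mul_left _ heΔ)
              · exact Nat.mul_le_mul_right _ heΔ
          _ = ((f + 3) * (s + 1) + p + 4) * B := by ring
      refine h4.trans (Nat.mul_le_mul ?_ (by omega))
      have h5 : (f + 3) * (s + 1) + 2 ≤ (f + 3 + 2 * s + 2) * (s + 1) := by nlinarith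
      omega
    have h6 : (f + 3) * k + (f + 3) ≤ (f + 3 + 1) * k := by
      have : (f + 3 + 1) * k = (f + 3) * k + k := by ring
      omega
    rw [h2]
    omega
  · -- the inequality
    have hth : ∀ (i j : ℕ), i ≤ j → 0 ≤ 1 - (1 - 1 / (p : ℝ)) * q ^ i ∧
        1 - (1 - 1 / (p : ℝ)) * q ^ i ≤ 1 - (1 - 1 / (p : ℝ)) * q ^ j := by
      intro i j hij
      have hp0 : (0 : ℝ) < p := by exact_mod_cast (by omega : 0 < p)
      have h1 : (0 : ℝ) ≤ 1 - 1 / (p : ℝ) := by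
        rw [sub_nonneg, div_le_one hp0]
        exact_mod_cast (by omega : 1 ≤ p)
      have h2 : 1 - 1 / (p : ℝ) ≤ 1 := by
        have : 0 ≤ 1 / (p : ℝ) := by positivity
        linarith
      have h3 : q ^ i ≤ 1 := pow_le_one₀ hq0.le hq1
      have h4 : 0 ≤ q ^ i := pow_nonneg hq0.le _
      have h5 : q ^ j ≤ q ^ i := pow_le_pow_of_le_one hq0.le hq1 hij
      constructor
      · have := mul_le_one₀ h2 h4 h3
        linarith
      · have := mul_le_mul_of_nonneg_left h5 h1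
        linarith
    have he1 : e ≤ 2 * e ^ 2 := by nlinarith
    have t1 : N * ((1 - (1 - 1 / (p : ℝ)) * q ^ e) ^ w1 * U) ≤ U / 8 := by
      have h1 := hth e (2 * e ^ 2) he1
      have h2 := pow_le_pow_left₀ h1.1 h1.2 w1
      calc N * ((1 - (1 - 1 / (p : ℝ)) * q ^ e) ^ w1 * U)
          ≤ N * ((1 - (1 - 1 / (p : ℝ)) * q ^ (2 * e ^ 2)) ^ w1 * U) :=
            mul_le_mul_of_nonneg_left (mul_le_mul_of_nonneg_right h2 hU0.le) (by positivity)
        _ = (N * (1 - (1 - 1 / (p : ℝ)) * q ^ (2 * e ^ 2)) ^ w1) * U := by ring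
        _ ≤ 1 / 8 * U := mul_le_mul_of_nonneg_right hc1 hU0.le
        _ = U / 8 := by ring
    have t2 : N * ((1 - (1 - 1 / (p : ℝ)) * q ^ (e * Δ)) ^ w2 * U) ≤ U / 8 := by
      have h1 := hth (e * Δ) (u * B) (by omega)
      have h2 := pow_le_pow_left₀ h1.1 h1.2 w2
      calc N * ((1 - (1 - 1 / (p : ℝ)) * q ^ (e * Δ)) ^ w2 * U)
          ≤ N * ((1 - (1 - 1 / (p : ℝ)) * q ^ (u * B)) ^ w2 * U) :=
            mul_le_mul_of_nonneg_left (mul_le_mul_of_nonneg_right h2 hU0.le) (by positivity)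
        _ = (N * (1 - (1 - 1 / (p : ℝ)) * q ^ (u * B)) ^ w2) * U := by ring
        _ ≤ 1 / 8 * U := mul_le_mul_of_nonneg_right hc2 hU0.le
        _ = U / 8 := by ring
    have t3 := htau e (by omega)
    have t4 := htau (e * Δ) (by omega)
    rw [← hU]
    have : (N : ℝ) * ((tau (TT p (fun j => KClause.toClause (Φ j)) E) q (Dm - e) e +
        (1 - (1 - 1 / (p : ℝ)) * q ^ e) ^ w1 * U) +
        (tau (TT p (fun j => KClause.toClause (Φ j)) E) q (Dm - e * Δ) (e * Δ) +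
        (1 - (1 - 1 / (p : ℝ)) * q ^ (e * Δ)) ^ w2 * U)) =
        N * tau (TT p (fun j => KClause.toClause (Φ j)) E) q (Dm - e) e +
        N * ((1 - (1 - 1 / (p : ℝ)) * q ^ e) ^ w1 * U) +
        N * tau (TT p (fun j => KClause.toClause (Φ j)) E) q (Dm - e * Δ) (e * Δ) +
        N * ((1 - (1 - 1 / (p : ℝ)) * q ^ (e * Δ)) ^ w2 * U) := by ring
    rw [this]
    linarith

theorem main (p e f s : ℕ) [Fact p.Prime] (he : 1 ≤ e) : ∃ C : ℕ, 1 ≤ C ∧ ∀ k n m : ℕ, C ≤ k → 2 ^ k ≤ n →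
    m ≤ n * 2 ^ k →
    n * (Finset.univ.filter (fun Φ : Fin m → KClause n k => ∃ N,
      GateLines.Refutes p e f s (fun j => (Φ j).toClause) N ∧ N ^ C < n ^ Nat.sqrt k)).card ≤
      C * Fintype.card (KClause n k) ^ m := by
  have hp2 : 2 ≤ p := (Fact.out : p.Prime).two_le
  obtain ⟨C, hC1, hC⟩ := num1 p (2 * e ^ 2) (f + 3) s hp2 (by nlinarith)
  refine ⟨C + (f + 20000), by omega, ?_⟩
  intro k n m hk hn hm
  have hkC : C ≤ k := by omega
  have hn1 : 1 ≤ n := le_trans Nat.one_le_two_pow hn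
  have hr : 100 ≤ Nat.sqrt k := by
    have h00 : 20000 ≤ k := le_trans (le_trans (Nat.le_add_left 20000 f) (Nat.le_add_left _ C)) hk
    have h0 : 100 * 100 ≤ k := le_trans (by norm_num) h00
    exact Nat.le_sqrt.mpr h0
  obtain ⟨K, hK⟩ : ∃ K, K = Fintype.card (KClause n k) := ⟨_, rfl⟩
  obtain ⟨D1, hD1⟩ : ∃ D1, D1 = n / 2 - 12 * (n / Nat.sqrt k) := ⟨_, rfl⟩
  -- the three exceptional sets
  have h1 := hx_count (n := n) (k := k) (m := m) hr hn hm
  have h2 := h2_count (n := n) (k := k) (m := m) hr hn hm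
  have h3 := bad_avg (n := n) (k := k) (m := m) hr hn hm
  have h4 := num2 (n := n) (k := k) hr hn
  set A1 := Finset.univ.filter (fun Φ : Fin m → DepthTwo.KClause n k =>
      ¬ HX (SSk Φ) (n / 2 - 4 * (n / Nat.sqrt k)) (n / Nat.sqrt k)) with hA1
  set A2 := Finset.univ.filter (fun Φ : Fin m → DepthTwo.KClause n k =>
      ¬ ∀ J : Finset (Fin m), J.Nonempty → J.card ≤ n / Nat.sqrt k → J.card < (vs (SSk Φ) J).card) with hA2
  set A3 := Finset.univ.filter (fun Φ : Fin m → DepthTwo.KClause n k =>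
      HX (SSk Φ) (n / 2 - 4 * (n / Nat.sqrt k)) (n / Nat.sqrt k) ∧
      n.choose (n / 2 - 12 * (n / Nat.sqrt k)) < 2 * ((Finset.powersetCard (n / 2 - 12 * (n / Nat.sqrt k))
        (Finset.univ : Finset (Fin n))).filter
          (fun T => n / 2 ^ (12 * Nat.sqrt k) < (Sup (SSk Φ) (n / Nat.sqrt k) T).card)).card) with hA3
  have hsub : (Finset.univ.filter (fun Φ : Fin m → KClause n k => ∃ N,
      GateLines.Refutes p e f s (fun j => (Φ j).toClause) N ∧ N ^ (C + (f + 20000)) < n ^ Nat.sqrt k)) ⊆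
      A1 ∪ (A2 ∪ A3) := by
    intro Φ hΦ
    obtain ⟨N, hR, hNn⟩ := (Finset.mem_filter.mp hΦ).2
    by_contra hcon
    rw [Finset.mem_union, Finset.mem_union, not_or, not_or] at hcon
    obtain ⟨c1, c2, c3⟩ := hcon
    have hX : HX (SSk Φ) (n / 2 - 4 * (n / Nat.sqrt k)) (n / Nat.sqrt k) := by
      by_contra h
      exact c1 (Finset.mem_filter.mpr ⟨Finset.mem_univ _, h⟩)
    have hX2 : ∀ J : Finset (Fin m), J.Nonempty → J.card ≤ n / Nat.sqrt k → J.card < (vs (SSk Φ) J).card := by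
      by_contra h
      exact c2 (Finset.mem_filter.mpr ⟨Finset.mem_univ _, h⟩)
    have hbad : 2 * ((Finset.powersetCard (n / 2 - 12 * (n / Nat.sqrt k)) (Finset.univ : Finset (Fin n))).filter
      (fun T => n / 2 ^ (12 * Nat.sqrt k) < (Sup (SSk Φ) (n / Nat.sqrt k) T).card)).card ≤
        n.choose (n / 2 - 12 * (n / Nat.sqrt k)) := by
      by_contra h
      exact c3 (Finset.mem_filter.mpr ⟨Finset.mem_univ _, hX, not_le.mp h⟩)
    have hN1 : 1 ≤ N := by
      obtain ⟨M, G, l, _, h, _⟩ := hR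
      exact h
    have hNC : N ^ C < n ^ Nat.sqrt k :=
      lt_of_le_of_lt (Nat.pow_le_pow_right hN1 (by omega)) hNn
    obtain ⟨_, w1, w2, b1, b2, b3, b4, b5, b6, b7⟩ := hC k n N hkC hn hN1 hNC
    obtain ⟨q0, q1, q2, q3, q4⟩ := b7 _ rfl
    exact det he Φ hn (by omega) hN1 hr b1 b2 b3 b4 b5 b6 rfl q0 q1 q2 q3 q4 hX hX2 hbad hR
  have hcard := (Finset.card_le_card hsub).trans
    ((Finset.card_union_le _ _).trans (Nat.add_le_add_left (Finset.card_union_le _ _) _))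
  have hK' : Fintype.card (DepthTwo.KClause n k) = K := hK.symm
  rw [hK'] at h1 h2 h3
  rw [← hK]
  have h5 : 2 * n * A3.card ≤ 2 * K ^ m := by
    calc 2 * n * A3.card ≤ 2 ^ (n / 2 ^ (12 * Nat.sqrt k)) * A3.card := Nat.mul_le_mul_right _ h4
      _ = A3.card * 2 ^ (n / 2 ^ (12 * Nat.sqrt k)) := Nat.mul_comm _ _
      _ ≤ 2 * K ^ m := h3
  have h6 : n * (Finset.univ.filter (fun Φ : Fin m → KClause n k => ∃ N,
      GateLines.Refutes p e f s (fun j => (Φ j).toClause) N ∧ N ^ (C + (f + 20000)) < n ^ Nat.sqrt k)).card ≤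
      n * (A1.card + (A2.card + A3.card)) := Nat.mul_le_mul_left n hcard
  have h7 : n * (A1.card + (A2.card + A3.card)) = n * A1.card + n * A2.card + n * A3.card := by ring
  have h8 : 4 * n * A1.card = 4 * (n * A1.card) := by ring
  have h9 : 4 * n * A2.card = 4 * (n * A2.card) := by ring
  have h10 : 2 * n * A3.card = 2 * (n * A3.card) := by ring
  rw [h8] at h1
  rw [h9] at h2
  rw [h10] at h5
  have h11 : 3 * K ^ m ≤ (C + (f + 20000)) * K ^ m := Nat.mul_le_mul_right _ (by omega)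
  omega

/-- Nearly all formulas with `n 2^k` clauses are unsatisfiable. -/
theorem unsat {k n m : ℕ} (hn : 16 ≤ n) (hm : n * 2 ^ k ≤ m) :
    n * (Finset.univ.filter (fun Φ : Fin m → KClause n k => ∃ x, ∀ j, (Φ j).toClause.Holds x)).card ≤
      Fintype.card (KClause n k) ^ m := by
  have h := H62RC.unsat_count (n := n) (k := k) (m := m) hn hm
  refine le_trans (Nat.mul_le_mul_left n (Finset.card_le_card ?_)) h
  intro Φ hΦ
  obtain ⟨x, hx⟩ := (Finset.mem_filter.mp hΦ).2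
  refine Finset.mem_filter.mpr ⟨Finset.mem_univ _, x, fun j => ?_⟩
  obtain ⟨l, hl, hlx⟩ := hx j
  unfold KClause.toClause at hl
  obtain ⟨i, _, rfl⟩ := Finset.mem_image.mp hl
  exact ⟨((Φ j).1 i, (Φ j).2 i), ⟨i, rfl⟩, hlx⟩

end H33D3
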