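import Pool.Agent.H33.D3.Defs
import Pool.Agent.H85.SD.Deg
import Pool.Agent.H85.SD.Lem

/-!
Internal definitions (helper33).
-/

set_option autoImplicit false
open scoped Classical

namespace H33D3

open SizeDegree DepthTwo H85SD

/-- Functions on assignments. -/
abbrev Fn (p n : ℕ) := Pt n → ZMod p

/-- The truth values of the gates given by the approximations `a G` of `the gate is false`. -/
def nu {p n : ℕ} (a : Gate p n → Fn p n) (x : Pt n) (G : Gate p n) : Prop := a G x = 0

/-- The function of a form when the gates are replaced by `1 - a G`. -/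
noncomputable def hat {p n : ℕ} (a : Gate p n → Fn p n) (F : Form p n) : Fn p n :=
  fun x => if F.Val x (nu a x) then 1 else 0

/-- The indicator of the assignments which falsify a clause. -/
noncomputable def fc {p n k : ℕ} (C : KClause n k) : Fn p n := fun x => if KHolds C x then 0 else 1

/-- `a` approximates the falsity of the disjunction of the functions in `L`, relative to `f` and `K`. -/
def Apx {p n : ℕ} (T : TB p (Fn p n)) (f a : Fn p n) (L : Set (Fn p n)) (b : ℕ) : Prop :=
  a ∈ T.P b ∧ a * a = a ∧ (∀ g ∈ L, f * (a * g) ∈ T.K) ∧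
    ∃ (m : ℕ) (c g : Fin m → Fn p n), (∀ i, c i ∈ T.P b) ∧ (∀ i, g i ∈ L) ∧ 1 - a = ∑ i, c i * g i

end H33D3
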