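import Pool.Agent.H33.D3.Sc

/-!
ROW Rc (for a fixed T almost no formula has a large set of clauses with deficiency ≤ 0; about 200 lines).  PROOF.  r = sqrt k, s0 = n / r, s1 = n / 2^(12 r).  If |vs J - T| ≤ |J| = s ≤ s0 then vs J ⊆ T ∪ Z with |Z| = s (s ≤ n), |T ∪ Z| ≤ n/2 - 12 s0 + s0 = n/2 - 11 s0.
By sub_count # ≤ ∑_{s1 < s ≤ s0} C(m,s) C(n,s) K^m (1/2 - 11 s0/n)^(k s).  2^k (1/2 - 11 s0/n)^k ≤ exp(-22 k s0/n) ≤ exp(-19 r) (s0 ≥ 0.9 n/r, k ≥ r^2); C(m,s) ≤ (exp 1 * n 2^k/s)^s, C(n,s) ≤ (exp 1 * n/s)^s.  So the s-term is ≤ K^m (exp 2 * (n/s)^2 exp(-19 r))^s.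
s > n/2^(12 r) gives (n/s)^2 ≤ 2^(24 r) ≤ exp(16.7 r) (log 2 ≤ 0.6932, `Real.log_two_lt_d9`), exp(2 - 2.3 r) ≤ 1/2.  So the s-term is ≤ K^m 2^(-s), the sum over s > s1 is ≤ K^m 2^(-s1).
-/

set_option autoImplicit false
open scoped Classical

namespace H33D3

open DepthTwo

theorem rc_choose {m s : ℕ} (hs : 1 ≤ s) : (m.choose s : ℝ) ≤ (Real.exp 1 * m / s) ^ s := by
  have hs0 : (0 : ℝ) < s := by exact_mod_cast hs
  have h1 : (m.choose s : ℝ) ≤ (m : ℝ) ^ s / (s.factorial : ℝ) := Nat.choose_le_pow_div s m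
  have h2 : (s : ℝ) ^ s / (s.factorial : ℝ) ≤ Real.exp s := Real.pow_div_factorial_le_exp s hs0.le s
  have h3 : (m : ℝ) ^ s / (s.factorial : ℝ) = ((m : ℝ) / s) ^ s * ((s : ℝ) ^ s / (s.factorial : ℝ)) := by
    rw [div_pow]
    field_simp
  have h4 : Real.exp (s : ℝ) = Real.exp 1 ^ s := by
    rw [← Real.exp_nat_mul, mul_one]
  calc (m.choose s : ℝ) ≤ (m : ℝ) ^ s / (s.factorial : ℝ) := h1
    _ = ((m : ℝ) / s) ^ s * ((s : ℝ) ^ s / (s.factorial : ℝ)) := h3
    _ ≤ ((m : ℝ) / s) ^ s * Real.exp 1 ^ s := by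
        rw [← h4]
        exact mul_le_mul_of_nonneg_left h2 (by positivity)
    _ = (Real.exp 1 * m / s) ^ s := by
        rw [← mul_pow]
        congr 1
        ring

theorem rc_base {n k s t : ℕ} (hr : 100 ≤ Nat.sqrt k) (hn : 2 ^ k ≤ n) (hs : n / 2 ^ (12 * Nat.sqrt k) < s)
    (ht : t ≤ n / 2 - 11 * (n / Nat.sqrt k)) (h11 : 11 * (n / Nat.sqrt k) ≤ n / 2) :
    (Real.exp 1 * ((n * 2 ^ k : ℕ) : ℝ) / s) * (Real.exp 1 * n / s) * ((t : ℝ) / n) ^ k ≤ 1 / 2 := by
  obtain ⟨r, hrdef⟩ : ∃ r, r = Nat.sqrt k := ⟨_, rfl⟩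
  rw [← hrdef] at hr hs ht h11
  have hrk : r * r ≤ k := by
    rw [hrdef]
    exact Nat.sqrt_le k
  have hr0 : (0 : ℝ) < r := by exact_mod_cast (by omega : 0 < r)
  have hk1 : 1 ≤ k := by nlinarith
  have hkr : r ≤ k := by nlinarith
  have hn10 : 10 * r ≤ n := by
    have h1 : k < 2 ^ k := Nat.lt_two_pow_self
    have h2 : 10 * r ≤ r * r := Nat.mul_le_mul_right r (by omega)
    omega
  have hn0 : (0 : ℝ) < n := by exact_mod_cast (by omega : 0 < n)
  have hs1 : 1 ≤ s := Nat.succ_le_of_lt (lt_of_le_of_lt (Nat.zero_le _) hs)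
  have hs0 : (0 : ℝ) < s := by exact_mod_cast hs1
  -- the ratio n / s
  have hns : (n : ℝ) / s ≤ 2 ^ (12 * r) := by
    rw [div_le_iff₀ hs0]
    have h1 : n < s * 2 ^ (12 * r) := (Nat.div_lt_iff_lt_mul (by positivity)).mp hs
    have h2 : (n : ℝ) < s * 2 ^ (12 * r) := by exact_mod_cast h1
    linarith
  -- s0 / n
  have hs0n : (0.9 : ℝ) / r ≤ ((n / r : ℕ) : ℝ) / n := by
    have h1 : n < (n / r + 1) * r := Nat.lt_mul_of_div_lt (Nat.lt_succ_self _) (by omega)
    have h2 : (n : ℝ) < (((n / r : ℕ) : ℝ) + 1) * r := by exact_mod_cast h1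
    have h3 : (10 : ℝ) * r ≤ n := by exact_mod_cast hn10
    rw [div_le_div_iff₀ hr0 hn0]
    nlinarith
  have htn : 2 * ((t : ℝ) / n) ≤ 1 - 22 * (((n / r : ℕ) : ℝ) / n) := by
    have h1 : 2 * t + 22 * (n / r) ≤ n := by omega
    have h2 : 2 * (t : ℝ) + 22 * ((n / r : ℕ) : ℝ) ≤ n := by exact_mod_cast h1
    have h3 : 2 * ((t : ℝ) / n) + 22 * (((n / r : ℕ) : ℝ) / n) ≤ 1 := by
      have : 2 * ((t : ℝ) / n) + 22 * (((n / r : ℕ) : ℝ) / n) = (2 * (t : ℝ) + 22 * ((n / r : ℕ) : ℝ)) / n := by ring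
      rw [this, div_le_one hn0]
      exact h2
    linarith
  have hexp : (2 * ((t : ℝ) / n)) ^ k ≤ Real.exp (-(19 * r)) := by
    have h1 : 2 * ((t : ℝ) / n) ≤ Real.exp (-(22 * (((n / r : ℕ) : ℝ) / n))) := by
      have h2 := Real.add_one_le_exp (-(22 * (((n / r : ℕ) : ℝ) / n)))
      linarith
    calc (2 * ((t : ℝ) / n)) ^ k ≤ (Real.exp (-(22 * (((n / r : ℕ) : ℝ) / n)))) ^ k :=
          pow_le_pow_left₀ (by positivity) h1 k
      _ = Real.exp (k * (-(22 * (((n / r : ℕ) : ℝ) / n)))) := (Real.exp_nat_mul _ k).symm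
      _ ≤ Real.exp (-(19 * r)) := by
          apply Real.exp_le_exp.mpr
          have h3 : ((r : ℝ) * r) ≤ k := by exact_mod_cast hrk
          have h4 : (0.9 : ℝ) / r * (r * r) ≤ (((n / r : ℕ) : ℝ) / n) * k :=
            mul_le_mul hs0n h3 (by positivity) (by positivity)
          have h5 : (0.9 : ℝ) / r * (r * r) = 0.9 * r := by
            field_simp
          rw [h5] at h4
          nlinarith
  have h2r : ((2 : ℝ) ^ (12 * r)) ^ 2 ≤ Real.exp (16.7 * r) := by
    have h1 : (2 : ℝ) ≤ Real.exp 0.6932 := by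
      have h2 := Real.log_two_lt_d9
      have h3 : Real.log 2 ≤ 0.6932 := by linarith
      calc (2 : ℝ) = Real.exp (Real.log 2) := (Real.exp_log (by norm_num)).symm
        _ ≤ Real.exp 0.6932 := Real.exp_le_exp.mpr h3
    calc ((2 : ℝ) ^ (12 * r)) ^ 2 = 2 ^ (24 * r) := by
          rw [← pow_mul]
          congr 1
          ring
      _ ≤ (Real.exp 0.6932) ^ (24 * r) := pow_le_pow_left₀ (by norm_num) h1 _
      _ = Real.exp (((24 * r : ℕ) : ℝ) * 0.6932) := (Real.exp_nat_mul _ _).symm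
      _ ≤ Real.exp (16.7 * r) := by
          apply Real.exp_le_exp.mpr
          push_cast
          nlinarith
  have hid : (Real.exp 1 * ((n * 2 ^ k : ℕ) : ℝ) / s) * (Real.exp 1 * n / s) * ((t : ℝ) / n) ^ k =
      Real.exp 2 * ((n : ℝ) / s) ^ 2 * (2 * ((t : ℝ) / n)) ^ k := by
    have h1 : Real.exp 2 = Real.exp 1 * Real.exp 1 := by
      rw [← Real.exp_add]
      norm_num
    rw [h1, mul_pow 2 ((t : ℝ) / n) k]
    push_cast
    ring
  rw [hid]
  have h6 : ((n : ℝ) / s) ^ 2 ≤ Real.exp (16.7 * r) := (pow_le_pow_left₀ (by positivity) hns 2).trans h2r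
  have h100 : (100 : ℝ) ≤ r := by exact_mod_cast hr
  calc Real.exp 2 * ((n : ℝ) / s) ^ 2 * (2 * ((t : ℝ) / n)) ^ k
      ≤ Real.exp 2 * Real.exp (16.7 * r) * Real.exp (-(19 * r)) :=
        mul_le_mul (mul_le_mul_of_nonneg_left h6 (Real.exp_pos _).le) hexp (by positivity) (by positivity)
    _ = Real.exp (2 + 16.7 * r + -(19 * r)) := by rw [← Real.exp_add, ← Real.exp_add]
    _ ≤ Real.exp (-1) := Real.exp_le_exp.mpr (by linarith)
    _ ≤ 1 / 2 := by
        have h7 : (2 : ℝ) ≤ Real.exp 1 := by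
          have := Real.add_one_le_exp (1 : ℝ)
          linarith
        rw [Real.exp_neg, inv_eq_one_div]
        exact one_div_le_one_div_of_le (by norm_num) h7

theorem bad_count {n k m : ℕ} (hr : 100 ≤ Nat.sqrt k) (hn : 2 ^ k ≤ n) (hm : m ≤ n * 2 ^ k) (T : Finset (Fin n))
    (hT : T.card ≤ n / 2 - 12 * (n / Nat.sqrt k)) :
    (Finset.univ.filter (fun Φ : Fin m → KClause n k => ∃ J : Finset (Fin m), n / 2 ^ (12 * Nat.sqrt k) < J.card ∧
      J.card ≤ n / Nat.sqrt k ∧ (vs (SSk Φ) J \ T).card ≤ J.card)).card * 2 ^ (n / 2 ^ (12 * Nat.sqrt k)) ≤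
      Fintype.card (KClause n k) ^ m := by
  obtain ⟨K, hK⟩ : ∃ K, K = Fintype.card (KClause n k) := ⟨_, rfl⟩
  obtain ⟨r, hrdef⟩ : ∃ r, r = Nat.sqrt k := ⟨_, rfl⟩
  obtain ⟨s0, hs0⟩ : ∃ s0, s0 = n / Nat.sqrt k := ⟨_, rfl⟩
  obtain ⟨s1, hs1⟩ : ∃ s1, s1 = n / 2 ^ (12 * Nat.sqrt k) := ⟨_, rfl⟩
  have hn1 : 1 ≤ n := le_trans Nat.one_le_two_pow hn
  have hn0 : (0 : ℝ) < n := by exact_mod_cast hn1
  have h24 : 24 * (n / Nat.sqrt k) ≤ n := by
    have h1 : n / Nat.sqrt k ≤ n / 24 := Nat.div_le_div_left (by omega) (by norm_num)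
    omega
  rw [← hs1, ← hs0, ← hK]
  have h11 : 11 * s0 ≤ n / 2 := by omega
  -- covering
  have hcov : (Finset.univ.filter (fun Φ : Fin m → KClause n k => ∃ J : Finset (Fin m), s1 < J.card ∧
      J.card ≤ s0 ∧ (vs (SSk Φ) J \ T).card ≤ J.card)) ⊆
      (Finset.Ioc s1 s0).biUnion (fun s => (Finset.powersetCard s (Finset.univ : Finset (Fin m))).biUnion
        (fun J => (Finset.powersetCard s (Finset.univ : Finset (Fin n))).biUnion
          (fun Z => Finset.univ.filter (fun Φ : Fin m → KClause n k => vs (SSk Φ) J ⊆ T ∪ Z)))) := by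
    intro Φ hΦ
    obtain ⟨J, h1, h2, h3⟩ := (Finset.mem_filter.mp hΦ).2
    have h4 : J.card ≤ (Finset.univ : Finset (Fin n)).card := by
      rw [Finset.card_univ, Fintype.card_fin]
      omega
    obtain ⟨Z, hZ1, hZ2, hZ3⟩ := Finset.exists_subsuperset_card_eq (Finset.subset_univ (vs (SSk Φ) J \ T)) h3 h4
    rw [Finset.mem_biUnion]
    refine ⟨J.card, Finset.mem_Ioc.mpr ⟨h1, h2⟩, ?_⟩
    rw [Finset.mem_biUnion]
    refine ⟨J, Finset.mem_powersetCard.mpr ⟨Finset.subset_univ _, rfl⟩, ?_⟩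
    rw [Finset.mem_biUnion]
    refine ⟨Z, Finset.mem_powersetCard.mpr ⟨Finset.subset_univ _, hZ3⟩, ?_⟩
    rw [Finset.mem_filter]
    refine ⟨Finset.mem_univ _, ?_⟩
    intro v hv
    rw [Finset.mem_union]
    by_cases hvT : v ∈ T
    · exact Or.inl hvT
    · exact Or.inr (hZ1 (Finset.mem_sdiff.mpr ⟨hv, hvT⟩))
  -- one term
  have hterm : ∀ s ∈ Finset.Ioc s1 s0, (((Finset.powersetCard s (Finset.univ : Finset (Fin m))).biUnion
        (fun J => (Finset.powersetCard s (Finset.univ : Finset (Fin n))).biUnion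
          (fun Z => Finset.univ.filter (fun Φ : Fin m → KClause n k => vs (SSk Φ) J ⊆ T ∪ Z)))).card : ℝ) ≤
      (K : ℝ) ^ m * (1 / 2) ^ s := by
    intro s hs
    rw [Finset.mem_Ioc] at hs
    have hs1' : 1 ≤ s := by omega
    obtain ⟨t, ht⟩ : ∃ t, t = n / 2 - 11 * s0 := ⟨_, rfl⟩
    have h1 : (((Finset.powersetCard s (Finset.univ : Finset (Fin m))).biUnion
        (fun J => (Finset.powersetCard s (Finset.univ : Finset (Fin n))).biUnion
          (fun Z => Finset.univ.filter (fun Φ : Fin m → KClause n k => vs (SSk Φ) J ⊆ T ∪ Z)))).card : ℝ) ≤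
        (m.choose s : ℝ) * ((n.choose s : ℝ) * ((K : ℝ) ^ m * ((t : ℝ) / n) ^ (k * s))) := by
      have h2 : ∀ J ∈ Finset.powersetCard s (Finset.univ : Finset (Fin m)),
          (((Finset.powersetCard s (Finset.univ : Finset (Fin n))).biUnion
          (fun Z => Finset.univ.filter (fun Φ : Fin m → KClause n k => vs (SSk Φ) J ⊆ T ∪ Z))).card : ℝ) ≤
          (n.choose s : ℝ) * ((K : ℝ) ^ m * ((t : ℝ) / n) ^ (k * s)) := by
        intro J hJ
        have hJs : J.card = s := (Finset.mem_powersetCard.mp hJ).2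
        have h3 : ∀ Z ∈ Finset.powersetCard s (Finset.univ : Finset (Fin n)),
            ((Finset.univ.filter (fun Φ : Fin m → KClause n k => vs (SSk Φ) J ⊆ T ∪ Z)).card : ℝ) ≤
            (K : ℝ) ^ m * ((t : ℝ) / n) ^ (k * s) := by
          intro Z hZ
          have hZs : Z.card = s := (Finset.mem_powersetCard.mp hZ).2
          have h4 := sub_count (k := k) (m := m) hn1 J (T ∪ Z)
          rw [hJs, ← hK] at h4
          refine h4.trans (mul_le_mul_of_nonneg_left ?_ (by positivity))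
          refine pow_le_pow_left₀ (by positivity) ?_ _
          refine div_le_div_of_nonneg_right ?_ hn0.le
          have h5 := Finset.card_union_le T Z
          have h6 : (T ∪ Z).card ≤ t := by omega
          exact_mod_cast h6
        have h7 := Finset.card_biUnion_le (s := Finset.powersetCard s (Finset.univ : Finset (Fin n)))
          (t := fun Z => Finset.univ.filter (fun Φ : Fin m → KClause n k => vs (SSk Φ) J ⊆ T ∪ Z))
        have h8 : (((Finset.powersetCard s (Finset.univ : Finset (Fin n))).biUnion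
          (fun Z => Finset.univ.filter (fun Φ : Fin m → KClause n k => vs (SSk Φ) J ⊆ T ∪ Z))).card : ℝ) ≤
            ∑ Z ∈ Finset.powersetCard s (Finset.univ : Finset (Fin n)),
              ((Finset.univ.filter (fun Φ : Fin m → KClause n k => vs (SSk Φ) J ⊆ T ∪ Z)).card : ℝ) := by
          exact_mod_cast h7
        refine h8.trans ((Finset.sum_le_sum h3).trans (le_of_eq ?_))
        rw [Finset.sum_const, Finset.card_powersetCard, Finset.card_univ, Fintype.card_fin, nsmul_eq_mul]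
      have h9 := Finset.card_biUnion_le (s := Finset.powersetCard s (Finset.univ : Finset (Fin m)))
          (t := fun J => (Finset.powersetCard s (Finset.univ : Finset (Fin n))).biUnion
          (fun Z => Finset.univ.filter (fun Φ : Fin m → KClause n k => vs (SSk Φ) J ⊆ T ∪ Z)))
      have h10 : (((Finset.powersetCard s (Finset.univ : Finset (Fin m))).biUnion
        (fun J => (Finset.powersetCard s (Finset.univ : Finset (Fin n))).biUnion
          (fun Z => Finset.univ.filter (fun Φ : Fin m → KClause n k => vs (SSk Φ) J ⊆ T ∪ Z)))).card : ℝ) ≤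
          ∑ J ∈ Finset.powersetCard s (Finset.univ : Finset (Fin m)),
            (((Finset.powersetCard s (Finset.univ : Finset (Fin n))).biUnion
          (fun Z => Finset.univ.filter (fun Φ : Fin m → KClause n k => vs (SSk Φ) J ⊆ T ∪ Z))).card : ℝ) := by
        exact_mod_cast h9
      refine h10.trans ((Finset.sum_le_sum h2).trans (le_of_eq ?_))
      rw [Finset.sum_const, Finset.card_powersetCard, Finset.card_univ, Fintype.card_fin, nsmul_eq_mul]
    refine h1.trans ?_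
    have hbase := rc_base (t := t) hr hn (by rw [← hs1]; exact hs.1) (by rw [← hs0, ht]) (by rw [← hs0]; exact h11)
    have hm' : (m : ℝ) ≤ ((n * 2 ^ k : ℕ) : ℝ) := by exact_mod_cast hm
    have hs0' : (0 : ℝ) < s := by exact_mod_cast hs1'
    have hcm : (m.choose s : ℝ) ≤ (Real.exp 1 * ((n * 2 ^ k : ℕ) : ℝ) / s) ^ s := by
      refine (rc_choose hs1').trans (pow_le_pow_left₀ (by positivity) ?_ s)
      exact div_le_div_of_nonneg_right (mul_le_mul_of_nonneg_left hm' (Real.exp_pos _).le) hs0'.le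
    have hcn : (n.choose s : ℝ) ≤ (Real.exp 1 * n / s) ^ s := rc_choose hs1'
    calc (m.choose s : ℝ) * ((n.choose s : ℝ) * ((K : ℝ) ^ m * ((t : ℝ) / n) ^ (k * s)))
        = (K : ℝ) ^ m * ((m.choose s : ℝ) * (n.choose s : ℝ) * ((t : ℝ) / n) ^ (k * s)) := by ring
      _ ≤ (K : ℝ) ^ m * ((Real.exp 1 * ((n * 2 ^ k : ℕ) : ℝ) / s) ^ s * (Real.exp 1 * n / s) ^ s *
            ((t : ℝ) / n) ^ (k * s)) := by
          refine mul_le_mul_of_nonneg_left ?_ (by positivity)
          refine mul_le_mul_of_nonneg_right ?_ (by positivity)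
          exact mul_le_mul hcm hcn (by positivity) (by positivity)
      _ = (K : ℝ) ^ m * ((Real.exp 1 * ((n * 2 ^ k : ℕ) : ℝ) / s) * (Real.exp 1 * n / s) * ((t : ℝ) / n) ^ k) ^ s := by
          rw [pow_mul, ← mul_pow, ← mul_pow]
      _ ≤ (K : ℝ) ^ m * (1 / 2) ^ s :=
          mul_le_mul_of_nonneg_left (pow_le_pow_left₀ (by positivity) hbase s) (by positivity)
  -- the sum
  have hsum : ((Finset.univ.filter (fun Φ : Fin m → KClause n k => ∃ J : Finset (Fin m), s1 < J.card ∧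
      J.card ≤ s0 ∧ (vs (SSk Φ) J \ T).card ≤ J.card)).card : ℝ) ≤ (K : ℝ) ^ m * (1 / 2) ^ s1 := by
    have h1 := (Finset.card_le_card hcov).trans Finset.card_biUnion_le
    have h2 : ((Finset.univ.filter (fun Φ : Fin m → KClause n k => ∃ J : Finset (Fin m), s1 < J.card ∧
      J.card ≤ s0 ∧ (vs (SSk Φ) J \ T).card ≤ J.card)).card : ℝ) ≤
        ∑ s ∈ Finset.Ioc s1 s0, (((Finset.powersetCard s (Finset.univ : Finset (Fin m))).biUnion
        (fun J => (Finset.powersetCard s (Finset.univ : Finset (Fin n))).biUnion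
          (fun Z => Finset.univ.filter (fun Φ : Fin m → KClause n k => vs (SSk Φ) J ⊆ T ∪ Z)))).card : ℝ) := by
      exact_mod_cast h1
    refine h2.trans ((Finset.sum_le_sum hterm).trans ?_)
    rw [← Finset.mul_sum]
    refine mul_le_mul_of_nonneg_left ?_ (by positivity)
    have h3 : ∀ a b : ℕ, ∑ s ∈ Finset.Ioc a (a + b), (1 / 2 : ℝ) ^ s = (1 / 2) ^ a - (1 / 2) ^ (a + b) := by
      intro a b
      induction b with
      | zero => simp
      | succ b ih =>
        rw [← add_assoc, Finset.sum_Ioc_succ_top (by omega), ih, pow_succ]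
        ring
    rcases le_total s1 s0 with h | h
    · obtain ⟨b, rfl⟩ := Nat.exists_eq_add_of_le h
      rw [h3]
      have : (0 : ℝ) ≤ (1 / 2) ^ (s1 + b) := by positivity
      linarith
    · rw [Finset.Ioc_eq_empty (by omega), Finset.sum_empty]
      positivity
  have h4 : ((Finset.univ.filter (fun Φ : Fin m → KClause n k => ∃ J : Finset (Fin m), s1 < J.card ∧
      J.card ≤ s0 ∧ (vs (SSk Φ) J \ T).card ≤ J.card)).card : ℝ) * 2 ^ s1 ≤ (K : ℝ) ^ m := by
    calc _ ≤ (K : ℝ) ^ m * (1 / 2) ^ s1 * 2 ^ s1 := mul_le_mul_of_nonneg_right hsum (by positivity)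
      _ = (K : ℝ) ^ m := by
          rw [mul_assoc, ← mul_pow]
          norm_num
  exact_mod_cast h4

end H33D3
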