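import Pool.Agent.H33.D3.Clo
import Pool.Agent.H33.RG.Nf

/-!
ROW Red (substituting the variables given by Hall's theorem; about 120 lines).  PROOF.  Compare `H33RG.red_erase`, `H33RG.subst`.  Let A ⊆ J and v injective on J - A with v j ∈ S j, v j ∉ T, v j ∉ vs A.  Define the substitution τ : X n → X n, (τ x) i = ! (σ j i) if i = v j for some
(unique by injectivity) j ∈ J - A, and x i otherwise, and the linear map g ↦ g ∘ τ (`LinearMap.funLeft`).  (1) g ∈ VJ J → g ∘ τ ∈ VJ A: let x make the clauses of A true (∀ j ∈ A, ¬ ∀ u ∈ S j, x u = σ j u); τ x makes the clauses of J - A true at the variable v j, and the clauses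
of A are unchanged because v j' ∉ vs A.  (2) mono T ∘ τ = mono T (v j ∉ T); mono T' ∘ τ = 0 or mono (T' - V) where V = the set of the v j; if V ∩ T' = ∅ it is mono T', otherwise |T' - V| < |T'| so o (T' - V) < o T' by Ord.  So the span of {mono T' : o T' < o T} is mapped into itself.
Hence Red o (VJ J) T → Red o (VJ A) T (same argument as in H33RG.red_erase).  red_sup: apply it with `hall`.
-/

set_option autoImplicit false
open scoped Classical

namespace H33D3

open H95RE H33RG

variable {F : Type} [Field F] {n : ℕ}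

/-- The substitution. -/
private noncomputable def Red_tau {M : ℕ} (σ : Fin M → X n) (K : Finset (Fin M)) (v : Fin M → Fin n) (x : X n) : X n :=
  fun i => if h : ∃ j ∈ K, v j = i then !(σ h.choose i) else x i

private theorem Red_tau_mem {M : ℕ} (σ : Fin M → X n) (K : Finset (Fin M)) (v : Fin M → Fin n)
    (hinj : Set.InjOn v (K : Finset (Fin M))) (x : X n) (j : Fin M) (hj : j ∈ K) :
    Red_tau σ K v x (v j) = !(σ j (v j)) := by
  have h : ∃ j' ∈ K, v j' = v j := ⟨j, hj, rfl⟩
  unfold Red_tau
  rw [dif_pos h]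
  have h2 : h.choose = j := hinj h.choose_spec.1 hj h.choose_spec.2
  rw [h2]

private theorem Red_tau_notMem {M : ℕ} (σ : Fin M → X n) (K : Finset (Fin M)) (v : Fin M → Fin n)
    (x : X n) (i : Fin n) (hi : ∀ j ∈ K, v j ≠ i) : Red_tau σ K v x i = x i := by
  unfold Red_tau
  rw [dif_neg]
  rintro ⟨j, hj, h⟩
  exact hi j hj h

private theorem Red_mono_of_disj {M : ℕ} (σ : Fin M → X n) (K : Finset (Fin M)) (v : Fin M → Fin n)
    (T : Finset (Fin n)) (hT : ∀ j ∈ K, v j ∉ T) (x : X n) :
    mono F T (Red_tau σ K v x) = mono F T x := by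
  rw [mono_apply, mono_apply]
  have h : (∀ i ∈ T, Red_tau σ K v x i = true) ↔ ∀ i ∈ T, x i = true := by
    refine forall₂_congr fun i hi => ?_
    rw [Red_tau_notMem σ K v x i]
    rintro j hj rfl
    exact hT j hj hi
  exact if_congr h rfl rfl

private theorem Red_mono_of_not_disj {M : ℕ} (σ : Fin M → X n) (K : Finset (Fin M)) (v : Fin M → Fin n)
    (hinj : Set.InjOn v (K : Finset (Fin M))) (T : Finset (Fin n)) (hT : ∃ j ∈ K, v j ∈ T) :
    ∃ (c : F) (T' : Finset (Fin n)), T'.card < T.card ∧
      ∀ x : X n, mono F T (Red_tau σ K v x) = c * mono F T' x := by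
  have hlt : (T \ K.image v).card < T.card := by
    obtain ⟨j, hj, hjT⟩ := hT
    refine Finset.card_lt_card ⟨Finset.sdiff_subset, fun h => ?_⟩
    have h2 := h hjT
    rw [Finset.mem_sdiff] at h2
    exact h2.2 (Finset.mem_image_of_mem v hj)
  refine ⟨if ∀ j ∈ K, v j ∈ T → σ j (v j) = false then 1 else 0, T \ K.image v, hlt, fun x => ?_⟩
  rw [mono_apply, mono_apply]
  have h : (∀ i ∈ T, Red_tau σ K v x i = true) ↔
      ((∀ j ∈ K, v j ∈ T → σ j (v j) = false) ∧ ∀ i ∈ T \ K.image v, x i = true) := by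
    constructor
    · intro hall
      constructor
      · intro j hj hjT
        have h1 := hall (v j) hjT
        rw [Red_tau_mem σ K v hinj x j hj] at h1
        cases hs : σ j (v j)
        · rfl
        · rw [hs] at h1
          exact absurd h1 (by decide)
      · intro i hi
        rw [Finset.mem_sdiff] at hi
        have h1 := hall i hi.1
        rw [Red_tau_notMem σ K v x i] at h1
        · exact h1
        · rintro j hj rfl
          exact hi.2 (Finset.mem_image_of_mem v hj)
    · rintro ⟨h1, h2⟩ i hi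
      by_cases hiK : i ∈ K.image v
      · obtain ⟨j, hj, rfl⟩ := Finset.mem_image.1 hiK
        rw [Red_tau_mem σ K v hinj x j hj, h1 j hj hi]
        rfl
      · rw [Red_tau_notMem σ K v x i]
        · exact h2 i (Finset.mem_sdiff.2 ⟨hi, hiK⟩)
        · rintro j hj rfl
          exact hiK (Finset.mem_image_of_mem v hj)
  by_cases h1 : ∀ j ∈ K, v j ∈ T → σ j (v j) = false
  · rw [if_pos h1, one_mul]
    exact if_congr (h.trans (and_iff_right h1)) rfl rfl
  · rw [if_neg h1, zero_mul, if_neg]
    intro h2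
    exact h1 (h.mp h2).1

theorem red_hall {M : ℕ} (o : Finset (Fin n) → ℕ) (ho : Ord o) (S : Fin M → Finset (Fin n)) (σ : Fin M → X n)
    (A J : Finset (Fin M)) (hAJ : A ⊆ J) (T : Finset (Fin n)) (v : Fin M → Fin n)
    (hinj : Set.InjOn v (J \ A : Finset (Fin M))) (hv : ∀ j ∈ J \ A, v j ∈ S j ∧ v j ∉ T ∧ v j ∉ vs S A)
    (h : Red o (VJ F S σ J) T) : Red o (VJ F S σ A) T := by
  obtain ⟨K, hK⟩ : ∃ K, K = J \ A := ⟨_, rfl⟩
  rw [← hK] at hinj hv
  obtain ⟨sub, hsub⟩ : ∃ sub : (X n → F) →ₗ[F] (X n → F), ∀ g x, sub g x = g (Red_tau σ K v x) :=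
    ⟨LinearMap.funLeft F F (Red_tau σ K v), fun g x => rfl⟩
  have h1 : ∀ g ∈ VJ F S σ J, sub g ∈ VJ F S σ A := by
    intro g hg x hx
    rw [hsub]
    refine hg _ fun j' hj' hall => ?_
    by_cases hjA : j' ∈ A
    · refine hx j' hjA fun u hu => ?_
      have h2 := hall u hu
      rwa [Red_tau_notMem σ K v x u] at h2
      rintro j hj rfl
      exact (hv j hj).2.2 (Finset.mem_biUnion.2 ⟨j', hjA, hu⟩)
    · have hjK : j' ∈ K := by
        rw [hK]
        exact Finset.mem_sdiff.2 ⟨hj', hjA⟩
      have h2 := hall (v j') (hv j' hjK).1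
      rw [Red_tau_mem σ K v hinj x j' hjK] at h2
      cases hs : σ j' (v j')
      · rw [hs] at h2
        exact absurd h2 (by decide)
      · rw [hs] at h2
        exact absurd h2 (by decide)
  have h2 : ∀ w ∈ Submodule.span F (mono F '' {T' | o T' < o T} : Set (X n → F)),
      sub w ∈ Submodule.span F (mono F '' {T' | o T' < o T} : Set (X n → F)) := by
    have hle : Submodule.span F (mono F '' {T' | o T' < o T} : Set (X n → F)) ≤
        Submodule.comap sub (Submodule.span F (mono F '' {T' | o T' < o T} : Set (X n → F))) := by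
      rw [Submodule.span_le]
      rintro _ ⟨T', hT', rfl⟩
      have hT'' : o T' < o T := hT'
      show sub (mono F T') ∈ Submodule.span F (mono F '' {T' | o T' < o T} : Set (X n → F))
      by_cases hd : ∃ j ∈ K, v j ∈ T'
      · obtain ⟨c, T2, hlt, hc⟩ := Red_mono_of_not_disj (F := F) σ K v hinj T' hd
        have h3 : sub (mono F T') = c • mono F T2 := by
          funext x
          rw [hsub, hc, Pi.smul_apply, smul_eq_mul]
        rw [h3]
        refine Submodule.smul_mem _ _ (Submodule.subset_span ⟨T2, ?_, rfl⟩)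
        exact (ho.2 _ _ hlt).trans hT''
      · have h3 : sub (mono F T') = mono F T' := by
          funext x
          rw [hsub]
          refine Red_mono_of_disj σ K v T' ?_ x
          intro j hj hjT
          exact hd ⟨j, hj, hjT⟩
        rw [h3]
        exact Submodule.subset_span ⟨T', hT'', rfl⟩
    exact fun w hw => hle hw
  obtain ⟨g, hg, w, hw, hgw⟩ := Submodule.mem_sup.mp (show mono F T ∈ VJ F S σ J ⊔
    Submodule.span F (mono F '' {T' | o T' < o T}) from h)
  show mono F T ∈ VJ F S σ A ⊔ Submodule.span F (mono F '' {T' | o T' < o T})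
  have h4 : sub (mono F T) = mono F T := by
    funext x
    rw [hsub]
    exact Red_mono_of_disj σ K v T (fun j hj => (hv j hj).2.1) x
  have h3 : mono F T = sub g + sub w := by
    rw [← map_add, hgw, h4]
  rw [h3]
  exact Submodule.add_mem_sup (h1 g hg) (h2 w hw)

theorem red_sup {M E s : ℕ} (hn : 1 ≤ n) (o : Finset (Fin n) → ℕ) (ho : Ord o) (S : Fin M → Finset (Fin n)) (σ : Fin M → X n)
    (hS : HX S E s) (T : Finset (Fin n)) (hT : T.card ≤ E) (J : Finset (Fin M)) (hJ : J.card ≤ 2 * s)
    (h1 : Sup S s T ⊆ J) (h : Red o (VJ F S σ J) T) : Red o (VJ F S σ (Sup S s T)) T := by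
  obtain ⟨v, hinj, hv⟩ := hall hn hS hT hJ h1
  exact red_hall o ho S σ (Sup S s T) J h1 T v hinj hv h

end H33D3
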