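import Pool.Agent.H33.D3.Bri

/-!
ROW Sc (formulas with the variables of J in W; about 100 lines).  PROOF.  The set of these Φ is a product set (`Fintype.piFinset` of: for j ∈ J the clauses with all variables in W, otherwise all clauses), so its cardinality is c_W^|J| * K^(m - |J|), K = card (KClause n k) =
n.descFactorial k * 2^k (`Fintype.card_embedding_eq`; see `H62RC.XCount_K` in Pool/Agent/H62/RC/XCount.lean), c_W = |W|.descFactorial k * 2^k (embeddings Fin k ↪ Fin n with range in W ≃ embeddings Fin k ↪ W).  n^k * w.descFactorial k ≤ w^k * n.descFactorial k for w ≤ n: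
(w - i) n ≤ w (n - i) for i < w, `Nat.descFactorial_succ`, induction on k (zero if k > w).  So c_W ≤ K (w/n)^k, and c_W^|J| K^(m-|J|) ≤ K^m (w/n)^(k |J|).
-/

set_option autoImplicit false
open scoped Classical

namespace H33D3

open DepthTwo

private theorem desc_le (n w : ℕ) (hw : w ≤ n) (k : ℕ) :
    n ^ k * w.descFactorial k ≤ w ^ k * n.descFactorial k := by
  induction k with
  | zero => simp
  | succ k ih =>
    rw [Nat.descFactorial_succ, Nat.descFactorial_succ, pow_succ, pow_succ]
    have h1 : n * (w - k) ≤ w * (n - k) := by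
      rcases Nat.lt_or_ge k w with h | h
      · have h2 : w * k ≤ n * k := Nat.mul_le_mul_right k hw
        rw [Nat.mul_sub, Nat.mul_sub, mul_comm w n]
        omega
      · rw [Nat.sub_eq_zero_of_le h, mul_zero]
        exact Nat.zero_le _
    calc n ^ k * n * ((w - k) * w.descFactorial k) = (n ^ k * w.descFactorial k) * (n * (w - k)) := by ring
      _ ≤ (w ^ k * n.descFactorial k) * (w * (n - k)) := Nat.mul_le_mul ih h1
      _ = w ^ k * w * ((n - k) * n.descFactorial k) := by ring

private noncomputable def cW (n k : ℕ) (W : Finset (Fin n)) : Finset (KClause n k) :=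
  Finset.univ.filter (fun C : KClause n k => ∀ i, C.1 i ∈ W)

private theorem cW_card (n k : ℕ) (W : Finset (Fin n)) : (cW n k W).card ≤ W.card.descFactorial k * 2 ^ k := by
  have h1 : (cW n k W).card = Fintype.card {C : KClause n k // ∀ i, C.1 i ∈ W} := by
    rw [Fintype.card_subtype, cW]
  have h2 : Fintype.card {C : KClause n k // ∀ i, C.1 i ∈ W} ≤
      Fintype.card ((Fin k ↪ {x // x ∈ W}) × (Fin k → Bool)) := by
    refine Fintype.card_le_of_injective
      (fun C => ((⟨fun i => ⟨C.1.1 i, C.2 i⟩, fun i j h => C.1.1.injective (Subtype.mk.inj h)⟩ : Fin k ↪ {x // x ∈ W}), C.1.2)) ?_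
    rintro ⟨C, hC⟩ ⟨D, hD⟩ h
    have ha := congrArg Prod.fst h
    have hb := congrArg Prod.snd h
    apply Subtype.ext
    apply Prod.ext
    · apply DFunLike.ext
      intro i
      have h3 := DFunLike.congr_fun ha i
      exact Subtype.mk.inj h3
    · exact hb
  rw [h1]
  refine h2.trans (le_of_eq ?_)
  rw [Fintype.card_prod, Fintype.card_embedding_eq, Fintype.card_fin, Fintype.card_coe, Fintype.card_fun,
    Fintype.card_bool, Fintype.card_fin]

theorem sub_count {n k m : ℕ} (hn : 1 ≤ n) (J : Finset (Fin m)) (W : Finset (Fin n)) :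
    ((Finset.univ.filter (fun Φ : Fin m → KClause n k => vs (SSk Φ) J ⊆ W)).card : ℝ) ≤
      (Fintype.card (KClause n k) : ℝ) ^ m * ((W.card : ℝ) / n) ^ (k * J.card) := by
  have hJm : J.card ≤ m := (Finset.card_le_univ J).trans (by rw [Fintype.card_fin])
  have hWn : W.card ≤ n := (Finset.card_le_univ W).trans (by rw [Fintype.card_fin])
  have h1 : (Finset.univ.filter (fun Φ : Fin m → KClause n k => vs (SSk Φ) J ⊆ W)).card ≤
      (cW n k W).card ^ J.card * (Fintype.card (KClause n k)) ^ (m - J.card) := by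
    have h2 : (Finset.univ.filter (fun Φ : Fin m → KClause n k => vs (SSk Φ) J ⊆ W)) ⊆
        Fintype.piFinset (fun j : Fin m => if j ∈ J then cW n k W else Finset.univ) := by
      intro Φ hΦ
      rw [Fintype.mem_piFinset]
      intro j
      by_cases hj : j ∈ J
      · rw [if_pos hj, cW, Finset.mem_filter]
        refine ⟨Finset.mem_univ _, fun i => ?_⟩
        apply (Finset.mem_filter.1 hΦ).2
        rw [vs, Finset.mem_biUnion]
        exact ⟨j, hj, Finset.mem_image_of_mem _ (Finset.mem_univ i)⟩
      · rw [if_neg hj]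
        exact Finset.mem_univ _
    refine (Finset.card_le_card h2).trans (le_of_eq ?_)
    rw [Fintype.card_piFinset]
    have h3 : ∀ j : Fin m, (if j ∈ J then cW n k W else (Finset.univ : Finset (KClause n k))).card =
        if j ∈ J then (cW n k W).card else Fintype.card (KClause n k) := by
      intro j
      by_cases hj : j ∈ J
      · rw [if_pos hj, if_pos hj]
      · rw [if_neg hj, if_neg hj, Finset.card_univ]
    rw [Finset.prod_congr rfl fun j _ => h3 j, Finset.prod_ite, Finset.prod_const, Finset.prod_const]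
    have h4 : (Finset.univ.filter (fun j : Fin m => j ∈ J)) = J := by
      ext j
      simp
    have h5 : (Finset.univ.filter (fun j : Fin m => ¬ j ∈ J)) = Jᶜ := by
      ext j
      simp
    rw [h4, h5, Finset.card_compl, Fintype.card_fin]
  have hK : Fintype.card (KClause n k) = n.descFactorial k * 2 ^ k := by
    rw [Fintype.card_prod, Fintype.card_embedding_eq, Fintype.card_fin, Fintype.card_fin,
      Fintype.card_fun, Fintype.card_bool, Fintype.card_fin]
  have hn0 : (0 : ℝ) < n := by exact_mod_cast hn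
  have hc : ((cW n k W).card : ℝ) ≤ (Fintype.card (KClause n k) : ℝ) * ((W.card : ℝ) / n) ^ k := by
    have h6 : ((cW n k W).card : ℝ) ≤ (W.card.descFactorial k : ℝ) * 2 ^ k := by
      exact_mod_cast cW_card n k W
    have h7 : (n : ℝ) ^ k * (W.card.descFactorial k : ℝ) ≤ (W.card : ℝ) ^ k * (n.descFactorial k : ℝ) := by
      exact_mod_cast desc_le n W.card hWn k
    have h8 : (W.card.descFactorial k : ℝ) ≤ (n.descFactorial k : ℝ) * ((W.card : ℝ) / n) ^ k := by
      rw [div_pow, ← mul_div_assoc, le_div_iff₀ (pow_pos hn0 k)]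
      linarith
    rw [hK]
    push_cast
    calc ((cW n k W).card : ℝ) ≤ (W.card.descFactorial k : ℝ) * 2 ^ k := h6
      _ ≤ ((n.descFactorial k : ℝ) * ((W.card : ℝ) / n) ^ k) * 2 ^ k :=
          mul_le_mul_of_nonneg_right h8 (by positivity)
      _ = (n.descFactorial k : ℝ) * 2 ^ k * ((W.card : ℝ) / n) ^ k := by ring
  have h9 : ((Finset.univ.filter (fun Φ : Fin m → KClause n k => vs (SSk Φ) J ⊆ W)).card : ℝ) ≤
      ((cW n k W).card : ℝ) ^ J.card * (Fintype.card (KClause n k) : ℝ) ^ (m - J.card) := by
    exact_mod_cast h1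
  calc ((Finset.univ.filter (fun Φ : Fin m → KClause n k => vs (SSk Φ) J ⊆ W)).card : ℝ)
      ≤ ((cW n k W).card : ℝ) ^ J.card * (Fintype.card (KClause n k) : ℝ) ^ (m - J.card) := h9
    _ ≤ ((Fintype.card (KClause n k) : ℝ) * ((W.card : ℝ) / n) ^ k) ^ J.card *
          (Fintype.card (KClause n k) : ℝ) ^ (m - J.card) :=
        mul_le_mul_of_nonneg_right (pow_le_pow_left₀ (Nat.cast_nonneg _) hc _) (by positivity)
    _ = (Fintype.card (KClause n k) : ℝ) ^ m * ((W.card : ℝ) / n) ^ (k * J.card) := by
        rw [mul_pow, ← pow_mul, mul_right_comm, ← pow_add, Nat.add_sub_cancel' hJm]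

end H33D3
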