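import Pool.Agent.H33.D3.Hat

/-!
ROW Snd (one local inference is sound modulo `K`; about 250 lines).  SETTING.  T : truncated ideal, T.P = PP p n.  f : the function with f ∈ P Dm.  a G : approximations of the gates G ∈ 𝒢 (degree b1), a ∅ = 1.  al i : approximations of the lines (degree b2) with respect to the hats of
their forms.  PROOF.  Write `K`-membership; `T.abs : x ∈ K → x ∈ P u → y ∈ P v → u + v ≤ d → x * y ∈ K`.  Let C be the conclusion with approximation ac, A, B, W as in `Infers`.  u j := ∏_{F ∈ A j} (1 - hat F), v := ∏_{F ∈ B} (1 - hat F) (0/1 valued, degrees ≤ s * bh, bh = (p-1) b1).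
(1) For j ∈ J: f * ac * u j ∈ K.  f * al j ∈ K by hypothesis, so f * ac * u j * al j ∈ K (T.abs).  1 - al j = ∑ c i * g i with g i = hat of a form of l j, in C or in A j: if in C: f * (ac * g i) ∈ K, so f * ac * u j * (c i * g i) ∈ K; if in A j: u j * g i = 0 (a factor
(1 - g i) g i = 0).  So f * ac * u j = f * ac * u j * al j + f * ac * u j * (1 - al j) ∈ K.
(2) For F ∈ B ⊆ C: f * (ac * hat F) ∈ K.   So f * ac - f * ac * v ∈ K (expand the product by induction on B: (1 - v) is a combination of the hat F, F ∈ B, with coefficients of degree ≤ s * bh).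
(3) For w ∈ W (G1, P1, R, P2): y_w := ∏_{G ∈ R} a G * ∏_{g ∈ P2} (1 - g) * (1 - a G1 * ∏_{g ∈ P1} (1 - g)) satisfies f * y_w ∈ K: 1 - a G1 * ∏_{P1} (1 - g) = (1 - a G1) + a G1 * (1 - ∏_{P1} (1 - g)) is a combination of elements g of G1 ∪ P1 with
coefficients of degree ≤ b1 + s e; every such g is in some G ∈ R (then f * (a G * g) ∈ K, multiply by the other factors) or in P2 (then ∏_{P2} (1 - g) * g = 0, g is 0/1 valued).   (a ∅ = 1; Apx for G ∈ 𝒢; if G1 = ∅ then 1 - a G1 = 0.)  The degree of y_w is ≤ s b1 + s e + b1 + s e ≤ (3 s + 1) b1.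
(4) Clauses: f * fc (Φ j) ∈ K for j ∈ Jc (fc ∈ K, T.abs).
(5) At every point x: take ν = nu a x.  ν ∅ is false as a ∅ = 1 (1 ≠ 0 in ZMod p).  y_w x = 0 iff the axiom w holds at (x, ν), y_w x ∈ {0,1}; fc (Φ j) x = 0 iff the clause holds; 1 - u j x = 1 iff some F ∈ A j holds, v x = 1 iff no F ∈ B holds.  By soundness of the inference
   ∏_{j ∈ J} (1 - u j) * v * ∏_{w ∈ W} (1 - y_w) * ∏_{j ∈ Jc} (1 - fc (Φ j)) = 0 as a function.
(6) For a function z with f * ac * z ∈ K (z = u j, y_w, fc, and 1 - v) and any z' of small degree: f * ac * z' - f * ac * z' * (1 - z) ∈ K.  Multiply the factors one after the other: f * ac - f * ac * (product in (5)) ∈ K, so f * ac ∈ K.   All degrees are ≤ Dm + 2 b2 + ... ≤ d by hbud.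
-/

set_option autoImplicit false
open scoped Classical

namespace H33D3

open SizeDegree DepthTwo H85SD

theorem sound {p n k m e s ff b1 b2 Dm : ℕ} [Fact p.Prime] (T : TB p (Fn p n)) (hTP : T.P = PP p n)
    {𝒢 : Finset (Gate p n)} (h𝒢 : ∀ G ∈ 𝒢, ∀ g ∈ G, Cond e g) (Φ : Fin m → KClause n k)
    (hcl : ∀ j, (fc (Φ j) : Fn p n) ∈ T.K) (f : Fn p n) (hf : f ∈ PP p n Dm)
    (a : Gate p n → Fn p n) (ha0 : a ∅ = 1) (ha : ∀ G ∈ 𝒢, Apx T f (a G) (G : Set (Fn p n)) b1) (heb : e ≤ b1)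
    (l : ℕ → Line p n) (al : ℕ → Fn p n) {J : Finset ℕ} {Jc : Finset (Fin m)} (hJ : J.card ≤ ff) (hJc : Jc.card ≤ ff)
    (hal : ∀ j ∈ J, Apx T f (al j) (hat a '' l j) b2 ∧ f * al j ∈ T.K)
    (C : Line p n) (hC : ∀ F ∈ C, F.Ok e 𝒢) (ac : Fn p n) (hac : Apx T f ac (hat a '' C) b2)
    (hI : Infers e s 𝒢 Φ Jc l J C)
    (hbud : Dm + 2 * b2 + (ff + 2 * s + 2) * (s + 1) * ((p - 1) * b1 + b1) + (ff + 1) * k ≤ T.d) :
    f * ac ∈ T.K := by
  sorry

end H33D3
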