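import Pool.Agent.H33.D3.Sys

set_option autoImplicit false
open scoped Classical

namespace H33D3

open SizeDegree

theorem sound {n m p e f s N : ℕ} [Fact p.Prime] {Φ : Fin m → Clause n} (h : OrGates.Refutes p e f s Φ N) (x : Pt n) :
    ¬ ∀ j, (Φ j).Holds x := by
  intro hx
  obtain ⟨M, G, l, hM, hN, hG, hl, hlast, hstep⟩ := h
  -- the assignment of the gates and the variables
  obtain ⟨z, hz⟩ : ∃ z : Pt (M + n), z = Fin.append (fun j => decide (∃ g ∈ G j, g x = 1)) x := ⟨_, rfl⟩
  have hzv : OrGates.vars z = x := by
    funext i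
    unfold OrGates.vars
    rw [hz, Fin.append_right]
  have hzg : ∀ j, z (Fin.castAdd n j) = true ↔ ∃ g ∈ G j, g x = 1 := by
    intro j
    rw [hz, Fin.append_left, decide_eq_true_iff]
  have key : ∀ i, i < N → ∃ g ∈ l i, g z = 1 := by
    intro i
    induction i using Nat.strong_induction_on with
    | _ i ih =>
      intro hi
      rcases hstep i hi with ⟨j, hj⟩ | ⟨j, hj⟩ | ⟨J, _, hJi, A, B, hA, _, hBC, hs⟩
      · obtain ⟨q, hq, hqx⟩ := hx j
        refine ⟨_, hj q hq, ?_⟩
        unfold OrGates.lit
        rw [hzv]
        exact if_pos hqx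
      · rcases hj with ⟨g, hg1, hg2, hg3⟩ | ⟨h1, h2⟩
        · rcases (hG j g hg1).2 x with h0 | h0
          · refine ⟨_, hg2, ?_⟩
            rw [hzv, h0, sub_zero]
          · refine ⟨_, hg3, ?_⟩
            unfold OrGates.gate
            exact if_pos ((hzg j).2 ⟨g, hg1, h0⟩)
        · by_cases h3 : ∃ g ∈ G j, g x = 1
          · obtain ⟨g, hg, hgx⟩ := h3
            refine ⟨_, h2 g hg, ?_⟩
            rw [hzv, hgx]
          · refine ⟨_, h1, ?_⟩
            unfold OrGates.gate
            rw [if_neg (fun h4 => h3 ((hzg j).1 h4)), sub_zero]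
      · by_contra hcon
        push Not at hcon
        have h0 : ∀ g ∈ l i, g z = 0 := by
          intro g hg
          rcases (hl i hi g hg).2 z with h1 | h1
          · exact h1
          · exact absurd h1 (hcon g hg)
        have hspan : ∀ (S : Set (Pt (M + n) → ZMod p)), (∀ g ∈ S, g z = 0) →
            ∀ g ∈ Submodule.span (ZMod p) S, g z = 0 := by
          intro S hS g hg
          induction hg using Submodule.span_induction with
          | mem g hg => exact hS g hg
          | zero => rfl
          | add g g' _ _ h1 h2 => rw [Pi.add_apply, h1, h2, add_zero]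
          | smul a g _ h1 => rw [Pi.smul_apply, h1, smul_zero]
        have hprem : ∀ j ∈ J, ∃ g ∈ A j, g z = 1 := by
          intro j hj
          by_contra hcj
          push Not at hcj
          obtain ⟨g, hg, hgz⟩ := ih j (hJi j hj) ((hJi j hj).trans hi)
          have h1 := hspan _ (by
            intro a ha
            rcases ha with ha | ha
            · exact h0 a ha
            · rcases ((hA j hj).2.1 a ha).2 z with h2 | h2
              · exact h2
              · exact absurd h2 (hcj a ha)) g ((hA j hj).2.2 hg)
          rw [h1] at hgz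
          exact zero_ne_one hgz
        obtain ⟨g, hg, hgz⟩ := hs z hprem
        have h1 := hspan _ h0 g (hBC g hg).2
        rw [h1] at hgz
        exact zero_ne_one hgz
  obtain ⟨g, hg, _⟩ := key (N - 1) (by omega)
  rw [hlast] at hg
  exact hg

end H33D3
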